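import Pool.Agent.H24.TC.NDefs

/-!
# Module Bas: elementary bounds

`0 < κ ≤ p ω ≤ 1` everywhere. A line has at most `m` points (`S_card_le`) and `(p ω)⁻¹ ≤ κ⁻¹`, `1 ≤ κ⁻¹`, so `w ≤ KK m κ = κ⁻¹ ^ m`
(`Finset.prod_le_pow_card`-type lemma, then `pow_le_pow_right₀`). `sum_pr`: either `0` or `W / (2q) ≤ 1`. `pt` is `0` or a value of `pr`.
`nx_ge`: `pt ≤ K/(2q) ≤ 1/2` as `K ≤ q`; `1 - x ≥ exp(-2x)` for `0 ≤ x ≤ 1/2` (`Pool.Agent.H42.TreeCover.exp_neg_two_mul_le`), product over the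
`q` slopes: `exp(-K)`. `Un_sub`: filter.
-/

set_option autoImplicit false

namespace Pool.Agent.H24.TC

open Finset
open Pool.Agent.H42.TreeCover (L S)

variable {q m : ℕ} [NeZero q]

theorem w_nonneg (U : Finset (Fin m × ZMod q)) {p : Fin m × ZMod q → ℝ} (hp : ∀ ω, 0 < p ω)
    (i z : ZMod q) : 0 ≤ w U p i z := by
  unfold w
  split_ifs
  · exact Finset.prod_nonneg fun ω _ => inv_nonneg.2 (hp ω).le
  · exact le_refl _

theorem w_le (U : Finset (Fin m × ZMod q)) {p : Fin m × ZMod q → ℝ} {κ : ℝ} (hκ : 0 < κ)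
    (hκ1 : κ ≤ 1) (hp : ∀ ω, κ ≤ p ω) (i z : ZMod q) : w U p i z ≤ KK m κ := by
  have h1 : 1 ≤ κ⁻¹ := (one_le_inv₀ hκ).2 hκ1
  unfold w KK
  split_ifs
  · have h2 : ∏ ω ∈ S q m i z, (p ω)⁻¹ ≤ ∏ _ω ∈ S q m i z, κ⁻¹ := by
      refine Finset.prod_le_prod (fun ω _ => inv_nonneg.2 (hκ.le.trans (hp ω))) fun ω _ => ?_
      exact inv_anti₀ hκ (hp ω)
    rw [Finset.prod_const] at h2
    exact h2.trans (pow_le_pow_right₀ h1 (Pool.Agent.H42.TreeCover.S_card_le i z))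
  · exact pow_nonneg (by linarith) _

theorem one_le_KK {κ : ℝ} (hκ : 0 < κ) (hκ1 : κ ≤ 1) (m : ℕ) : 1 ≤ KK m κ := by
  exact one_le_pow₀ ((one_le_inv₀ hκ).2 hκ1)

theorem W_nonneg (U : Finset (Fin m × ZMod q)) {p : Fin m × ZMod q → ℝ} (hp : ∀ ω, 0 < p ω)
    (i : ZMod q) : 0 ≤ W U p i := by
  exact Finset.sum_nonneg fun z _ => w_nonneg U hp i z

theorem W_le (U : Finset (Fin m × ZMod q)) {p : Fin m × ZMod q → ℝ} {κ : ℝ} (hκ : 0 < κ)
    (hκ1 : κ ≤ 1) (hp : ∀ ω, κ ≤ p ω) (i : ZMod q) : W U p i ≤ q * KK m κ := by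
  have h1 : W U p i ≤ ∑ _z : ZMod q, KK m κ :=
    Finset.sum_le_sum fun z _ => w_le U hκ hκ1 hp i z
  rw [Finset.sum_const, Finset.card_univ, ZMod.card, nsmul_eq_mul] at h1
  exact h1

theorem Z_nonneg (U : Finset (Fin m × ZMod q)) {p : Fin m × ZMod q → ℝ} (hp : ∀ ω, 0 < p ω)
    (D : Finset (ZMod q)) (ω : Fin m × ZMod q) : 0 ≤ Z U p D ω := by
  exact Finset.sum_nonneg fun i _ => w_nonneg U hp i _

theorem Z_le (U : Finset (Fin m × ZMod q)) {p : Fin m × ZMod q → ℝ} {κ : ℝ} (hκ : 0 < κ)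
    (hκ1 : κ ≤ 1) (hp : ∀ ω, κ ≤ p ω) (D : Finset (ZMod q)) (ω : Fin m × ZMod q) :
    Z U p D ω ≤ q * KK m κ := by
  have h0 := one_le_KK hκ hκ1 m
  have h1 : Z U p D ω ≤ ∑ _i ∈ D, KK m κ :=
    Finset.sum_le_sum fun i _ => w_le U hκ hκ1 hp i _
  rw [Finset.sum_const, nsmul_eq_mul] at h1
  have h2 : (D.card : ℝ) ≤ q := by
    have h3 : D.card ≤ Fintype.card (ZMod q) := Finset.card_le_univ D
    rw [ZMod.card] at h3
    exact_mod_cast h3
  exact h1.trans (mul_le_mul_of_nonneg_right h2 (by linarith))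

theorem pr_nonneg (Λ : Finset (ZMod q)) (U : Finset (Fin m × ZMod q)) {p : Fin m × ZMod q → ℝ}
    (hp : ∀ ω, 0 < p ω) (i z : ZMod q) : 0 ≤ pr Λ U p i z := by
  unfold pr
  split_ifs
  · exact div_nonneg (w_nonneg U hp i z) (by positivity)
  · exact le_refl _

theorem pr_le (Λ : Finset (ZMod q)) (U : Finset (Fin m × ZMod q)) {p : Fin m × ZMod q → ℝ}
    {κ : ℝ} (hκ : 0 < κ) (hκ1 : κ ≤ 1) (hp : ∀ ω, κ ≤ p ω) (i z : ZMod q) :
    pr Λ U p i z ≤ KK m κ / (2 * q) := by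
  have h0 := one_le_KK hκ hκ1 m
  unfold pr
  split_ifs
  · exact div_le_div_of_nonneg_right (w_le U hκ hκ1 hp i z) (by positivity)
  · exact div_nonneg (by linarith) (by positivity)

theorem sum_pr (Λ : Finset (ZMod q)) (U : Finset (Fin m × ZMod q)) {p : Fin m × ZMod q → ℝ}
    (hp : ∀ ω, 0 < p ω) (i : ZMod q) : ∑ z, pr Λ U p i z ≤ 1 := by
  have hq : (0 : ℝ) < 2 * q := by
    have h1 : (0 : ℝ) < q := by exact_mod_cast Nat.pos_of_ne_zero (NeZero.ne q)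
    linarith
  by_cases h : i ∈ Λ ∧ W U p i ≤ 2 * q
  · have h1 : ∑ z, pr Λ U p i z = W U p i / (2 * q) := by
      unfold W
      rw [Finset.sum_div]
      refine Finset.sum_congr rfl fun z _ => ?_
      unfold pr
      rw [if_pos h]
    rw [h1, div_le_one hq]
    exact h.2
  · have h1 : ∑ z, pr Λ U p i z = 0 := by
      refine Finset.sum_eq_zero fun z _ => ?_
      unfold pr
      rw [if_neg h]
    rw [h1]
    exact zero_le_one

theorem law_isP (Λ : Finset (ZMod q)) (U : Finset (Fin m × ZMod q)) {p : Fin m × ZMod q → ℝ}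
    (hp : ∀ ω, 0 < p ω) : IsP (law Λ U p) := by
  refine ⟨fun i b => ?_, fun i => ?_⟩
  · cases b with
    | none =>
      change 0 ≤ 1 - ∑ z, pr Λ U p i z
      have := sum_pr Λ U hp i
      linarith
    | some z => exact pr_nonneg Λ U hp i z
  · rw [Fintype.sum_option]
    change (1 - ∑ z, pr Λ U p i z) + ∑ z, pr Λ U p i z = 1
    ring

theorem pt_nonneg (T : ZMod q → Finset (ZMod q)) (Λ : Finset (ZMod q))
    (U : Finset (Fin m × ZMod q)) {p : Fin m × ZMod q → ℝ} (hp : ∀ ω, 0 < p ω) (i : ZMod q)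
    (ω : Fin m × ZMod q) : 0 ≤ pt T Λ U p i ω := by
  unfold pt
  split_ifs
  · exact le_refl _
  · exact pr_nonneg Λ U hp i _

theorem pt_le (T : ZMod q → Finset (ZMod q)) (Λ : Finset (ZMod q))
    (U : Finset (Fin m × ZMod q)) {p : Fin m × ZMod q → ℝ} {κ : ℝ} (hκ : 0 < κ) (hκ1 : κ ≤ 1)
    (hp : ∀ ω, κ ≤ p ω) (i : ZMod q) (ω : Fin m × ZMod q) :
    pt T Λ U p i ω ≤ KK m κ / (2 * q) := by
  have h0 := one_le_KK hκ hκ1 m
  unfold pt
  split_ifs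
  · exact div_nonneg (by linarith) (by positivity)
  · exact pr_le Λ U hκ hκ1 hp i _

theorem pt_le_one (T : ZMod q → Finset (ZMod q)) (Λ : Finset (ZMod q))
    (U : Finset (Fin m × ZMod q)) {p : Fin m × ZMod q → ℝ} (hp : ∀ ω, 0 < p ω) (i : ZMod q)
    (ω : Fin m × ZMod q) : pt T Λ U p i ω ≤ 1 := by
  unfold pt
  split_ifs
  · exact zero_le_one
  · exact (Finset.single_le_sum (fun z _ => pr_nonneg Λ U hp i z) (Finset.mem_univ _)).trans
      (sum_pr Λ U hp i)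

theorem nx_nonneg (T : ZMod q → Finset (ZMod q)) (Λ : Finset (ZMod q))
    (U : Finset (Fin m × ZMod q)) {p : Fin m × ZMod q → ℝ} (hp : ∀ ω, 0 < p ω)
    (ω : Fin m × ZMod q) : 0 ≤ nx T Λ U p ω := by
  refine mul_nonneg (hp ω).le (Finset.prod_nonneg fun i _ => ?_)
  have := pt_le_one T Λ U hp i ω
  linarith

theorem nx_le (T : ZMod q → Finset (ZMod q)) (Λ : Finset (ZMod q))
    (U : Finset (Fin m × ZMod q)) {p : Fin m × ZMod q → ℝ} (hp : ∀ ω, 0 < p ω)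
    (ω : Fin m × ZMod q) : nx T Λ U p ω ≤ p ω := by
  refine mul_le_of_le_one_right (hp ω).le (Finset.prod_le_one (fun i _ => ?_) fun i _ => ?_)
  · have := pt_le_one T Λ U hp i ω
    linarith
  · have := pt_nonneg T Λ U hp i ω
    linarith

theorem nx_ge (T : ZMod q → Finset (ZMod q)) (Λ : Finset (ZMod q))
    (U : Finset (Fin m × ZMod q)) {p : Fin m × ZMod q → ℝ} {κ : ℝ} (hκ : 0 < κ) (hκ1 : κ ≤ 1)
    (hp : ∀ ω, κ ≤ p ω) (hK : KK m κ ≤ q) (ω : Fin m × ZMod q) :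
    κ * Real.exp (-KK m κ) ≤ nx T Λ U p ω := by
  have hp' : ∀ ω, 0 < p ω := fun ω => hκ.trans_le (hp ω)
  have hq : (0 : ℝ) < q := by exact_mod_cast Nat.pos_of_ne_zero (NeZero.ne q)
  have h0 := one_le_KK hκ hκ1 m
  have h1 : ∏ _i : ZMod q, Real.exp (-(KK m κ / q)) ≤ ∏ i, (1 - pt T Λ U p i ω) := by
    refine Finset.prod_le_prod (fun i _ => (Real.exp_pos _).le) fun i _ => ?_
    have h2 := pt_nonneg T Λ U hp' i ω
    have h3 := pt_le T Λ U hκ hκ1 hp i ω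
    have h4 : KK m κ / (2 * q) ≤ 1 / 2 := by
      rw [div_le_div_iff₀ (by positivity) (by norm_num)]
      linarith
    refine le_trans ?_ (Pool.Agent.H42.TreeCover.exp_neg_two_mul_le h2 (h3.trans h4))
    refine Real.exp_le_exp.2 ?_
    have h5 : 2 * (KK m κ / (2 * q)) = KK m κ / q := by
      field_simp
    linarith
  rw [Finset.prod_const, Finset.card_univ, ZMod.card, ← Real.exp_nat_mul] at h1
  have h6 : (q : ℝ) * -(KK m κ / q) = -KK m κ := by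
    field_simp
  rw [h6] at h1
  unfold nx
  exact mul_le_mul (hp ω) h1 (Real.exp_pos _).le (hp' ω).le

theorem KK_mono {κ κ' : ℝ} (hκ' : 0 < κ') (h : κ' ≤ κ) (m : ℕ) : KK m κ ≤ KK m κ' := by
  unfold KK
  exact pow_le_pow_left₀ (inv_nonneg.2 (hκ'.le.trans h)) (inv_anti₀ hκ' h) m

theorem Un_sub (T : ZMod q → Finset (ZMod q)) (a : ZMod q → Option (ZMod q))
    (U : Finset (Fin m × ZMod q)) : Un T a U ⊆ U := by
  exact Finset.filter_subset _ _

end Pool.Agent.H24.TC
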