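import Mathlib

/-!
# Monochromatic tree covers of edge-coloured dense graphs: definitions

The definitions of the tree cover number (as in `TreeCoverDisproof`, helper42) and the abstract set systems used in the lower bound.
-/

set_option autoImplicit false

namespace Pool.Agent.H24.TC

open Finset

/-- A subgraph `H` of `G` is a monochromatic tree for the edge colouring `χ` if it is a tree and
all its edges have the same colour (a single vertex is allowed). -/
def IsMonoTree {V : Type*} (G : SimpleGraph V) {r : ℕ} (χ : G.edgeSet → Fin r)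
    (H : G.Subgraph) : Prop :=
  H.coe.IsTree ∧ ∃ c : Fin r, ∀ (e : Sym2 V) (he : e ∈ H.edgeSet), χ ⟨e, H.edgeSet_subset he⟩ = c

/-- A tree cover: a finite family of monochromatic trees covering all the vertices. -/
def IsTreeCover {V : Type*} (G : SimpleGraph V) {r : ℕ} (χ : G.edgeSet → Fin r)
    (F : Finset G.Subgraph) : Prop :=
  (∀ H ∈ F, IsMonoTree G χ H) ∧ ∀ v : V, ∃ H ∈ F, v ∈ H.verts

/-- The minimum size of a tree cover. -/
noncomputable def tc {V : Type*} (G : SimpleGraph V) {r : ℕ} (χ : G.edgeSet → Fin r) : ℕ :=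
  sInf {k : ℕ | ∃ F : Finset G.Subgraph, IsTreeCover G χ F ∧ F.card = k}

/-- The maximum of `tc` over all `r`-edge-coloured graphs on `n` vertices with minimum degree at
least `(1 - δ) n`. -/
noncomputable def maxTc (r : ℕ) (δ : ℝ) (n : ℕ) : ENNReal :=
  ⨆ (G : SimpleGraph (Fin n)) (χ : G.edgeSet → Fin r)
    (_ : ∀ v : Fin n, (1 - δ) * n ≤ ((G.neighborSet v).ncard : ℝ)), (tc G χ : ENNReal)

/-- `tc_r(δ)`, the limsup of `maxTc`. -/
noncomputable def tcr (r : ℕ) (δ : ℝ) : ENNReal :=
  Filter.limsup (maxTc r δ) Filter.atTop

open Classical in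
/-- A set system with `k` colours, robustness `t` and defect `η`: points `Ω`, colours `C`, and for every colour a function
`val c : Ω → A`, such that for every set `T` of at most `t` forbidden pairs (colour, value) there is a partial selection `v` of one allowed
value for each colour which misses at most `η |Ω|` of the points. -/
def Sys (k t : ℕ) (η : ℝ) : Prop :=
  ∃ (Ω C A : Type) (_ : Fintype Ω) (_ : Nonempty Ω) (_ : Fintype C) (_ : Fintype A) (val : C → Ω → A),
    Fintype.card C = k ∧ ∀ T : Finset (C × A), T.card ≤ t → ∃ v : C → Option A,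
      (∀ c z, v c = some z → (c, z) ∉ T) ∧
      ((univ.filter fun ω : Ω => ∀ c, v c ≠ some (val c ω)).card : ℝ) ≤ η * (Fintype.card Ω : ℝ)

end Pool.Agent.H24.TC
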