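import Pool.Agent.H24.TC.Prob

/-!
# Module Part: a partition of the slopes

`β = Option (Fin n)`, the law of every slope `i` is `P i (some j) = 1/2^(j+1)`, `P i none = 1/2^n` (sum `1`). For a choice `a` let `Λ j = {i | a i = some j}` (`j < n`; for
`j ≥ n` the empty set); these are disjoint. Fix `ω` with `2 |D ω| ≥ q` and `j < n`, `π = 1/2^(j+1)`, `Y i = 1` if `a i ≠ some j`, else `0`. `|D ω ∩ Λ j| = |D ω| - ∑ i ∈ D ω, Y i`.
By `Ex_avoid` (with `N i = {some j}` at one or two slopes, `∅` elsewhere) `E Y i = 1 - π`, `E (Y i Y i') = (1-π)²` for `i ≠ i'` and `Y i² = Y i`, so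
`E (|D ω ∩ Λ j| - π |D ω|)² = |D ω| π (1-π) ≤ q π`. If `|D ω ∩ Λ j| < q/2^(j+3)` then, as `π |D ω| ≥ q/2^(j+2)`, the square is at least `(q/2^(j+3))²`. So the expected number of
bad pairs `(ω, j)` is at most `m q n (q π) 2^(2j+6) / q² ≤ m n 2^(n+5) = B`. Take `a` from `Ex_exists_le`.
-/

set_option autoImplicit false

namespace Pool.Agent.H24.TC

open Finset

private noncomputable def PP (q n : ℕ) (_ : ZMod q) : Option (Fin n) → ℝ
  | none => 1 / 2 ^ n
  | some j => 1 / 2 ^ ((j : ℕ) + 1)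

private lemma PP_isP (q n : ℕ) [NeZero q] : IsP (PP q n) where
  nn i b := by
    cases b with
    | none => simp only [PP]; positivity
    | some j => simp only [PP]; positivity
  one i := by
    rw [Fintype.sum_option]
    simp only [PP]
    rw [Fin.sum_univ_eq_sum_range (fun j => (1 : ℝ) / 2 ^ (j + 1)) n]
    have h : ∀ k : ℕ, (1 : ℝ) / 2 ^ k + ∑ j ∈ range k, (1 : ℝ) / 2 ^ (j + 1) = 1 := by
      intro k
      induction k with
      | zero => simp
      | succ k ih =>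
        rw [sum_range_succ]
        have h2 : (1 : ℝ) / 2 ^ k = 1 / 2 ^ (k + 1) + 1 / 2 ^ (k + 1) := by
          rw [pow_succ]
          field_simp
          norm_num
        linarith
    exact h n

private lemma Ex_av (q n : ℕ) [NeZero q] (j : Fin n) (s : Finset (ZMod q)) :
    Ex (PP q n) (fun a => if ∀ i ∈ s, a i ≠ some j then (1 : ℝ) else 0) =
      (1 - 1 / 2 ^ ((j : ℕ) + 1)) ^ s.card := by
  have h := Ex_avoid (PP_isP q n) (fun i => if i ∈ s then {some j} else ∅)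
  have e1 : (fun a : ZMod q → Option (Fin n) =>
      if ∀ i, a i ∉ (if i ∈ s then ({some j} : Finset (Option (Fin n))) else ∅) then (1 : ℝ) else 0) =
      (fun a => if ∀ i ∈ s, a i ≠ some j then (1 : ℝ) else 0) := by
    funext a
    congr 1
    apply propext
    constructor
    · intro h i hi
      have := h i
      rw [if_pos hi] at this
      simpa using this
    · intro h i
      by_cases hi : i ∈ s
      · rw [if_pos hi]
        simpa using h i hi
      · rw [if_neg hi]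
        simp
  rw [e1] at h
  rw [h]
  have e2 : ∀ i : ZMod q, (1 - ∑ b ∈ (if i ∈ s then ({some j} : Finset (Option (Fin n))) else ∅),
      PP q n i b) = if i ∈ s then (1 - 1 / 2 ^ ((j : ℕ) + 1) : ℝ) else 1 := by
    intro i
    by_cases hi : i ∈ s
    · rw [if_pos hi, if_pos hi, sum_singleton]
      rfl
    · rw [if_neg hi, if_neg hi]
      simp
  rw [prod_congr rfl fun i _ => e2 i, prod_ite_mem, univ_inter, prod_const]

private noncomputable def YY {q n : ℕ} (j : Fin n) (i : ZMod q) (a : ZMod q → Option (Fin n)) : ℝ :=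
  if a i ≠ some j then 1 else 0

private lemma Ex_Y (q n : ℕ) [NeZero q] (j : Fin n) (i : ZMod q) :
    Ex (PP q n) (YY j i) = 1 - 1 / 2 ^ ((j : ℕ) + 1) := by
  have h := Ex_av q n j {i}
  simp only [mem_singleton, forall_eq, card_singleton, pow_one] at h
  exact h

private lemma Ex_YY (q n : ℕ) [NeZero q] (j : Fin n) {i k : ZMod q} (hik : i ≠ k) :
    Ex (PP q n) (fun a => YY j i a * YY j k a) = (1 - 1 / 2 ^ ((j : ℕ) + 1)) ^ 2 := by
  have h := Ex_av q n j {i, k}
  rw [card_pair hik] at h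
  rw [← h]
  congr 1
  funext a
  simp only [YY, mem_insert, mem_singleton, forall_eq_or_imp, forall_eq]
  by_cases h1 : a i = some j <;> by_cases h2 : a k = some j <;> simp [h1, h2]

private lemma Ex_ZZ (q n : ℕ) [NeZero q] (j : Fin n) (i k : ZMod q) :
    Ex (PP q n) (fun a => ((1 - 1 / 2 ^ ((j : ℕ) + 1)) - YY j i a) *
      ((1 - 1 / 2 ^ ((j : ℕ) + 1)) - YY j k a)) =
      if i = k then (1 / 2 ^ ((j : ℕ) + 1)) * (1 - 1 / 2 ^ ((j : ℕ) + 1)) else 0 := by
  set r : ℝ := 1 - 1 / 2 ^ ((j : ℕ) + 1) with hr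
  have hP := PP_isP q n
  have e : (fun a : ZMod q → Option (Fin n) => (r - YY j i a) * (r - YY j k a)) =
      fun a => ((r ^ 2 - r * YY j i a) - r * YY j k a) + YY j i a * YY j k a := by
    funext a
    ring
  rw [e, Ex_add (PP q n) (fun a => (r ^ 2 - r * YY j i a) - r * YY j k a)
    (fun a => YY j i a * YY j k a), Ex_sub (PP q n) (fun a => r ^ 2 - r * YY j i a)
    (fun a => r * YY j k a), Ex_sub (PP q n) (fun _ => r ^ 2) (fun a => r * YY j i a),
    Ex_const hP, Ex_mul_left, Ex_mul_left, Ex_Y, Ex_Y, ← hr]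
  by_cases hik : i = k
  · subst hik
    rw [if_pos rfl]
    have e2 : (fun a : ZMod q → Option (Fin n) => YY j i a * YY j i a) = YY j i := by
      funext a
      unfold YY
      split_ifs <;> simp
    rw [e2, Ex_Y, ← hr]
    have : (1 : ℝ) / 2 ^ ((j : ℕ) + 1) = 1 - r := by rw [hr]; ring
    rw [this]
    ring
  · rw [if_neg hik, Ex_YY q n j hik, ← hr]
    ring

/-- the class of the slopes -/
private def La {q n : ℕ} [NeZero q] (a : ZMod q → Option (Fin n)) (j : ℕ) : Finset (ZMod q) :=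
  univ.filter fun i => (a i).map Fin.val = some j

private lemma card_La {q n : ℕ} [NeZero q] (a : ZMod q → Option (Fin n)) (j : Fin n)
    (D : Finset (ZMod q)) : ((D ∩ La a j).card : ℝ) = ∑ i ∈ D, (1 - YY j i a) := by
  have h1 : D ∩ La a j = D.filter (fun i => a i = some j) := by
    ext i
    simp only [La, mem_inter, mem_filter, mem_univ, true_and]
    refine and_congr_right fun _ => ?_
    cases h : a i with
    | none => simp
    | some x =>
      simp only [Option.map_some, Option.some.injEq]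
      exact ⟨fun h => Fin.ext h, fun h => by rw [h]⟩
  rw [h1, card_filter, Nat.cast_sum]
  refine sum_congr rfl fun i _ => ?_
  unfold YY
  by_cases h : a i = some j <;> simp [h]

private lemma moment (q n : ℕ) [NeZero q] (j : Fin n) (D : Finset (ZMod q)) :
    Ex (PP q n) (fun a => (((D ∩ La a j).card : ℝ) - (1 / 2 ^ ((j : ℕ) + 1)) * D.card) ^ 2) ≤
      q * (1 / 2 ^ ((j : ℕ) + 1)) := by
  have e : (fun a : ZMod q → Option (Fin n) =>
      (((D ∩ La a j).card : ℝ) - (1 / 2 ^ ((j : ℕ) + 1)) * D.card) ^ 2) =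
      fun a => ∑ i ∈ D, ∑ k ∈ D, ((1 - 1 / 2 ^ ((j : ℕ) + 1)) - YY j i a) *
      ((1 - 1 / 2 ^ ((j : ℕ) + 1)) - YY j k a) := by
    funext a
    rw [card_La, ← sum_mul_sum, ← sq]
    congr 1
    rw [sum_sub_distrib, sum_sub_distrib, sum_const, sum_const, nsmul_eq_mul, nsmul_eq_mul]
    ring
  rw [e, Ex_sum (PP q n) D (fun i a => ∑ k ∈ D, ((1 - 1 / 2 ^ ((j : ℕ) + 1)) - YY j i a) *
      ((1 - 1 / 2 ^ ((j : ℕ) + 1)) - YY j k a))]
  have e2 : ∀ i ∈ D, Ex (PP q n) (fun a => ∑ k ∈ D, ((1 - 1 / 2 ^ ((j : ℕ) + 1)) - YY j i a) *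
      ((1 - 1 / 2 ^ ((j : ℕ) + 1)) - YY j k a)) =
      (1 / 2 ^ ((j : ℕ) + 1)) * (1 - 1 / 2 ^ ((j : ℕ) + 1)) := by
    intro i hi
    rw [Ex_sum (PP q n) D (fun k a => ((1 - 1 / 2 ^ ((j : ℕ) + 1)) - YY j i a) *
      ((1 - 1 / 2 ^ ((j : ℕ) + 1)) - YY j k a)), sum_congr rfl fun k _ => Ex_ZZ q n j i k,
      sum_ite_eq, if_pos hi]
  rw [sum_congr rfl e2, sum_const, nsmul_eq_mul]
  have hc : (D.card : ℝ) ≤ q := by
    have := card_le_univ D
    rw [ZMod.card] at this
    exact_mod_cast this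
  have h0 : (0 : ℝ) ≤ 1 / 2 ^ ((j : ℕ) + 1) := by positivity
  have h1 : (1 : ℝ) / 2 ^ ((j : ℕ) + 1) ≤ 1 := by
    rw [div_le_one (by positivity)]
    exact one_le_pow₀ (by norm_num)
  have h2 : (1 / 2 ^ ((j : ℕ) + 1)) * (1 - 1 / 2 ^ ((j : ℕ) + 1)) ≤ (1 : ℝ) / 2 ^ ((j : ℕ) + 1) := by
    nlinarith
  have h3 : (0 : ℝ) ≤ (1 / 2 ^ ((j : ℕ) + 1)) * (1 - 1 / 2 ^ ((j : ℕ) + 1)) :=
    mul_nonneg h0 (by linarith)
  exact mul_le_mul hc h2 h3 (by positivity)

open Classical in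
theorem part (m n : ℕ) {q : ℕ} (hq : 0 < q) [NeZero q] (D : Fin m × ZMod q → Finset (ZMod q)) :
    ∃ Λ : ℕ → Finset (ZMod q), (∀ j j', j ≠ j' → Disjoint (Λ j) (Λ j')) ∧
      ((univ.filter fun ω : Fin m × ZMod q => q ≤ 2 * (D ω).card ∧
        ∃ j < n, ((D ω ∩ Λ j).card : ℝ) < q / 2 ^ (j + 3)).card : ℝ) ≤ m * n * 2 ^ (n + 5) := by
  have hq0 : (0 : ℝ) < q := by exact_mod_cast hq
  have hP := PP_isP q n
  obtain ⟨a, -, ha⟩ := Ex_exists_le hP (fun a => ∑ ω : Fin m × ZMod q, ∑ j : Fin n,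
    (2 ^ ((j : ℕ) + 3) / q) ^ 2 *
      (((D ω ∩ La a j).card : ℝ) - (1 / 2 ^ ((j : ℕ) + 1)) * (D ω).card) ^ 2)
  refine ⟨La a, ?_, ?_⟩
  · intro j j' hjj
    rw [disjoint_left]
    intro i h1 h2
    simp only [La, mem_filter, mem_univ, true_and] at h1 h2
    rw [h1] at h2
    exact hjj (Option.some.inj h2)
  · -- the expectation
    have hE : Ex (PP q n) (fun a => ∑ ω : Fin m × ZMod q, ∑ j : Fin n,
        (2 ^ ((j : ℕ) + 3) / (q : ℝ)) ^ 2 *
        (((D ω ∩ La a j).card : ℝ) - (1 / 2 ^ ((j : ℕ) + 1)) * (D ω).card) ^ 2) ≤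
        m * n * 2 ^ (n + 5) := by
      rw [Ex_sum (PP q n) univ (fun (ω : Fin m × ZMod q) a => ∑ j : Fin n,
        (2 ^ ((j : ℕ) + 3) / (q : ℝ)) ^ 2 *
        (((D ω ∩ La a j).card : ℝ) - (1 / 2 ^ ((j : ℕ) + 1)) * (D ω).card) ^ 2)]
      have h1 : ∀ ω : Fin m × ZMod q, Ex (PP q n) (fun a => ∑ j : Fin n,
          (2 ^ ((j : ℕ) + 3) / (q : ℝ)) ^ 2 *
          (((D ω ∩ La a j).card : ℝ) - (1 / 2 ^ ((j : ℕ) + 1)) * (D ω).card) ^ 2) ≤
          n * 2 ^ (n + 5) / q := by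
        intro ω
        rw [Ex_sum (PP q n) univ (fun (j : Fin n) a => (2 ^ ((j : ℕ) + 3) / (q : ℝ)) ^ 2 *
          (((D ω ∩ La a j).card : ℝ) - (1 / 2 ^ ((j : ℕ) + 1)) * (D ω).card) ^ 2)]
        have h2 : ∀ j : Fin n, Ex (PP q n) (fun a => (2 ^ ((j : ℕ) + 3) / (q : ℝ)) ^ 2 *
            (((D ω ∩ La a j).card : ℝ) - (1 / 2 ^ ((j : ℕ) + 1)) * (D ω).card) ^ 2) ≤
            2 ^ (n + 5) / q := by
          intro j
          rw [Ex_mul_left]
          refine (mul_le_mul_of_nonneg_left (moment q n j (D ω)) (by positivity)).trans ?_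
          have h3 : (2 ^ ((j : ℕ) + 3) / (q : ℝ)) ^ 2 * (q * (1 / 2 ^ ((j : ℕ) + 1))) =
              2 ^ ((j : ℕ) + 5) / q := by
            field_simp
            ring
          rw [h3]
          have h4 : (2 : ℝ) ^ ((j : ℕ) + 5) ≤ 2 ^ (n + 5) :=
            pow_le_pow_right₀ (by norm_num) (by have := j.2; omega)
          gcongr
        refine (sum_le_sum fun j _ => h2 j).trans ?_
        rw [sum_const, card_univ, Fintype.card_fin, nsmul_eq_mul]
        rw [mul_div_assoc]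
      refine (sum_le_sum fun ω _ => h1 ω).trans ?_
      rw [sum_const, card_univ, Fintype.card_prod, Fintype.card_fin, ZMod.card, nsmul_eq_mul]
      apply le_of_eq
      push_cast
      field_simp
    refine le_trans ?_ (ha.trans hE)
    rw [card_filter, Nat.cast_sum]
    refine sum_le_sum fun ω _ => ?_
    split_ifs with h
    · obtain ⟨hD, j, hj, hlt⟩ := h
      have h1 : (1 : ℝ) ≤ (2 ^ (j + 3) / (q : ℝ)) ^ 2 *
          (((D ω ∩ La a j).card : ℝ) - (1 / 2 ^ (j + 1)) * (D ω).card) ^ 2 := by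
        rw [← mul_pow]
        have hD' : (q : ℝ) ≤ 2 * (D ω).card := by exact_mod_cast hD
        have h2 : (q : ℝ) / 2 ^ (j + 3) ≤ (1 / 2 ^ (j + 1)) * (D ω).card - ((D ω ∩ La a j).card : ℝ) := by
          have h3 : (q : ℝ) / 2 ^ (j + 2) ≤ (1 / 2 ^ (j + 1)) * (D ω).card := by
            rw [div_le_iff₀ (by positivity)]
            have : (1 / 2 ^ (j + 1)) * ((D ω).card : ℝ) * 2 ^ (j + 2) = 2 * (D ω).card := by
              field_simp
              ring
            rw [this]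
            exact hD'
          have h4 : (q : ℝ) / 2 ^ (j + 2) = 2 * (q / 2 ^ (j + 3)) := by
            field_simp
            ring
          linarith
        have h5 : 1 ≤ (2 ^ (j + 3) / (q : ℝ)) * ((1 / 2 ^ (j + 1)) * (D ω).card -
            ((D ω ∩ La a j).card : ℝ)) := by
          have h6 : (2 ^ (j + 3) / (q : ℝ)) * (q / 2 ^ (j + 3)) = 1 := by
            field_simp
          calc (1 : ℝ) = (2 ^ (j + 3) / (q : ℝ)) * (q / 2 ^ (j + 3)) := h6.symm
            _ ≤ _ := mul_le_mul_of_nonneg_left h2 (by positivity)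
        nlinarith
      rw [Nat.cast_one]
      refine h1.trans ?_
      exact single_le_sum (f := fun j : Fin n => (2 ^ ((j : ℕ) + 3) / (q : ℝ)) ^ 2 *
        (((D ω ∩ La a j).card : ℝ) - (1 / 2 ^ ((j : ℕ) + 1)) * (D ω).card) ^ 2)
        (fun j _ => by positivity) (mem_univ (⟨j, hj⟩ : Fin n))
    · rw [Nat.cast_zero]
      exact sum_nonneg fun j _ => by positivity

end Pool.Agent.H24.TC
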