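import Pool.Agent.H24.TC.ItDefs

/-!
# Module XSeq: the uncovered proportion tends to zero

`dd j = 1/2` for `j < 80` and `1/2^(j-80+3)` for `j ≥ 80`; `x j = xs dd j > 0`, decreasing.
(1) `x 80 ≤ 1/64`: for `j < 80` with `x j ≥ 1/64`, `exp(-y) ≤ 1/(1+y)`, `y = 1/(16 x)`, gives `x (j+1) ≤ x / (1 + 1/(16x)) = x - x/(16x+1) ≤ x - 1/80`
(`t/(16t+1)` is increasing, at `t = 1/64` it is `1/80`). By induction `x j ≤ max (1/64) (1 - j/80)`.
(2) Let `ρ j = dd j / (8 x j)`. `ρ 80 = 1/(64 x 80) ≥ 1`. For `j ≥ 80`: `dd (j+1) = dd j / 2`, `x (j+1) = x j exp(-ρ j)`, so `ρ (j+1) = ρ j exp(ρ j) / 2 ≥ (5/4) ρ j` if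
`ρ j ≥ 1` (`exp 1 ≥ 2.7`). So `ρ (80+n) ≥ (5/4)^n → ∞` and `exp(-ρ J) → 0`.
-/

set_option autoImplicit false

namespace Pool.Agent.H24.TC

/-- the densities of the phases -/
noncomputable def dd (j : ℕ) : ℝ := if j < 80 then 1 / 2 else 1 / 2 ^ (j - 80 + 3)

theorem dd_pos (j : ℕ) : 0 < dd j ∧ dd j ≤ 1 := by
  unfold dd
  split_ifs
  · norm_num
  · refine ⟨by positivity, ?_⟩
    rw [div_le_one (by positivity)]
    exact one_le_pow₀ (by norm_num)

private theorem xs_pos (d : ℕ → ℝ) (j : ℕ) : 0 < xs d j := by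
  induction j with
  | zero => exact one_pos
  | succ j ih => exact mul_pos ih (Real.exp_pos _)

private theorem xs_succ (d : ℕ → ℝ) (j : ℕ) :
    xs d (j + 1) = xs d j * Real.exp (-(d j / (8 * xs d j))) := rfl

private theorem xseq_one (j : ℕ) (hj : j ≤ 80) : xs dd j ≤ max (1 / 64) (1 - (j : ℝ) / 80) := by
  induction j with
  | zero =>
    have h : xs dd 0 = 1 := rfl
    rw [h]
    refine le_max_of_le_right ?_
    norm_num
  | succ j ih =>
    have hj' : j < 80 := by omega
    have h1 := ih hj'.le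
    have hx := xs_pos dd j
    have hd : dd j = 1 / 2 := if_pos hj'
    obtain ⟨x, hxe⟩ : ∃ x, x = xs dd j := ⟨_, rfl⟩
    rw [xs_succ, hd, ← hxe]
    rw [← hxe] at h1 hx
    have hy0 : 0 < 1 / 2 / (8 * x) := by positivity
    have hexp : Real.exp (-(1 / 2 / (8 * x))) ≤ 1 / (1 + 1 / 2 / (8 * x)) := by
      rw [Real.exp_neg, ← one_div]
      refine one_div_le_one_div_of_le (by positivity) ?_
      have := Real.add_one_le_exp (1 / 2 / (8 * x))
      linarith
    rcases lt_or_ge x (1 / 64) with h | h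
    · refine le_max_of_le_left ?_
      have h2 : Real.exp (-(1 / 2 / (8 * x))) ≤ 1 := Real.exp_le_one_iff.2 (by linarith)
      nlinarith
    · have h2 : x * Real.exp (-(1 / 2 / (8 * x))) ≤ x - 1 / 80 := by
        refine (mul_le_mul_of_nonneg_left hexp hx.le).trans ?_
        have h3 : x * (1 / (1 + 1 / 2 / (8 * x))) = 16 * x ^ 2 / (16 * x + 1) := by
          field_simp
          ring
        rw [h3, div_le_iff₀ (by positivity)]
        nlinarith
      refine h2.trans ?_
      push_cast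
      rcases le_total (1 / 64) (1 - (j : ℝ) / 80) with h4 | h4
      · rw [max_eq_right h4] at h1
        refine le_max_of_le_right ?_
        linarith
      · rw [max_eq_left h4] at h1
        refine le_max_of_le_left ?_
        linarith

private theorem xseq_two (n : ℕ) : (5 / 4 : ℝ) ^ n ≤ dd (80 + n) / (8 * xs dd (80 + n)) := by
  have hd : ∀ n, dd (80 + n) = 1 / 2 ^ (n + 3) := by
    intro n
    unfold dd
    rw [if_neg (by omega)]
    congr 2
    omega
  have hr : ∀ n, 1 ≤ dd (80 + n) / (8 * xs dd (80 + n)) →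
      (5 / 4) * (dd (80 + n) / (8 * xs dd (80 + n))) ≤ dd (80 + (n + 1)) / (8 * xs dd (80 + (n + 1))) := by
    intro n h
    have hx := xs_pos dd (80 + n)
    have h1 : xs dd (80 + (n + 1)) = xs dd (80 + n) * Real.exp (-(dd (80 + n) / (8 * xs dd (80 + n)))) := rfl
    have h2 : dd (80 + (n + 1)) = dd (80 + n) / 2 := by
      rw [hd, hd]
      rw [show n + 1 + 3 = (n + 3) + 1 by ring, pow_succ]
      field_simp
    obtain ⟨r, hre⟩ : ∃ r, r = dd (80 + n) / (8 * xs dd (80 + n)) := ⟨_, rfl⟩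
    rw [h1, h2, ← hre]
    rw [← hre] at h
    have h3 : dd (80 + n) / 2 / (8 * (xs dd (80 + n) * Real.exp (-r))) = r * (Real.exp r / 2) := by
      rw [Real.exp_neg, hre]
      have := Real.exp_pos (dd (80 + n) / (8 * xs dd (80 + n)))
      field_simp
    rw [h3]
    have h4 : Real.exp 1 ≤ Real.exp r := Real.exp_le_exp.2 h
    have h5 := Real.exp_one_gt_d9
    nlinarith
  have hmain : ∀ n : ℕ, (5 / 4 : ℝ) ^ n ≤ dd (80 + n) / (8 * xs dd (80 + n)) := by
    intro n
    induction n with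
    | zero =>
      have h1 := xseq_one 80 le_rfl
      have h2 := xs_pos dd 80
      have h3 : xs dd 80 ≤ 1 / 64 := by
        refine h1.trans (max_le le_rfl ?_)
        norm_num
      have h4 := hd 0
      rw [add_zero] at h4 ⊢
      rw [h4, pow_zero, le_div_iff₀ (by positivity)]
      norm_num
      linarith
    | succ n ih =>
      have h1 : (1 : ℝ) ≤ (5 / 4) ^ n := one_le_pow₀ (by norm_num)
      have h2 := hr n (h1.trans ih)
      rw [pow_succ]
      linarith
  exact hmain n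

theorem xseq {η : ℝ} (hη : 0 < η) : ∃ J : ℕ, 80 ≤ J ∧ Real.exp (-(dd J / (8 * xs dd J))) ≤ η := by
  obtain ⟨n, hn⟩ := pow_unbounded_of_one_lt (-Real.log η) (by norm_num : (1 : ℝ) < 5 / 4)
  refine ⟨80 + n, by omega, ?_⟩
  have h1 := xseq_two n
  rw [← Real.exp_log hη]
  refine Real.exp_le_exp.2 ?_
  linarith

end Pool.Agent.H24.TC
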