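import Pool.Agent.H24.TC.Iter
import Pool.Agent.H24.TC.Part
import Pool.Agent.H24.TC.XSeq
import Pool.Agent.H24.TC.Defs

/-!
# Module Base: the basic set system

WLOG `η ≤ 1`. `J` from `xseq` for `η/4`; `m ≥ 1` with `81/m ≤ η/4`; `n = J - 80 + 1`; `q₀, B` from `iter` (`d = dd`); `q ≥ q₀`, `q ≥ m`, and
`m n 2^(n+5) + B ≤ (η/4) m q`. `Ω = Fin m × ZMod q`, `C = Fin 81 × ZMod q`, `A = ZMod q`, `val (f, i) ω = L q m i ω`; `|C| = 81 q`.
Let `T` be a set of at most `q²/8` forbidden pairs, `T_f i = {z | ((f, i), z) ∈ T}`; `8 ∑ i |T_f i| ≤ q²` for every `f`. Hard points of class `f`: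
`q < 2 |{i | L i ω ∈ T_f i}|`; at most `q` of them (`Pool.Agent.H42.TreeCover.hard_le`). The other points have `q ≤ 2 |Dd (T_f) univ ω|`. `Λ'` from `part` for `D = Dd (T_80) univ`.
`H` = hard points of the 81 classes and the exceptional points of `part`: `|H| ≤ 81 q + m n 2^(n+5)`. Phases: `T j = T_j`, `Λ j = univ` for `j < 80`; `T j = T_80`,
`Λ j = Λ' (j - 80)` for `j ≥ 80`. Hypothesis of `iter`: `j < 80`: `|Dd| ≥ q/2`; `80 ≤ j ≤ J`: `Dd (T_80) (Λ' (j-80)) ω = Dd (T_80) univ ω ∩ Λ' (j-80)`, at least `q/2^(j-80+3)`.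
Selection: `v (f, i) = a f i` for `f < 80`, `v (80, i) = a (80 + j) i` if `i ∈ Λ' j` for a (unique, by disjointness) `j ≤ J - 80`, `none` otherwise; and values in `T` are replaced by
`none`. If `ω` is not covered by `v` then for `j ≤ J`, `a j i = some (L i ω)` implies `L i ω ∈ T j i` (for `j ≥ 80` use `i ∈ Λ j`). So the number of uncovered
points is at most `81 q + m n 2^(n+5) + B + m q (η/4) ≤ η m q`.
-/

set_option autoImplicit false

namespace Pool.Agent.H24.TC

open Finset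
open Pool.Agent.H42.TreeCover (L S)

private theorem dd_card {q m : ℕ} [NeZero q] (T : ZMod q → Finset (ZMod q)) (ω : Fin m × ZMod q)
    (h : ¬ q < 2 * (univ.filter fun i : ZMod q => L q m i ω ∈ T i).card) :
    q ≤ 2 * (Dd T univ ω).card := by
  have h1 := Finset.card_filter_add_card_filter_not (s := (univ : Finset (ZMod q)))
    (fun i : ZMod q => L q m i ω ∈ T i)
  rw [card_univ, ZMod.card] at h1
  unfold Dd
  omega

theorem base {η : ℝ} (hη : 0 < η) : ∃ q₀ : ℕ, ∀ q : ℕ, q₀ ≤ q → q.Prime →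
    Sys (81 * q) (q ^ 2 / 8) η := by
  classical
  obtain ⟨J, hJ80, hJ⟩ := xseq (η := η / 4) (by positivity)
  obtain ⟨m, hm1, hmη⟩ : ∃ m : ℕ, 1 ≤ m ∧ 81 ≤ η / 4 * m := by
    refine ⟨⌈324 / η⌉₊ + 1, by omega, ?_⟩
    have h1 : 324 / η ≤ (⌈324 / η⌉₊ : ℝ) := Nat.le_ceil _
    rw [div_le_iff₀ hη] at h1
    push_cast
    nlinarith
  let n : ℕ := J - 80 + 1
  obtain ⟨q0, B, hB0, hit⟩ := iter hm1 J dd dd_pos
  have hm0 : (0 : ℝ) < m := by exact_mod_cast hm1
  refine ⟨max q0 (max m ⌈((m : ℝ) * n * 2 ^ (n + 5) + B) / (η / 4 * m)⌉₊), fun q hq hp => ?_⟩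
  have hq0 : q0 ≤ q := (le_max_left _ _).trans hq
  have hqm : m ≤ q := ((le_max_left _ _).trans (le_max_right _ _)).trans hq
  have hqB : (m : ℝ) * n * 2 ^ (n + 5) + B ≤ η / 4 * m * q := by
    have h1 : ⌈((m : ℝ) * n * 2 ^ (n + 5) + B) / (η / 4 * m)⌉₊ ≤ q :=
      ((le_max_right _ _).trans (le_max_right _ _)).trans hq
    have h2 : ((m : ℝ) * n * 2 ^ (n + 5) + B) / (η / 4 * m) ≤ q := (Nat.le_ceil _).trans (by exact_mod_cast h1)
    rw [div_le_iff₀ (by positivity)] at h2
    linarith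
  have : Fact q.Prime := ⟨hp⟩
  have : NeZero m := ⟨by omega⟩
  refine ⟨Fin m × ZMod q, Fin 81 × ZMod q, ZMod q, inferInstance, inferInstance, inferInstance, inferInstance,
    fun c ω => L q m c.2 ω, ?_, fun T hT => ?_⟩
  · rw [Fintype.card_prod, Fintype.card_fin, ZMod.card]
  let Tf : Fin 81 → ZMod q → Finset (ZMod q) := fun f i => univ.filter fun z => ((f, i), z) ∈ T
  have hTf : ∀ f i z, z ∈ Tf f i ↔ ((f, i), z) ∈ T := by
    intro f i z
    simp only [Tf, mem_filter, mem_univ, true_and]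
  have hTc : ∀ f, 8 * ∑ i, (Tf f i).card ≤ q ^ 2 := by
    intro f
    have h1 : ∑ i, (Tf f i).card = (univ.sigma (Tf f)).card := (card_sigma _ _).symm
    have h2 : (univ.sigma (Tf f)).card ≤ T.card := by
      refine card_le_card_of_injOn (fun x => ((f, x.1), x.2)) ?_ ?_
      · intro x hx
        have hx' : x ∈ univ.sigma (Tf f) := hx
        rw [mem_sigma] at hx'
        exact (hTf f x.1 x.2).1 hx'.2
      · rintro ⟨x1, x2⟩ _ ⟨y1, y2⟩ _ hxy
        simp only [Prod.mk.injEq, true_and] at hxy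
        rw [hxy.1, hxy.2]
    have h3 : 8 * (q ^ 2 / 8) ≤ q ^ 2 := Nat.mul_div_le _ _
    omega
  let Hard : Fin 81 → Finset (Fin m × ZMod q) := fun f => univ.filter fun ω : Fin m × ZMod q =>
    q < 2 * (univ.filter fun i : ZMod q => L q m i ω ∈ Tf f i).card
  have hHard : ∀ f, (Hard f).card ≤ q := fun f => Pool.Agent.H42.TreeCover.hard_le hqm (Tf f) (hTc f)
  obtain ⟨Λ', hdisj, hpart⟩ := part m n hp.pos (Dd (Tf 80) univ)
  obtain ⟨Exc, hExc, hExcc⟩ : ∃ E : Finset (Fin m × ZMod q), (∀ ω, ω ∈ E ↔ (q ≤ 2 * (Dd (Tf 80) univ ω).card ∧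
      ∃ j < n, ((Dd (Tf 80) univ ω ∩ Λ' j).card : ℝ) < q / 2 ^ (j + 3))) ∧ (E.card : ℝ) ≤ m * n * 2 ^ (n + 5) := by
    refine ⟨_, fun ω => ?_, hpart⟩
    rw [mem_filter]
    exact ⟨fun h => h.2, fun h => ⟨mem_univ _, h⟩⟩
  let H : Finset (Fin m × ZMod q) := univ.biUnion Hard ∪ Exc
  have hHc : (H.card : ℝ) ≤ 81 * q + m * n * 2 ^ (n + 5) := by
    have h1 : H.card ≤ (univ.biUnion Hard).card + Exc.card := card_union_le _ _
    have h2 : (univ.biUnion Hard).card ≤ ∑ f : Fin 81, q := card_biUnion_le.trans (sum_le_sum fun f _ => hHard f)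
    rw [sum_const, card_univ, Fintype.card_fin, smul_eq_mul] at h2
    have h3 : (H.card : ℝ) ≤ 81 * q + Exc.card := by exact_mod_cast h1.trans (Nat.add_le_add_right h2 _)
    linarith
  let g : ℕ → Fin 81 := fun j => ⟨min j 80, by omega⟩
  have hg80 : ∀ j, 80 ≤ j → g j = 80 := by
    intro j hj
    apply Fin.ext
    change min j 80 = 80
    omega
  let Λ : ℕ → Finset (ZMod q) := fun j => if j < 80 then univ else Λ' (j - 80)
  have hcond : ∀ j ≤ J, ∀ ω ∉ H, dd j * q ≤ ((Dd (Tf (g j)) (Λ j) ω).card : ℝ) := by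
    intro j hj ω hω
    rw [mem_union, not_or] at hω
    have h1 : ∀ f, q ≤ 2 * (Dd (Tf f) univ ω).card := by
      intro f
      refine dd_card (Tf f) ω fun h2 => hω.1 ?_
      rw [mem_biUnion]
      refine ⟨f, mem_univ _, ?_⟩
      change ω ∈ univ.filter _
      rw [mem_filter]
      exact ⟨mem_univ _, h2⟩
    by_cases h80 : j < 80
    · have e1 : Λ j = univ := if_pos h80
      rw [e1]
      unfold dd
      rw [if_pos h80]
      have h2 : (q : ℝ) ≤ 2 * ((Dd (Tf (g j)) univ ω).card : ℝ) := by exact_mod_cast h1 (g j)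
      linarith
    · have e1 : Λ j = Λ' (j - 80) := if_neg h80
      have e2 : Dd (Tf 80) (Λ' (j - 80)) ω = Dd (Tf 80) univ ω ∩ Λ' (j - 80) := by
        ext i
        unfold Dd
        constructor
        · intro h
          have h' := mem_filter.1 h
          exact mem_inter.2 ⟨mem_filter.2 ⟨mem_univ _, h'.2⟩, h'.1⟩
        · intro h
          have h' := mem_inter.1 h
          exact mem_filter.2 ⟨h'.2, (mem_filter.1 h'.1).2⟩
      rw [e1, hg80 j (by omega), e2]
      unfold dd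
      rw [if_neg h80]
      by_contra hcon
      push Not at hcon
      refine hω.2 ((hExc ω).2 ⟨h1 80, j - 80, by omega, ?_⟩)
      have e3 : 1 / 2 ^ (j - 80 + 3) * (q : ℝ) = q / 2 ^ (j - 80 + 3) := by ring
      rwa [e3] at hcon
  obtain ⟨a, ha1, ha2⟩ := hit q hq0 (fun j => Tf (g j)) Λ H hcond
  let u : Fin 81 × ZMod q → Option (ZMod q) := fun c =>
    if (c.1 : ℕ) < 80 then a c.1 c.2 else if h : ∃ j, j ≤ J - 80 ∧ c.2 ∈ Λ' j then a (80 + h.choose) c.2 else none
  have hu1 : ∀ j, j < 80 → ∀ i, u (g j, i) = a j i := by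
    intro j hj i
    have e1 : ((g j : Fin 81) : ℕ) = j := by
      change min j 80 = j
      omega
    change (if ((g j : Fin 81) : ℕ) < 80 then a (g j : Fin 81) i else _) = _
    rw [e1, if_pos hj]
  have hu2 : ∀ j, 80 ≤ j → j ≤ J → ∀ i, i ∈ Λ' (j - 80) → u (g j, i) = a j i := by
    intro j hj hjJ i hi
    have e1 : ((g j : Fin 81) : ℕ) = 80 := by
      change min j 80 = 80
      omega
    have h : ∃ j, j ≤ J - 80 ∧ i ∈ Λ' j := ⟨j - 80, by omega, hi⟩
    have e2 : h.choose = j - 80 := by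
      by_contra hne
      exact (Finset.disjoint_left.1 (hdisj _ _ hne)) h.choose_spec.2 hi
    change (if ((g j : Fin 81) : ℕ) < 80 then a (g j : Fin 81) i else
      if h : ∃ j, j ≤ J - 80 ∧ i ∈ Λ' j then a (80 + h.choose) i else none) = _
    rw [e1, if_neg (lt_irrefl _), dif_pos h, e2]
    congr 1
    omega
  refine ⟨fun c => (u c).filter fun z => decide ((c, z) ∉ T), ?_, ?_⟩
  · intro c z hc
    have h1 := (Option.filter_eq_some_iff.1 hc).2
    simpa using h1
  · have hsub : (univ.filter fun ω : Fin m × ZMod q => ∀ c : Fin 81 × ZMod q,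
        (u c).filter (fun z => decide ((c, z) ∉ T)) ≠ some (L q m c.2 ω)) ⊆
        univ.filter fun ω : Fin m × ZMod q => ∀ j ≤ J, ∀ i, a j i = some (L q m i ω) →
          L q m i ω ∈ Tf (g j) i := by
      intro ω hω
      rw [mem_filter] at hω ⊢
      refine ⟨mem_univ _, fun j hj i hi => ?_⟩
      have h1 : u (g j, i) = some (L q m i ω) := by
        by_cases h80 : j < 80
        · rw [hu1 j h80, hi]
        · have h2 := ha1 j i _ hi
          have e1 : Λ j = Λ' (j - 80) := if_neg h80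
          rw [e1] at h2
          rw [hu2 j (by omega) hj i h2, hi]
      have h2 := hω.2 (g j, i)
      rw [h1] at h2
      rw [hTf]
      by_contra h3
      apply h2
      rw [Option.filter_some, if_pos (by simpa using h3)]
    have h1 : ((univ.filter fun ω : Fin m × ZMod q => ∀ c : Fin 81 × ZMod q,
        (u c).filter (fun z => decide ((c, z) ∉ T)) ≠ some (L q m c.2 ω)).card : ℝ) ≤
        ((univ.filter fun ω : Fin m × ZMod q => ∀ j ≤ J, ∀ i, a j i = some (L q m i ω) →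
          L q m i ω ∈ Tf (g j) i).card : ℝ) := by exact_mod_cast card_le_card hsub
    have hq0' : (0 : ℝ) < q := by exact_mod_cast hp.pos
    have h2 : (m : ℝ) * q * Real.exp (-(dd J / (8 * xs dd J))) ≤ m * q * (η / 4) :=
      mul_le_mul_of_nonneg_left hJ (by positivity)
    have h3 : (81 : ℝ) * q ≤ η / 4 * m * q := mul_le_mul_of_nonneg_right hmη hq0'.le
    rw [Fintype.card_prod, Fintype.card_fin, ZMod.card]
    push_cast
    have h4 : (0 : ℝ) ≤ η * (m * q) := by positivity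
    refine le_trans ?_ (?_ : η / 4 * m * q + η / 4 * m * q + m * q * (η / 4) ≤ η * (m * q))
    · refine le_trans (le_trans (le_of_eq ?_) (h1.trans (le_trans (le_of_eq ?_) ha2))) ?_
      · congr 1
      · congr 1
      · linarith
    · linarith

end Pool.Agent.H24.TC
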