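import Pool.Agent.H24.TC.Defs

/-!
# Module Blocks: product of set systems

`Ω' = Fin (2a) → Ω`, `C' = Fin (2a) × C`, `val' (j, c) ω = val c (ω j)`. Given `T'` with at most `a t` elements let `T_j = {(c, z) | ((j, c), z) ∈ T'}`; `∑ |T_j| ≤ a t`, so fewer
than `a` blocks have `|T_j| > t`; for the other (more than `a`) blocks take `v_j` from the hypothesis, for the bad blocks `v_j = none`; `v' (j, c) = v_j c`. The set of uncovered points
is the product (`Fintype.piFinset`) of the sets of uncovered points of the blocks, so its size is at most `η^(number of good blocks) |Ω|^(2a) ≤ η^a |Ω|^(2a)`.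
-/

set_option autoImplicit false

namespace Pool.Agent.H24.TC

open Finset

theorem Sys.blocks {k t : ℕ} {η : ℝ} (h : Sys k t η) (h0 : 0 ≤ η) (h1 : η ≤ 1) {a : ℕ}
    (ha : 1 ≤ a) : Sys (2 * a * k) (a * t) (η ^ a) := by
  classical
  obtain ⟨Ω, C, A, hΩ, hne, hC, hA, val, hcard, hprop⟩ := h
  refine ⟨Fin (2 * a) → Ω, Fin (2 * a) × C, A, inferInstance, inferInstance, inferInstance,
    inferInstance, fun p ω => val p.2 (ω p.1), ?_, ?_⟩
  · rw [Fintype.card_prod, Fintype.card_fin, hcard]
  intro T' hT'
  set T : Fin (2 * a) → Finset (C × A) := fun j => univ.filter fun q => ((j, q.1), q.2) ∈ T'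
    with hTdef
  have hsum : ∑ j, (T j).card ≤ T'.card := by
    have h2 : ∀ j, (T j).card = (T'.filter fun p => p.1.1 = j).card := by
      intro j
      apply Finset.card_bij (fun q _ => ((j, q.1), q.2))
      · intro q hq
        rw [hTdef, Finset.mem_filter] at hq
        rw [Finset.mem_filter]
        exact ⟨hq.2, rfl⟩
      · intro q _ q' _ hqq
        simp only [Prod.mk.injEq, true_and] at hqq
        exact Prod.ext hqq.1 hqq.2
      · intro p hp
        rw [Finset.mem_filter] at hp
        obtain ⟨hp1, hp2⟩ := hp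
        refine ⟨(p.1.2, p.2), ?_, ?_⟩
        · rw [hTdef, Finset.mem_filter]
          refine ⟨Finset.mem_univ _, ?_⟩
          show ((j, p.1.2), p.2) ∈ T'
          rw [← hp2]
          exact hp1
        · show ((j, p.1.2), p.2) = p
          rw [← hp2]
    rw [Finset.sum_congr rfl fun j _ => h2 j]
    rw [Finset.card_eq_sum_card_fiberwise (f := fun p : (Fin (2 * a) × C) × A => p.1.1)
      (t := univ) (fun p _ => Finset.mem_coe.mpr (Finset.mem_univ _))]
  have hgood : a ≤ (univ.filter fun j => (T j).card ≤ t).card := by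
    by_contra hcon
    push Not at hcon
    have h2 := Finset.card_filter_add_card_filter_not (s := (univ : Finset (Fin (2 * a))))
      (fun j => (T j).card ≤ t)
    rw [Finset.card_univ, Fintype.card_fin] at h2
    have h3 : (univ.filter fun j => ¬ (T j).card ≤ t).card * (t + 1) ≤ ∑ j, (T j).card := by
      calc (univ.filter fun j => ¬ (T j).card ≤ t).card * (t + 1)
          = ∑ _j ∈ univ.filter (fun j => ¬ (T j).card ≤ t), (t + 1) := by
            rw [Finset.sum_const, smul_eq_mul]
        _ ≤ ∑ j ∈ univ.filter (fun j => ¬ (T j).card ≤ t), (T j).card := by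
            apply Finset.sum_le_sum
            intro j hj
            rw [Finset.mem_filter] at hj
            have := hj.2
            omega
        _ ≤ ∑ j, (T j).card := Finset.sum_le_sum_of_subset (Finset.filter_subset _ _)
    have h4 : a + 1 ≤ (univ.filter fun j => ¬ (T j).card ≤ t).card := by omega
    have h5 : (a + 1) * (t + 1) ≤ a * t := by
      calc (a + 1) * (t + 1) ≤ (univ.filter fun j => ¬ (T j).card ≤ t).card * (t + 1) :=
            Nat.mul_le_mul_right _ h4
        _ ≤ _ := h3.trans (hsum.trans hT')
    nlinarith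
  have hex : ∀ j, ∃ v : C → Option A, (∀ c z, v c = some z → (c, z) ∉ T j) ∧
      ((univ.filter fun ω : Ω => ∀ c, v c ≠ some (val c ω)).card : ℝ) ≤
        (if (T j).card ≤ t then η else 1) * (Fintype.card Ω : ℝ) := by
    intro j
    by_cases hj : (T j).card ≤ t
    · rw [if_pos hj]
      exact hprop (T j) hj
    · rw [if_neg hj]
      refine ⟨fun _ => none, fun c z hz => (Option.some_ne_none z hz.symm).elim, ?_⟩
      rw [one_mul]
      exact_mod_cast Finset.card_le_univ _
  choose v hv1 hv2 using hex
  refine ⟨fun p => v p.1 p.2, ?_, ?_⟩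
  · rintro ⟨j, c⟩ z hz hmem
    apply hv1 j c z hz
    rw [hTdef, Finset.mem_filter]
    exact ⟨Finset.mem_univ _, hmem⟩
  · have heq : (univ.filter fun ω : Fin (2 * a) → Ω =>
        ∀ c : Fin (2 * a) × C, v c.1 c.2 ≠ some (val c.2 (ω c.1))) =
        Fintype.piFinset fun j => univ.filter fun ω : Ω => ∀ c, v j c ≠ some (val c ω) := by
      ext ω
      rw [Finset.mem_filter, Fintype.mem_piFinset]
      constructor
      · intro hω j
        rw [Finset.mem_filter]
        exact ⟨Finset.mem_univ _, fun c => hω.2 (j, c)⟩
      · intro hω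
        refine ⟨Finset.mem_univ _, fun c => ?_⟩
        have := hω c.1
        rw [Finset.mem_filter] at this
        exact this.2 c.2
    rw [heq, Fintype.card_piFinset]
    push_cast
    rw [Fintype.card_fun, Fintype.card_fin]
    calc ∏ j, ((univ.filter fun ω : Ω => ∀ c, v j c ≠ some (val c ω)).card : ℝ)
        ≤ ∏ j, ((if (T j).card ≤ t then η else 1) * (Fintype.card Ω : ℝ)) :=
          Finset.prod_le_prod (fun _ _ => by positivity) fun j _ => hv2 j
      _ = η ^ (univ.filter fun j => (T j).card ≤ t).card * (Fintype.card Ω : ℝ) ^ (2 * a) := by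
          rw [Finset.prod_mul_distrib, Finset.prod_ite, Finset.prod_const, Finset.prod_const_one,
            mul_one, Finset.prod_const, Finset.card_univ, Fintype.card_fin]
      _ ≤ η ^ a * (Fintype.card Ω : ℝ) ^ (2 * a) := by
          apply mul_le_mul_of_nonneg_right _ (by positivity)
          exact pow_le_pow_of_le_one h0 h1 hgood
      _ = _ := by push_cast; rfl

end Pool.Agent.H24.TC
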