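import Pool.Agent.H24.TC.Num
import Pool.Agent.H24.TC.Base

/-!
# Module Fin: the main theorem
-/

set_option autoImplicit false

namespace Pool.Agent.H24.TC

theorem lower : ∃ c : ℝ, 0 < c ∧ ∀ M : ℝ, ∃ C : ℝ, ∀ (r : ℕ) (δ : ℝ), 0 < δ →
    1 ≤ Real.log (1 / δ) → C * Real.log (1 / δ) ≤ r →
    ENNReal.ofReal (c * r * (r / Real.log (1 / δ)) * min (Real.log (1 / δ)) M) ≤ tcr r δ := by
  refine ⟨1 / (2048 * (81 : ℕ) ^ 2), by norm_num, fun M => ?_⟩
  obtain ⟨q₀, hq₀⟩ := base (Real.exp_pos (-(max M 1)))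
  obtain ⟨C, hC⟩ := num (F := 81) (by norm_num) (le_max_right M 1) hq₀
  refine ⟨C, fun r δ h1 h2 h3 => le_trans (ENNReal.ofReal_le_ofReal ?_) (hC r δ h1 h2 h3)⟩
  apply mul_le_mul_of_nonneg_left (min_le_min_left _ (le_max_left M 1))
  have : 0 < Real.log (1 / δ) := by linarith
  positivity

theorem fails : ∀ K : ℝ, 0 < K → ∃ C : ℝ, 1 ≤ C ∧ ∀ (r : ℕ) (δ : ℝ), 0 < δ →
    C ≤ Real.log (1 / δ) → C * Real.log (1 / δ) ≤ r →
    ENNReal.ofReal (K * r * ⌈(r : ℝ) / Real.log (1 / δ)⌉₊) < tcr r δ := by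
  intro K hK
  obtain ⟨c, hc, h⟩ := lower
  obtain ⟨C, hC⟩ := h (2 * K / c + 1)
  refine ⟨max (max C 1) (2 * K / c + 1), (le_max_right _ _).trans (le_max_left _ _), ?_⟩
  intro r δ h1 h2 h3
  set l := Real.log (1 / δ) with hl
  have hl1 : 1 ≤ l := ((le_max_right C 1).trans (le_max_left _ _)).trans h2
  have hlM : 2 * K / c + 1 ≤ l := (le_max_right _ _).trans h2
  have hCl : C * l ≤ r := le_trans (mul_le_mul_of_nonneg_right
    ((le_max_left C 1).trans (le_max_left _ _)) (by linarith)) h3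
  have hX : 1 ≤ max (max C 1) (2 * K / c + 1) := (le_max_right C 1).trans (le_max_left _ _)
  have hrl : l ≤ r := by
    have : l ≤ max (max C 1) (2 * K / c + 1) * l := by nlinarith
    linarith
  refine lt_of_lt_of_le ?_ (hC r δ h1 hl1 hCl)
  have hrpos : (0 : ℝ) < r := by linarith
  rw [min_eq_right hlM]
  have hlpos : 0 < l := by linarith
  have hMpos : 0 < 2 * K / c + 1 := by positivity
  apply (ENNReal.ofReal_lt_ofReal_iff (by positivity)).2
  have hceil : (⌈(r : ℝ) / l⌉₊ : ℝ) ≤ 2 * (r / l) := by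
    have h4 := Nat.ceil_lt_add_one (R := ℝ) (a := (r : ℝ) / l) (by positivity)
    have h5 : 1 ≤ (r : ℝ) / l := by rw [le_div_iff₀ (by linarith)]; linarith
    linarith
  have h6 : 0 < (r : ℝ) / l := by
    have : 0 < l := by linarith
    positivity
  calc K * r * (⌈(r : ℝ) / l⌉₊ : ℝ) ≤ K * r * (2 * (r / l)) := by
        apply mul_le_mul_of_nonneg_left hceil (by positivity)
    _ < c * r * (r / l) * (2 * K / c + 1) := by
        have h7 : c * r * (r / l) * (2 * K / c + 1) = K * r * (2 * (r / l)) + c * r * (r / l) := by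
          field_simp
        rw [h7]
        have : 0 < c * r * (r / l) := by positivity
        linarith

end Pool.Agent.H24.TC
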