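import Pool.Agent.H24.TC.Bas

/-!
# Module Rate: a point with many allowed lines is covered with high probability

`nx ω = p ω ∏ (1 - pt i ω) ≤ p ω exp(-∑ i, pt i ω)` (`Real.one_sub_le_exp_neg`, factors `≥ 0`). The sum is at least the sum over `i ∈ Dd T Λ ω` with `W U p i ≤ 2q` of
`w U p i (L i ω) / (2q)`, which is at least `(Z U p (Dd T Λ ω) ω - e K) / (2q)`, `e` = number of slopes with `2q < W`, `K = KK m κ` (`w_le`).
-/

set_option autoImplicit false

namespace Pool.Agent.H24.TC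

open Finset
open Pool.Agent.H42.TreeCover (L S)

variable {q m : ℕ} [NeZero q]

open Classical in
theorem rate (T : ZMod q → Finset (ZMod q)) (Λ : Finset (ZMod q))
    (U : Finset (Fin m × ZMod q)) {p : Fin m × ZMod q → ℝ} {κ : ℝ} (hκ : 0 < κ) (hκ1 : κ ≤ 1)
    (hp : ∀ ω, κ ≤ p ω) (ω : Fin m × ZMod q) :
    nx T Λ U p ω ≤ p ω * Real.exp (-((Z U p (Dd T Λ ω) ω -
      ((univ.filter fun i : ZMod q => 2 * (q : ℝ) < W U p i).card : ℝ) * KK m κ) / (2 * q))) := by
  have hpos : ∀ ω, 0 < p ω := fun ω => hκ.trans_le (hp ω)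
  have hq : (0 : ℝ) < 2 * q := by
    have : 0 < q := Nat.pos_of_ne_zero (NeZero.ne q)
    positivity
  have hK0 : 0 ≤ KK m κ := zero_le_one.trans (one_le_KK hκ hκ1 m)
  have h1 : ∑ i ∈ Dd T Λ ω, (w U p i (L q m i ω) -
      (if 2 * (q : ℝ) < W U p i then KK m κ else 0)) / (2 * q) ≤ ∑ i, pt T Λ U p i ω := by
    refine (Finset.sum_le_sum fun i hi => ?_).trans
      (Finset.sum_le_univ_sum_of_nonneg fun i => pt_nonneg T Λ U hpos i ω)
    rw [Dd, Finset.mem_filter] at hi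
    unfold pt pr
    rw [if_neg hi.2]
    by_cases h : W U p i ≤ 2 * q
    · rw [if_neg (not_lt.2 h), sub_zero, if_pos ⟨hi.1, h⟩]
    · rw [if_pos (not_le.1 h), if_neg (fun h' => h h'.2)]
      exact div_nonpos_of_nonpos_of_nonneg
        (sub_nonpos.2 (w_le U hκ hκ1 hp i _)) hq.le
  have h2 : ∑ i ∈ Dd T Λ ω, (if 2 * (q : ℝ) < W U p i then KK m κ else 0) ≤
      ((univ.filter fun i : ZMod q => 2 * (q : ℝ) < W U p i).card : ℝ) * KK m κ := by
    refine (Finset.sum_le_univ_sum_of_nonneg fun i => ?_).trans (le_of_eq ?_)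
    · split_ifs
      · exact hK0
      · exact le_rfl
    · rw [← Finset.sum_filter, Finset.sum_const, nsmul_eq_mul]
  have h3 : (Z U p (Dd T Λ ω) ω -
      ((univ.filter fun i : ZMod q => 2 * (q : ℝ) < W U p i).card : ℝ) * KK m κ) / (2 * q) ≤
      ∑ i, pt T Λ U p i ω := by
    refine le_trans ?_ h1
    rw [← Finset.sum_div, Finset.sum_sub_distrib]
    refine div_le_div_of_nonneg_right ?_ hq.le
    unfold Z
    linarith
  have h4 : ∏ i, (1 - pt T Λ U p i ω) ≤ Real.exp (-∑ i, pt T Λ U p i ω) := by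
    rw [← Finset.sum_neg_distrib, Real.exp_sum]
    refine Finset.prod_le_prod (fun i _ => sub_nonneg.2 (pt_le_one T Λ U hpos i ω)) fun i _ => ?_
    exact Real.one_sub_le_exp_neg _
  unfold nx
  refine mul_le_mul_of_nonneg_left (h4.trans (Real.exp_le_exp.2 (neg_le_neg h3))) (hpos ω).le

end Pool.Agent.H24.TC
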