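import Pool.Agent.H24.TC.Surv

/-!
# Module MomZ: second moment of the total weight of the lines through a point

Notation as in `MomW`; `Z' = Z U' p' D ω = ∑ i ∈ D, w U' p' i (L i ω)`, `Z = Z U p D ω ≤ q K`, `ρ = p ω / p' ω`, `1 ≤ ρ ≤ 1/κ' ≤ K'` (here `p ω ≤ 1` and `1 ≤ m` are used). If `w U' p' i (L i ω) ≠ 0` then
`ω ∈ U'` (the line contains `ω`, `mem_S`). `E Z' ≥ Z - C₁ K'` (`surv` for one line). For `i ≠ i'` the lines `S i`, `S i'` through `ω` meet only in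
`ω` (`point_unique`), so `∏ over the union of p'/p` times `∏_S (p')⁻¹ ∏_S' (p')⁻¹` is `w i w i' ρ`; `E (w' i w' i') ≤ ρ w i w i' + C₁ K'² / q`.
`E Z'² ≤ ρ Z² + q C₁ K'² + q K'²`. The probability of `ω ∈ U'` is exactly `1/ρ` (`surv_one`). Hence
`E (1[ω ∈ U'] (Z' - ρ Z)²) = E Z'² - 2 ρ Z E Z' + ρ² Z² / ρ ≤ ρ Z² + q (C₁ K'² + K'²) - 2 ρ Z (Z - C₁ K') + ρ Z²
= q (C₁ K'² + K'²) + 2 ρ Z C₁ K' ≤ 4 q C₁ K'³ ≤ 20 m³ K'⁵ q`.
-/

set_option autoImplicit false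

namespace Pool.Agent.H24.TC

open Finset
open Pool.Agent.H42.TreeCover (L S)

variable {q m : ℕ} [Fact q.Prime]

private lemma mz_prod_le {p' : Fin m × ZMod q → ℝ} {κ' : ℝ} (hκ' : 0 < κ') (hκ1 : κ' ≤ 1)
    (hp' : ∀ ω, κ' ≤ p' ω) (i z : ZMod q) : ∏ ω ∈ S q m i z, (p' ω)⁻¹ ≤ KK m κ' := by
  have h := w_le (univ : Finset (Fin m × ZMod q)) hκ' hκ1 hp' i z
  unfold w at h
  rwa [if_pos (subset_univ _)] at h

private lemma mz_gen (hm : m ≤ q) (T : ZMod q → Finset (ZMod q)) (Λ : Finset (ZMod q))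
    (U : Finset (Fin m × ZMod q)) {p : Fin m × ZMod q → ℝ} {κ κ' : ℝ} (hκ : 0 < κ) (hκ1 : κ ≤ 1)
    (hp : ∀ ω, κ ≤ p ω) (hκ' : 0 < κ') (hp' : ∀ ω, κ' ≤ nx T Λ U p ω)
    {X : Finset (Fin m × ZMod q)} (hX : X ⊆ U) (hXc : X.card ≤ 2 * m) :
    |Ex (law Λ U p) (fun a => if X ⊆ Un T a U then ∏ ω ∈ X, (nx T Λ U p ω)⁻¹ else 0) -
      ∏ ω ∈ X, (p ω)⁻¹| ≤ (∏ ω ∈ X, (nx T Λ U p ω)⁻¹) * (5 * m ^ 3 * KK m κ ^ 2 / q) := by
  have h := surv hm T Λ U hκ hκ1 hp hX hXc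
  have hP : 0 ≤ ∏ ω ∈ X, (nx T Λ U p ω)⁻¹ :=
    prod_nonneg fun ω _ => inv_nonneg.2 (hκ'.le.trans (hp' ω))
  have e1 : Ex (law Λ U p) (fun a => if X ⊆ Un T a U then ∏ ω ∈ X, (nx T Λ U p ω)⁻¹ else 0) =
      (∏ ω ∈ X, (nx T Λ U p ω)⁻¹) *
        Ex (law Λ U p) (fun a => if X ⊆ Un T a U then (1 : ℝ) else 0) := by
    rw [← Ex_mul_left]
    congr 1
    funext a
    split_ifs <;> simp
  have e2 : ∏ ω ∈ X, (p ω)⁻¹ = (∏ ω ∈ X, (nx T Λ U p ω)⁻¹) * ∏ ω ∈ X, (nx T Λ U p ω / p ω) := by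
    rw [← prod_mul_distrib]
    refine prod_congr rfl fun ω _ => ?_
    have h1 : nx T Λ U p ω ≠ 0 := (hκ'.trans_le (hp' ω)).ne'
    field_simp
  rw [e1, e2, ← mul_sub, abs_mul, abs_of_nonneg hP]
  exact mul_le_mul_of_nonneg_left h hP

private lemma mz_one (hm : m ≤ q) (T : ZMod q → Finset (ZMod q)) (Λ : Finset (ZMod q))
    (U : Finset (Fin m × ZMod q)) {p : Fin m × ZMod q → ℝ} {κ κ' : ℝ} (hκ : 0 < κ) (hκ1 : κ ≤ 1)
    (hp : ∀ ω, κ ≤ p ω) (hκ' : 0 < κ') (hκκ' : κ' ≤ κ) (hp' : ∀ ω, κ' ≤ nx T Λ U p ω)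
    (i z : ZMod q) :
    w U p i z - KK m κ' * (5 * m ^ 3 * KK m κ ^ 2 / q) ≤
      Ex (law Λ U p) (fun a => w (Un T a U) (nx T Λ U p) i z) := by
  have hK0 : 0 ≤ KK m κ := zero_le_one.trans (one_le_KK hκ hκ1 m)
  have hθ : 0 ≤ 5 * (m : ℝ) ^ 3 * KK m κ ^ 2 / q := by positivity
  by_cases hS : S q m i z ⊆ U
  · have h := mz_gen hm T Λ U hκ hκ1 hp hκ' hp' hS ((Pool.Agent.H42.TreeCover.S_card_le i z).trans (by omega))
    have h2 := mul_le_mul_of_nonneg_right (mz_prod_le hκ' (hκκ'.trans hκ1) hp' i z) hθ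
    have h3 := (abs_le.1 (h.trans h2)).1
    have e1 : w U p i z = ∏ ω ∈ S q m i z, (p ω)⁻¹ := if_pos hS
    rw [e1]
    unfold w
    linarith
  · have e1 : w U p i z = 0 := if_neg hS
    have h1 : 0 ≤ Ex (law Λ U p) (fun a => w (Un T a U) (nx T Λ U p) i z) := by
      have hP := law_isP Λ U (p := p) (fun ω => hκ.trans_le (hp ω))
      have h2 := Ex_mono hP (f := fun _ => (0 : ℝ))
        (g := fun a => w (Un T a U) (nx T Λ U p) i z)
        (fun a => w_nonneg _ (fun ω => hκ'.trans_le (hp' ω)) _ _)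
      rwa [Ex_const hP] at h2
    have h3 : 0 ≤ KK m κ' * (5 * (m : ℝ) ^ 3 * KK m κ ^ 2 / q) :=
      mul_nonneg (zero_le_one.trans (one_le_KK hκ' (hκκ'.trans hκ1) m)) hθ
    rw [e1]
    linarith

/-- two lines of different slopes through `ω` -/
private lemma mz_two (hm : m ≤ q) (T : ZMod q → Finset (ZMod q)) (Λ : Finset (ZMod q))
    (U : Finset (Fin m × ZMod q)) {p : Fin m × ZMod q → ℝ} {κ κ' : ℝ} (hκ : 0 < κ) (hκ1 : κ ≤ 1)
    (hp : ∀ ω, κ ≤ p ω) (hκ' : 0 < κ') (hκκ' : κ' ≤ κ) (hp' : ∀ ω, κ' ≤ nx T Λ U p ω)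
    {i i' : ZMod q} (hi : i ≠ i') (ω : Fin m × ZMod q) :
    Ex (law Λ U p) (fun a => w (Un T a U) (nx T Λ U p) i (L q m i ω) *
      w (Un T a U) (nx T Λ U p) i' (L q m i' ω)) ≤
      p ω / nx T Λ U p ω * (w U p i (L q m i ω) * w U p i' (L q m i' ω)) +
        KK m κ' ^ 2 * (5 * m ^ 3 * KK m κ ^ 2 / q) := by
  have hK0 : 0 ≤ KK m κ := zero_le_one.trans (one_le_KK hκ hκ1 m)
  have hK'0 : 0 ≤ KK m κ' := zero_le_one.trans (one_le_KK hκ' (hκκ'.trans hκ1) m)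
  have hθ : 0 ≤ 5 * (m : ℝ) ^ 3 * KK m κ ^ 2 / q := by positivity
  have hpp : ∀ ω, 0 < p ω := fun ω => hκ.trans_le (hp ω)
  have hnn : 0 < nx T Λ U p ω := hκ'.trans_le (hp' ω)
  set A := S q m i (L q m i ω) with hA
  set B := S q m i' (L q m i' ω) with hB
  have hint : A ∩ B = {ω} := by
    ext y
    rw [mem_inter, mem_singleton, hA, hB, Pool.Agent.H42.TreeCover.mem_S,
      Pool.Agent.H42.TreeCover.mem_S]
    constructor
    · rintro ⟨h1, h2⟩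
      exact Pool.Agent.H42.TreeCover.point_unique hm hi h1 h2
    · rintro rfl
      exact ⟨rfl, rfl⟩
  have hpr : ∀ f : Fin m × ZMod q → ℝ, (∏ y ∈ A, f y) * (∏ y ∈ B, f y) =
      (∏ y ∈ A ∪ B, f y) * f ω := by
    intro f
    rw [← prod_union_inter, hint, prod_singleton]
  have e0 : ∀ a, w (Un T a U) (nx T Λ U p) i (L q m i ω) * w (Un T a U) (nx T Λ U p) i' (L q m i' ω) =
      (nx T Λ U p ω)⁻¹ * (if A ∪ B ⊆ Un T a U then ∏ y ∈ A ∪ B, (nx T Λ U p y)⁻¹ else 0) := by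
    intro a
    unfold w
    rw [← hA, ← hB]
    by_cases h1 : A ⊆ Un T a U
    · by_cases h2 : B ⊆ Un T a U
      · rw [if_pos h1, if_pos h2, if_pos (union_subset h1 h2), hpr]
        ring
      · rw [if_neg h2, if_neg (fun h => h2 (subset_union_right.trans h)), mul_zero, mul_zero]
    · rw [if_neg h1, if_neg (fun h => h1 (subset_union_left.trans h)), zero_mul, mul_zero]
  have e1 : (fun a => w (Un T a U) (nx T Λ U p) i (L q m i ω) *
      w (Un T a U) (nx T Λ U p) i' (L q m i' ω)) =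
      fun a => (nx T Λ U p ω)⁻¹ *
        (if A ∪ B ⊆ Un T a U then ∏ y ∈ A ∪ B, (nx T Λ U p y)⁻¹ else 0) := funext e0
  rw [e1, Ex_mul_left]
  by_cases hS : A ∪ B ⊆ U
  · have hc : (A ∪ B).card ≤ 2 * m := by
      refine (card_union_le _ _).trans ?_
      have h1 : A.card ≤ m := Pool.Agent.H42.TreeCover.S_card_le (m := m) i (L q m i ω)
      have h2 : B.card ≤ m := Pool.Agent.H42.TreeCover.S_card_le (m := m) i' (L q m i' ω)
      omega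
    have h := (abs_le.1 (mz_gen hm T Λ U hκ hκ1 hp hκ' hp' hS hc)).2
    have h2 : (nx T Λ U p ω)⁻¹ * ∏ y ∈ A ∪ B, (nx T Λ U p y)⁻¹ ≤ KK m κ' ^ 2 := by
      have h3 := hpr fun y => (nx T Λ U p y)⁻¹
      rw [mul_comm, ← h3, sq]
      exact mul_le_mul (mz_prod_le hκ' (hκκ'.trans hκ1) hp' i _)
        (mz_prod_le hκ' (hκκ'.trans hκ1) hp' i' _)
        (prod_nonneg fun ω _ => inv_nonneg.2 (hκ'.le.trans (hp' ω))) hK'0
    have e2 : w U p i (L q m i ω) * w U p i' (L q m i' ω) =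
        (∏ y ∈ A ∪ B, (p y)⁻¹) * (p ω)⁻¹ := by
      unfold w
      rw [← hA, ← hB, if_pos (subset_union_left.trans hS), if_pos (subset_union_right.trans hS)]
      exact hpr fun y => (p y)⁻¹
    have e3 : p ω / nx T Λ U p ω * (w U p i (L q m i ω) * w U p i' (L q m i' ω)) =
        (nx T Λ U p ω)⁻¹ * ∏ y ∈ A ∪ B, (p y)⁻¹ := by
      rw [e2]
      have := (hpp ω).ne'
      field_simp
    rw [e3]
    have h4 := mul_le_mul_of_nonneg_left h (inv_nonneg.2 hnn.le)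
    have h5 := mul_le_mul_of_nonneg_right h2 hθ
    nlinarith
  · have e2 : (fun a => if A ∪ B ⊆ Un T a U then ∏ y ∈ A ∪ B, (nx T Λ U p y)⁻¹ else 0) =
        fun _ : ZMod q → Option (ZMod q) => (0 : ℝ) := by
      funext a
      exact if_neg fun h => hS (h.trans (Un_sub T a U))
    rw [e2, Ex_const (law_isP Λ U hpp), mul_zero]
    have h1 := mul_nonneg (w_nonneg U hpp i (L q m i ω)) (w_nonneg U hpp i' (L q m i' ω))
    have h2 := mul_nonneg (sq_nonneg (KK m κ')) hθ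
    have h3 := mul_nonneg (div_nonneg (hpp ω).le hnn.le) h1
    linarith

open Classical in
theorem momZ (hm1 : 1 ≤ m) (hm : m ≤ q) (T : ZMod q → Finset (ZMod q)) (Λ : Finset (ZMod q))
    (U : Finset (Fin m × ZMod q)) {p : Fin m × ZMod q → ℝ} {κ κ' : ℝ} (hκ : 0 < κ) (hκ1 : κ ≤ 1)
    (hp : ∀ ω, κ ≤ p ω) (hp1 : ∀ ω, p ω ≤ 1) (hκ' : 0 < κ') (hκκ' : κ' ≤ κ)
    (hp' : ∀ ω, κ' ≤ nx T Λ U p ω) (D : Finset (ZMod q)) {ω : Fin m × ZMod q} (hω : ω ∈ U) :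
    Ex (law Λ U p) (fun a => if ω ∈ Un T a U then
      (Z (Un T a U) (nx T Λ U p) D ω - p ω / nx T Λ U p ω * Z U p D ω) ^ 2 else 0) ≤
      20 * m ^ 3 * KK m κ' ^ 5 * q := by
  have hpp : ∀ ω, 0 < p ω := fun ω => hκ.trans_le (hp ω)
  have hP := law_isP Λ U hpp
  have hκ'1 : κ' ≤ 1 := hκκ'.trans hκ1
  have hK1 : 1 ≤ KK m κ := one_le_KK hκ hκ1 m
  have hK'1 : 1 ≤ KK m κ' := one_le_KK hκ' hκ'1 m
  have hKK : KK m κ ≤ KK m κ' := KK_mono hκ' hκκ' m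
  have hq0 : (0 : ℝ) < q := by
    have : 0 < q := by omega
    exact_mod_cast this
  have hm1' : (1 : ℝ) ≤ m := by exact_mod_cast hm1
  set K : ℝ := KK m κ with hK
  set K' : ℝ := KK m κ' with hK'
  set c : ℝ := 5 * m ^ 3 * K ^ 2 / q with hc
  have hc0 : 0 ≤ c := by positivity
  have hnn : 0 < nx T Λ U p ω := hκ'.trans_le (hp' ω)
  set ρ : ℝ := p ω / nx T Λ U p ω with hρ
  have hρ0 : 0 ≤ ρ := div_nonneg (hpp ω).le hnn.le
  have hρK : ρ ≤ K' := by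
    have h1 : ρ ≤ κ'⁻¹ := by
      rw [hρ, div_le_iff₀ hnn]
      have h2 : 1 ≤ κ'⁻¹ * nx T Λ U p ω := by
        calc (1 : ℝ) = κ'⁻¹ * κ' := (inv_mul_cancel₀ hκ'.ne').symm
          _ ≤ _ := mul_le_mul_of_nonneg_left (hp' ω) (inv_nonneg.2 hκ'.le)
      linarith [hp1 ω]
    have h2 : 1 ≤ κ'⁻¹ := (one_le_inv₀ hκ').2 hκ'1
    exact h1.trans (le_self_pow₀ h2 (by omega))
  set w' : (ZMod q → Option (ZMod q)) → ZMod q → ℝ :=
    fun a i => w (Un T a U) (nx T Λ U p) i (L q m i ω) with hw'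
  have hw'0 : ∀ a i, 0 ≤ w' a i := fun a i => w_nonneg _ (fun ω => hκ'.trans_le (hp' ω)) _ _
  have hw'1 : ∀ a i, w' a i ≤ K' := fun a i => w_le _ hκ' hκ'1 hp' i _
  set u : ZMod q → ℝ := fun i => w U p i (L q m i ω) with hu
  have hun : ∀ i, 0 ≤ u i := fun i => w_nonneg U hpp i _
  have hZu : Z U p D ω = ∑ i ∈ D, u i := rfl
  have hZn : 0 ≤ Z U p D ω := Z_nonneg U hpp D ω
  have hZle : Z U p D ω ≤ q * K := Z_le U hκ hκ1 hp D ω
  set Zz : ℝ := Z U p D ω with hZz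
  -- the expansion
  have hmem : ω ∈ S q m 0 (L q m 0 ω) := by rw [Pool.Agent.H42.TreeCover.mem_S]
  have hzero : ∀ a, ω ∉ Un T a U → ∀ i, w' a i = 0 := by
    intro a ha i
    refine if_neg fun h => ha (h ?_)
    rw [Pool.Agent.H42.TreeCover.mem_S]
  have e1 : (fun a => if ω ∈ Un T a U then
      (Z (Un T a U) (nx T Λ U p) D ω - ρ * Zz) ^ 2 else 0) =
      fun a => (∑ i ∈ D, ∑ i' ∈ D, w' a i * w' a i') - (2 * ρ * Zz) * (∑ i ∈ D, w' a i) +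
        (ρ * Zz) ^ 2 * (if ω ∈ Un T a U then (1 : ℝ) else 0) := by
    funext a
    have h1 : Z (Un T a U) (nx T Λ U p) D ω = ∑ i ∈ D, w' a i := rfl
    by_cases ha : ω ∈ Un T a U
    · rw [if_pos ha, if_pos ha, h1, ← sum_mul_sum]
      ring
    · rw [if_neg ha, if_neg ha]
      have h2 : ∑ i ∈ D, w' a i = 0 := sum_eq_zero fun i _ => hzero a ha i
      rw [← sum_mul_sum, h2]
      ring
  have e2 : Ex (law Λ U p) (fun a => if ω ∈ Un T a U then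
      (Z (Un T a U) (nx T Λ U p) D ω - ρ * Zz) ^ 2 else 0) =
      (∑ i ∈ D, ∑ i' ∈ D, Ex (law Λ U p) (fun a => w' a i * w' a i')) -
        (2 * ρ * Zz) * (∑ i ∈ D, Ex (law Λ U p) (fun a => w' a i)) + ρ * Zz ^ 2 := by
    rw [e1, Ex_add, Ex_sub, Ex_mul_left, Ex_mul_left, Ex_sum, Ex_sum, surv_one T Λ U hpp hω]
    simp only [Ex_sum]
    congr 1
    rw [hρ]
    have h1 := (hpp ω).ne'
    have h2 := hnn.ne'
    field_simp
  rw [e2]
  have hcard : (D.card : ℝ) ≤ q := by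
    have h1 : D.card ≤ (univ : Finset (ZMod q)).card := card_le_card (subset_univ _)
    rw [card_univ, ZMod.card] at h1
    exact_mod_cast h1
  have hcard0 : (0 : ℝ) ≤ D.card := Nat.cast_nonneg _
  -- second moment
  have h2 : ∑ i ∈ D, ∑ i' ∈ D, Ex (law Λ U p) (fun a => w' a i * w' a i') ≤
      ρ * Zz ^ 2 + q * (q * (K' ^ 2 * c)) + q * K' ^ 2 := by
    have hkc : 0 ≤ K' ^ 2 * c := by positivity
    have h3 : ∀ i i', Ex (law Λ U p) (fun a => w' a i * w' a i') ≤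
        ρ * (u i * u i') + K' ^ 2 * c + if i = i' then K' ^ 2 else 0 := by
      intro i i'
      by_cases hz : i = i'
      · rw [if_pos hz]
        have h4 := Ex_mono hP (f := fun a => w' a i * w' a i') (g := fun _ => K' ^ 2) (fun a => by
          rw [sq]
          exact mul_le_mul (hw'1 a i) (hw'1 a i') (hw'0 a i') (by linarith))
        rw [Ex_const hP] at h4
        have h5 := mul_nonneg hρ0 (mul_nonneg (hun i) (hun i'))
        linarith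
      · rw [if_neg hz, add_zero]
        exact mz_two hm T Λ U hκ hκ1 hp hκ' hκκ' hp' hz ω
    have h4 : ∑ i ∈ D, ∑ i' ∈ D, (if i = i' then K' ^ 2 else 0) = D.card * K' ^ 2 := by
      have : ∀ i ∈ D, ∑ i' ∈ D, (if i = i' then K' ^ 2 else 0) = K' ^ 2 := by
        intro i hi
        rw [sum_ite_eq, if_pos hi]
      rw [sum_congr rfl this, sum_const, nsmul_eq_mul]
    calc ∑ i ∈ D, ∑ i' ∈ D, Ex (law Λ U p) (fun a => w' a i * w' a i')
        ≤ ∑ i ∈ D, ∑ i' ∈ D, (ρ * (u i * u i') + K' ^ 2 * c + if i = i' then K' ^ 2 else 0) :=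
          sum_le_sum fun i _ => sum_le_sum fun i' _ => h3 i i'
      _ = ρ * ((∑ i ∈ D, u i) * (∑ i' ∈ D, u i')) + D.card * (D.card * (K' ^ 2 * c)) +
          D.card * K' ^ 2 := by
          simp only [sum_add_distrib, sum_const, nsmul_eq_mul]
          rw [h4, sum_mul_sum, mul_sum]
          simp only [mul_sum]
      _ ≤ _ := by
          rw [← hZu, ← sq]
          have a1 : (D.card : ℝ) * (D.card * (K' ^ 2 * c)) ≤ q * (q * (K' ^ 2 * c)) :=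
            mul_le_mul hcard (mul_le_mul_of_nonneg_right hcard hkc) (by positivity) hq0.le
          have a2 : (D.card : ℝ) * K' ^ 2 ≤ q * K' ^ 2 :=
            mul_le_mul_of_nonneg_right hcard (by positivity)
          linarith
  -- first moment
  have h1 : Zz - q * (K' * c) ≤ ∑ i ∈ D, Ex (law Λ U p) (fun a => w' a i) := by
    have hkc : 0 ≤ K' * c := mul_nonneg (by linarith) hc0
    calc Zz - q * (K' * c) ≤ Zz - D.card * (K' * c) := by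
          have := mul_le_mul_of_nonneg_right hcard hkc
          linarith
      _ = ∑ i ∈ D, (u i - K' * c) := by
          rw [sum_sub_distrib, sum_const, nsmul_eq_mul, hZu]
      _ ≤ _ := sum_le_sum fun i _ => mz_one hm T Λ U hκ hκ1 hp hκ' hκκ' hp' i _
  have hqc : q * c = 5 * m ^ 3 * K ^ 2 := by
    rw [hc]
    field_simp
  have hρZ : 0 ≤ 2 * ρ * Zz := by positivity
  have h3 := mul_le_mul_of_nonneg_left h1 hρZ
  have h4 : (∑ i ∈ D, ∑ i' ∈ D, Ex (law Λ U p) (fun a => w' a i * w' a i')) -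
        (2 * ρ * Zz) * (∑ i ∈ D, Ex (law Λ U p) (fun a => w' a i)) + ρ * Zz ^ 2 ≤
      q * K' ^ 2 * (q * c) + q * K' ^ 2 + 2 * ρ * Zz * K' * (q * c) := by
    nlinarith
  refine h4.trans ?_
  rw [hqc]
  have hm3 : (1 : ℝ) ≤ (m : ℝ) ^ 3 := one_le_pow₀ hm1'
  have hK2 : 1 ≤ K ^ 2 := one_le_pow₀ hK1
  have hC : 1 ≤ 5 * (m : ℝ) ^ 3 * K ^ 2 := by nlinarith
  have hC0 : 0 ≤ 5 * (m : ℝ) ^ 3 * K ^ 2 := by linarith
  have h5 : 2 * ρ * Zz * K' * (5 * m ^ 3 * K ^ 2) ≤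
      2 * K' * (q * K') * K' * (5 * m ^ 3 * K ^ 2) := by
    refine mul_le_mul_of_nonneg_right (mul_le_mul_of_nonneg_right ?_ (by linarith)) hC0
    have a1 : Zz ≤ q * K' := hZle.trans (mul_le_mul_of_nonneg_left hKK hq0.le)
    exact mul_le_mul (by linarith) a1 hZn (by linarith)
  have h6 : q * K' ^ 2 ≤ q * K' ^ 3 * (5 * m ^ 3 * K ^ 2) := by
    have a1 : K' ^ 2 ≤ K' ^ 3 := pow_le_pow_right₀ hK'1 (by norm_num)
    have a2 : q * K' ^ 2 ≤ q * K' ^ 3 := mul_le_mul_of_nonneg_left a1 hq0.le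
    exact a2.trans (le_mul_of_one_le_right (by positivity) hC)
  have h6' : q * K' ^ 2 * (5 * m ^ 3 * K ^ 2) ≤ q * K' ^ 3 * (5 * m ^ 3 * K ^ 2) := by
    have a1 : K' ^ 2 ≤ K' ^ 3 := pow_le_pow_right₀ hK'1 (by norm_num)
    exact mul_le_mul_of_nonneg_right (mul_le_mul_of_nonneg_left a1 hq0.le) hC0
  have h7 : K ^ 2 ≤ K' ^ 2 := pow_le_pow_left₀ (by linarith) hKK 2
  calc q * K' ^ 2 * (5 * m ^ 3 * K ^ 2) + q * K' ^ 2 + 2 * ρ * Zz * K' * (5 * m ^ 3 * K ^ 2)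
      ≤ q * K' ^ 3 * (5 * m ^ 3 * K ^ 2) + q * K' ^ 3 * (5 * m ^ 3 * K ^ 2) +
        2 * K' * (q * K') * K' * (5 * m ^ 3 * K ^ 2) := by linarith
    _ = 20 * m ^ 3 * (K' ^ 3 * K ^ 2) * q := by ring
    _ ≤ 20 * m ^ 3 * (K' ^ 3 * K' ^ 2) * q := by gcongr
    _ = 20 * m ^ 3 * K' ^ 5 * q := by ring

end Pool.Agent.H24.TC
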