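import Pool.Agent.H24.TC.MomW
import Pool.Agent.H24.TC.MomZ

/-!
# Module Step: one phase, and the last phase

`step`. Let `F a = ∑ i, (W' i - W i)² / (εq)² + ∑ g, ∑ ω ∈ U, (if ω ∈ U' then (Z'_g - (p/p') Z_g)² else 0) / (εq)²`. By `momW`, `momZ` (`q` slopes, `G` families,
at most `m q` points) `Ex F ≤ (q + G m q) 20 m³ K'⁵ q / (ε q)² = B`. Take `a` from `Ex_exists_le` (`law_isP`). All terms are `≥ 0`; each exceptional slope
(`W i + εq < W' i`) contributes at least `1` to the first sum, each exceptional point at least `1` to the sum of its `g`. The support: `0 < law i (a i)`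
and `a i = some z` give `0 < pr Λ U p i z`, so `i ∈ Λ`.
`last`. `Ex (fun a => ((Un T a U).card : ℝ)) = ∑ ω ∈ U, nx ω / p ω` by `surv_one` (the cardinality is the sum over `U` of the indicators), then
`Ex_exists_le`.
-/

set_option autoImplicit false

namespace Pool.Agent.H24.TC

open Finset
open Pool.Agent.H42.TreeCover (L S)

variable {q m : ℕ} [Fact q.Prime]

open Classical in
theorem step (hm1 : 1 ≤ m) (hm : m ≤ q) (T : ZMod q → Finset (ZMod q)) (Λ : Finset (ZMod q))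
    (U : Finset (Fin m × ZMod q)) {p : Fin m × ZMod q → ℝ} {κ κ' : ℝ} (hκ : 0 < κ) (hκ1 : κ ≤ 1)
    (hp : ∀ ω, κ ≤ p ω) (hp1 : ∀ ω, p ω ≤ 1) (hκ' : 0 < κ') (hκκ' : κ' ≤ κ)
    (hp' : ∀ ω, κ' ≤ nx T Λ U p ω) {G : ℕ} (D : Fin G → Fin m × ZMod q → Finset (ZMod q)) {ε : ℝ} (hε : 0 < ε) :
    ∃ a : ZMod q → Option (ZMod q), (∀ i z, a i = some z → i ∈ Λ) ∧
      ((univ.filter fun i => W U p i + ε * q < W (Un T a U) (nx T Λ U p) i).card : ℝ) ≤
        (1 + G * m) * (20 * m ^ 3 * KK m κ' ^ 5) / ε ^ 2 ∧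
      ∀ g : Fin G, (((Un T a U).filter fun ω => Z (Un T a U) (nx T Λ U p) (D g ω) ω <
        p ω / nx T Λ U p ω * Z U p (D g ω) ω - ε * q).card : ℝ) ≤
        (1 + G * m) * (20 * m ^ 3 * KK m κ' ^ 5) / ε ^ 2 := by
  have hpp : ∀ ω, 0 < p ω := fun ω => hκ.trans_le (hp ω)
  have hP := law_isP Λ U hpp
  have hq0 : (0 : ℝ) < q := by
    have : 0 < q := (Fact.out : q.Prime).pos
    exact_mod_cast this
  have hK0 : 0 ≤ KK m κ' := zero_le_one.trans (one_le_KK hκ' (hκκ'.trans hκ1) m)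
  obtain ⟨B, hB⟩ : ∃ B : ℝ, B = 20 * m ^ 3 * KK m κ' ^ 5 := ⟨_, rfl⟩
  have hB0 : 0 ≤ B := by rw [hB]; positivity
  rw [← hB]
  obtain ⟨c, hc⟩ : ∃ c : ℝ, c = (ε * q) ^ 2 := ⟨_, rfl⟩
  have hc0 : 0 < c := by rw [hc]; positivity
  obtain ⟨F1, hF1⟩ : ∃ F1 : (ZMod q → Option (ZMod q)) → ZMod q → ℝ,
      F1 = fun a i => (W (Un T a U) (nx T Λ U p) i - W U p i) ^ 2 := ⟨_, rfl⟩
  obtain ⟨F2, hF2⟩ : ∃ F2 : Fin G → (ZMod q → Option (ZMod q)) → Fin m × ZMod q → ℝ,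
      F2 = fun g a ω => if ω ∈ Un T a U then
        (Z (Un T a U) (nx T Λ U p) (D g ω) ω - p ω / nx T Λ U p ω * Z U p (D g ω) ω) ^ 2 else 0 :=
    ⟨_, rfl⟩
  have h10 : ∀ a i, 0 ≤ F1 a i := fun a i => by rw [hF1]; exact sq_nonneg _
  have h20 : ∀ g a ω, 0 ≤ F2 g a ω := fun g a ω => by
    rw [hF2]
    dsimp only
    split_ifs
    · exact sq_nonneg _
    · exact le_rfl
  obtain ⟨a, ha, hle⟩ := Ex_exists_le hP (fun a => c⁻¹ * ∑ i, F1 a i + ∑ g, c⁻¹ * ∑ ω ∈ U, F2 g a ω)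
  have hUc : (U.card : ℝ) ≤ m * q := by
    have h1 : U.card ≤ Fintype.card (Fin m × ZMod q) := card_le_univ U
    rw [Fintype.card_prod, Fintype.card_fin, ZMod.card] at h1
    exact_mod_cast h1
  have e1 : ∀ i, Ex (law Λ U p) (fun a => F1 a i) ≤ B * q := fun i => by
    rw [hF1, hB]
    exact momW hm1 hm T Λ U hκ hκ1 hp hκ' hκκ' hp' i
  have e2 : ∀ g, ∀ ω ∈ U, Ex (law Λ U p) (fun a => F2 g a ω) ≤ B * q := fun g ω hω => by
    rw [hF2, hB]
    exact momZ hm1 hm T Λ U hκ hκ1 hp hp1 hκ' hκκ' hp' (D g ω) hω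
  have hbound : Ex (law Λ U p) (fun a => c⁻¹ * ∑ i, F1 a i + ∑ g, c⁻¹ * ∑ ω ∈ U, F2 g a ω) ≤
      (1 + G * m) * B / ε ^ 2 := by
    have s1 : Ex (law Λ U p) (fun a => c⁻¹ * ∑ i, F1 a i) ≤ c⁻¹ * (q * (B * q)) := by
      rw [Ex_mul_left, Ex_sum]
      refine mul_le_mul_of_nonneg_left ?_ (inv_nonneg.2 hc0.le)
      calc ∑ i, Ex (law Λ U p) (fun a => F1 a i) ≤ ∑ _i : ZMod q, B * q := sum_le_sum fun i _ => e1 i
        _ = q * (B * q) := by rw [sum_const, card_univ, ZMod.card, nsmul_eq_mul]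
    have s2 : ∀ g, Ex (law Λ U p) (fun a => c⁻¹ * ∑ ω ∈ U, F2 g a ω) ≤
        c⁻¹ * (m * q * (B * q)) := by
      intro g
      rw [Ex_mul_left, Ex_sum]
      refine mul_le_mul_of_nonneg_left ?_ (inv_nonneg.2 hc0.le)
      calc ∑ ω ∈ U, Ex (law Λ U p) (fun a => F2 g a ω) ≤ ∑ _ω ∈ U, B * q :=
            sum_le_sum fun ω hω => e2 g ω hω
        _ = U.card * (B * q) := by rw [sum_const, nsmul_eq_mul]
        _ ≤ m * q * (B * q) := mul_le_mul_of_nonneg_right hUc (by positivity)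
    rw [Ex_add, Ex_sum]
    have s3 : ∑ g : Fin G, Ex (law Λ U p) (fun a => c⁻¹ * ∑ ω ∈ U, F2 g a ω) ≤
        G * (c⁻¹ * (m * q * (B * q))) := by
      calc _ ≤ ∑ _g : Fin G, c⁻¹ * (m * q * (B * q)) := sum_le_sum fun g _ => s2 g
        _ = _ := by rw [sum_const, card_univ, Fintype.card_fin, nsmul_eq_mul]
    refine (add_le_add s1 s3).trans (le_of_eq ?_)
    rw [hc]
    field_simp
  have hFa := hle.trans hbound
  have hT1 : c⁻¹ * ∑ i, F1 a i ≤ (1 + G * m) * B / ε ^ 2 := by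
    have : 0 ≤ ∑ g, c⁻¹ * ∑ ω ∈ U, F2 g a ω :=
      sum_nonneg fun g _ => mul_nonneg (inv_nonneg.2 hc0.le) (sum_nonneg fun ω _ => h20 g a ω)
    linarith
  have hT2 : ∀ g, c⁻¹ * ∑ ω ∈ U, F2 g a ω ≤ (1 + G * m) * B / ε ^ 2 := by
    intro g
    have h1 : 0 ≤ c⁻¹ * ∑ i, F1 a i :=
      mul_nonneg (inv_nonneg.2 hc0.le) (sum_nonneg fun i _ => h10 a i)
    have h2 : c⁻¹ * ∑ ω ∈ U, F2 g a ω ≤ ∑ g, c⁻¹ * ∑ ω ∈ U, F2 g a ω :=
      single_le_sum (f := fun g => c⁻¹ * ∑ ω ∈ U, F2 g a ω)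
        (fun g _ => mul_nonneg (inv_nonneg.2 hc0.le) (sum_nonneg fun ω _ => h20 g a ω)) (mem_univ g)
    linarith
  refine ⟨a, ?_, ?_, ?_⟩
  · intro i z hz
    have h1 := ha i
    rw [hz] at h1
    have h2 : 0 < pr Λ U p i z := h1
    unfold pr at h2
    by_contra hcon
    rw [if_neg (fun hh => hcon hh.1)] at h2
    exact lt_irrefl _ h2
  · refine le_trans ?_ hT1
    rw [le_inv_mul_iff₀ hc0]
    calc c * ((univ.filter fun i => W U p i + ε * q < W (Un T a U) (nx T Λ U p) i).card : ℝ)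
        = ∑ _i ∈ univ.filter (fun i => W U p i + ε * q < W (Un T a U) (nx T Λ U p) i), c := by
          rw [sum_const, nsmul_eq_mul, mul_comm]
      _ ≤ ∑ i ∈ univ.filter (fun i => W U p i + ε * q < W (Un T a U) (nx T Λ U p) i), F1 a i := by
          refine sum_le_sum fun i hi => ?_
          have hi' := (mem_filter.1 hi).2
          rw [hc, hF1]
          dsimp only
          have h1 : 0 < ε * q := by positivity
          exact pow_le_pow_left₀ h1.le (by linarith) 2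
      _ ≤ ∑ i, F1 a i := sum_le_sum_of_subset_of_nonneg (filter_subset _ _) fun i _ _ => h10 a i
  · intro g
    refine le_trans ?_ (hT2 g)
    rw [le_inv_mul_iff₀ hc0]
    calc c * (((Un T a U).filter fun ω => Z (Un T a U) (nx T Λ U p) (D g ω) ω <
          p ω / nx T Λ U p ω * Z U p (D g ω) ω - ε * q).card : ℝ)
        = ∑ _ω ∈ (Un T a U).filter (fun ω => Z (Un T a U) (nx T Λ U p) (D g ω) ω <
          p ω / nx T Λ U p ω * Z U p (D g ω) ω - ε * q), c := by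
          rw [sum_const, nsmul_eq_mul, mul_comm]
      _ ≤ ∑ ω ∈ (Un T a U).filter (fun ω => Z (Un T a U) (nx T Λ U p) (D g ω) ω <
          p ω / nx T Λ U p ω * Z U p (D g ω) ω - ε * q), F2 g a ω := by
          refine sum_le_sum fun ω hω => ?_
          obtain ⟨h1, h2⟩ := mem_filter.1 hω
          rw [hc, hF2]
          dsimp only
          rw [if_pos h1]
          have h3 : 0 < ε * q := by positivity
          nlinarith
      _ ≤ ∑ ω ∈ U, F2 g a ω :=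
          sum_le_sum_of_subset_of_nonneg ((filter_subset _ _).trans (Un_sub T a U))
            fun ω _ _ => h20 g a ω

theorem last (T : ZMod q → Finset (ZMod q)) (Λ : Finset (ZMod q))
    (U : Finset (Fin m × ZMod q)) {p : Fin m × ZMod q → ℝ} (hp : ∀ ω, 0 < p ω) :
    ∃ a : ZMod q → Option (ZMod q), (∀ i z, a i = some z → i ∈ Λ) ∧
      ((Un T a U).card : ℝ) ≤ ∑ ω ∈ U, nx T Λ U p ω / p ω := by
  classical
  have hP := law_isP Λ U hp
  obtain ⟨a, ha, hle⟩ := Ex_exists_le hP (fun a => ((Un T a U).card : ℝ))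
  refine ⟨a, ?_, ?_⟩
  · intro i z hz
    have h1 := ha i
    rw [hz] at h1
    have h2 : 0 < pr Λ U p i z := h1
    unfold pr at h2
    by_contra hcon
    rw [if_neg (fun hh => hcon hh.1)] at h2
    exact lt_irrefl _ h2
  · refine hle.trans (le_of_eq ?_)
    have e1 : (fun a : ZMod q → Option (ZMod q) => ((Un T a U).card : ℝ)) =
        fun a => ∑ ω ∈ U, (if ω ∈ Un T a U then (1 : ℝ) else 0) := by
      funext a
      rw [sum_boole]
      congr 2
      ext ω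
      rw [mem_filter]
      exact ⟨fun h => ⟨Un_sub T a U h, h⟩, fun h => h.2⟩
    rw [e1, Ex_sum]
    exact sum_congr rfl fun ω hω => surv_one T Λ U hp hω

end Pool.Agent.H24.TC
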