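import Pool.Agent.H24.TC.ItDefs
import Pool.Agent.H24.TC.Step
import Pool.Agent.H24.TC.Rate

/-!
# Module ItA: one step of the iteration

Take `a` from `step` for the phase `T j`, `Λ j`, `κ' = κ exp(-K)`, `K = KK m κ` (`nx_ge`), with the `G = J + 1` families `D g = Dd (T g) (Λ g)`, and
`p' = nx (T j) (Λ j) U p`. `κ' ≤ p'`, `p' ≤ p ≤ 1` (`nx_le`). Write `β` for the bound of `step`. For `κ₁ = κ exp(-K)`:
* `slopes`: if `(1 + (j+1) ε) q < W' i` then `(1 + j ε) q < W i` or `W i + ε q < W' i`: at most `B + β`.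
* `pts`: let `ω ∈ U' ⊆ U` with `p ω Z ω ≥ |D| - j ε q` and `Z' ω ≥ (p/p') Z ω - ε q`; then `p' Z' ≥ p Z - p' ε q ≥ |D| - (j+1) ε q` (`0 < p' ≤ 1`). So at most
  `B + β`.
* `pb`: let `ω ∈ U' ⊆ U`, `ω ∉ H`, `p ω ≤ x`, `p ω Z ω ≥ |D| - j ε q` with `D = Dd (T j) (Λ j) ω`, `|D| ≥ d q`. As `(J+1) ε ≤ d/2`, `j ≤ J`, we get `Z ≥ (d/2) q / p`.
  The number `e` of slopes with `2q < W` is at most `B` (as `(1 + jε) q ≤ 2q`), and `B K ≤ (d/4) q ≤ (d/4) q / p`; so by `rate`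
  `p' ≤ p exp(-(d/4) (q/p) / (2q)) = p exp(-d/(8p)) ≤ x exp(-d/(8x))` (both factors increase with `p`, `0 < p ≤ x`). So at most `2 B` exceptions.
-/

set_option autoImplicit false

namespace Pool.Agent.H24.TC

open Finset
open Pool.Agent.H42.TreeCover (L S)

variable {q m : ℕ} [Fact q.Prime]

private lemma ita_union {α : Type*} {s s₁ s₂ : Finset α} {B₁ B₂ B : ℝ}
    (h : ∀ x ∈ s, x ∈ s₁ ∨ x ∈ s₂) (h₁ : (s₁.card : ℝ) ≤ B₁) (h₂ : (s₂.card : ℝ) ≤ B₂)
    (hB : B₁ + B₂ ≤ B) : (s.card : ℝ) ≤ B := by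
  classical
  have h4 : s ⊆ s₁ ∪ s₂ := fun x hx => Finset.mem_union.2 (h x hx)
  have h3 : (s.card : ℝ) ≤ s₁.card + s₂.card := by
    exact_mod_cast (Finset.card_le_card h4).trans (Finset.card_union_le _ _)
  linarith

theorem St.next (hm1 : 1 ≤ m) (hm : m ≤ q) {J : ℕ} {T : ℕ → ZMod q → Finset (ZMod q)}
    {Λ : ℕ → Finset (ZMod q)} {H : Finset (Fin m × ZMod q)} {ε κ B x d : ℝ} {j : ℕ}
    {U : Finset (Fin m × ZMod q)} {p : Fin m × ZMod q → ℝ} (hκ : 0 < κ) (hκ1 : κ ≤ 1)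
    (hB : 0 ≤ B) (hx : 0 < x) (hd : 0 < d) (hd1 : d ≤ 1) (hε : 0 < ε)
    (hε1 : (J + 1 : ℝ) * ε ≤ d / 2) (hj : j ≤ J)
    (hH : ∀ ω ∉ H, d * q ≤ ((Dd (T j) (Λ j) ω).card : ℝ)) (hK : KK m κ ≤ q)
    (hBK : B * KK m κ ≤ d / 4 * q) (h : St J T Λ H ε κ B x j U p) :
    ∃ a : ZMod q → Option (ZMod q), (∀ i z, a i = some z → i ∈ Λ j) ∧
      ∃ p' : Fin m × ZMod q → ℝ, St J T Λ H ε (κ * Real.exp (-KK m κ))
        (2 * B + (1 + (J + 1 : ℕ) * m) * (20 * m ^ 3 * KK m (κ * Real.exp (-KK m κ)) ^ 5) / ε ^ 2)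
        (x * Real.exp (-(d / (8 * x)))) (j + 1) (Un (T j) a U) p' := by
  classical
  have hp0 : ∀ ω, 0 < p ω := fun ω => hκ.trans_le (h.lo ω)
  have hq : (0 : ℝ) < q := by exact_mod_cast Nat.pos_of_ne_zero (NeZero.ne q)
  have hKK := one_le_KK hκ hκ1 m
  set κ' : ℝ := κ * Real.exp (-KK m κ) with hκ'd
  have hκ' : 0 < κ' := mul_pos hκ (Real.exp_pos _)
  have hκκ' : κ' ≤ κ := mul_le_of_le_one_right hκ.le (Real.exp_le_one_iff.2 (by linarith))
  have hnx : ∀ ω, κ' ≤ nx (T j) (Λ j) U p ω := nx_ge (T j) (Λ j) U hκ hκ1 h.lo hK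
  obtain ⟨a, ha, hW, hZ⟩ := step hm1 hm (T j) (Λ j) U hκ hκ1 h.lo h.hi hκ' hκκ' hnx
    (G := J + 1) (fun g : Fin (J + 1) => Dd (T g) (Λ g)) hε
  set β : ℝ := (1 + (J + 1 : ℕ) * m) * (20 * m ^ 3 * KK m κ' ^ 5) / ε ^ 2 with hβ
  set p' := nx (T j) (Λ j) U p with hp'
  have hβ0 : 0 ≤ β := (Nat.cast_nonneg _).trans hW
  have hp'0 : ∀ ω, 0 < p' ω := fun ω => hκ'.trans_le (hnx ω)
  have hp'p : ∀ ω, p' ω ≤ p ω := nx_le (T j) (Λ j) U hp0
  have hjJ : (j : ℝ) ≤ J := by exact_mod_cast hj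
  have hjε : (j : ℝ) * ε ≤ d / 2 := by
    have h1 : (j : ℝ) * ε ≤ (J + 1 : ℝ) * ε := mul_le_mul_of_nonneg_right (by linarith) hε.le
    linarith
  refine ⟨a, ha, p', hnx, fun ω => (hp'p ω).trans (h.hi ω), ?_, ?_, ?_⟩
  · refine ita_union (s₁ := univ.filter fun i => (1 + j * ε) * q < W U p i)
      (s₂ := univ.filter fun i => W U p i + ε * q < W (Un (T j) a U) p' i) ?_ h.slopes hW (by linarith)
    intro i hi
    rw [Finset.mem_filter] at hi
    rw [Finset.mem_filter, Finset.mem_filter]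
    by_contra hcon
    push Not at hcon
    have h1 := hcon.1 (Finset.mem_univ _)
    have h2 := hcon.2 (Finset.mem_univ _)
    have h3 := hi.2
    push_cast at h3
    nlinarith
  · intro g hg
    have hgJ : g < J + 1 := by omega
    have hZg := hZ ⟨g, hgJ⟩
    refine ita_union (s₁ := U.filter fun ω => p ω * Z U p (Dd (T g) (Λ g) ω) ω <
        ((Dd (T g) (Λ g) ω).card : ℝ) - j * ε * q)
      (s₂ := (Un (T j) a U).filter fun ω => Z (Un (T j) a U) p' (Dd (T g) (Λ g) ω) ω <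
        p ω / p' ω * Z U p (Dd (T g) (Λ g) ω) ω - ε * q) ?_ (h.pts g hg) hZg (by linarith)
    intro ω hω
    rw [Finset.mem_filter] at hω
    rw [Finset.mem_filter, Finset.mem_filter]
    by_contra hcon
    push Not at hcon
    have h1 := hcon.1 (Un_sub _ _ _ hω.1)
    have h2 := hcon.2 hω.1
    have h3 := hω.2
    have h4 := mul_le_mul_of_nonneg_left h2 (hp'0 ω).le
    have h5 : p' ω * (p ω / p' ω * Z U p (Dd (T g) (Λ g) ω) ω - ε * q) =
        p ω * Z U p (Dd (T g) (Λ g) ω) ω - p' ω * (ε * q) := by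
      have := (hp'0 ω).ne'
      field_simp
    have h6 : p' ω * (ε * q) ≤ 1 * (ε * q) :=
      mul_le_mul_of_nonneg_right ((hp'p ω).trans (h.hi ω)) (by positivity)
    rw [h5] at h4
    push_cast at h3
    linarith
  · refine ita_union (s₁ := U.filter fun ω => ω ∉ H ∧ x < p ω)
      (s₂ := U.filter fun ω => p ω * Z U p (Dd (T j) (Λ j) ω) ω <
        ((Dd (T j) (Λ j) ω).card : ℝ) - j * ε * q) ?_ h.pb (h.pts j hj) (by linarith)
    intro ω hω
    rw [Finset.mem_filter] at hω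
    rw [Finset.mem_filter, Finset.mem_filter]
    by_contra hcon
    push Not at hcon
    obtain ⟨hωU, hωH, hxp⟩ := hω
    have hωU' := Un_sub _ _ _ hωU
    have h1 := hcon.1 hωU' hωH
    have h2 := hcon.2 hωU'
    have h3 := hH ω hωH
    have hpω := hp0 ω
    -- the number of heavy slopes
    have he : ((univ.filter fun i : ZMod q => 2 * (q : ℝ) < W U p i).card : ℝ) ≤ B := by
      refine le_trans ?_ h.slopes
      have h4 : (univ.filter fun i : ZMod q => 2 * (q : ℝ) < W U p i) ⊆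
          univ.filter fun i => (1 + j * ε) * q < W U p i := by
        intro i hi
        rw [Finset.mem_filter] at hi ⊢
        refine ⟨hi.1, lt_of_le_of_lt ?_ hi.2⟩
        exact mul_le_mul_of_nonneg_right (by linarith) hq.le
      exact_mod_cast Finset.card_le_card h4
    have heK : ((univ.filter fun i : ZMod q => 2 * (q : ℝ) < W U p i).card : ℝ) * KK m κ ≤
        d / 4 * q := (mul_le_mul_of_nonneg_right he (by linarith)).trans hBK
    have hjεq : (j : ℝ) * ε * q ≤ d / 2 * q := mul_le_mul_of_nonneg_right hjε hq.le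
    have hZ1 : d / 2 * q ≤ p ω * Z U p (Dd (T j) (Λ j) ω) ω := by linarith
    have hpe : p ω * (((univ.filter fun i : ZMod q => 2 * (q : ℝ) < W U p i).card : ℝ) * KK m κ) ≤
        d / 4 * q := by
      have h5 : 0 ≤ ((univ.filter fun i : ZMod q => 2 * (q : ℝ) < W U p i).card : ℝ) * KK m κ :=
        mul_nonneg (Nat.cast_nonneg _) (by linarith)
      exact (mul_le_of_le_one_left h5 (h.hi ω)).trans heK
    have hr := rate (T j) (Λ j) U hκ hκ1 h.lo ω
    have hexp : d / (8 * p ω) ≤ (Z U p (Dd (T j) (Λ j) ω) ω -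
        ((univ.filter fun i : ZMod q => 2 * (q : ℝ) < W U p i).card : ℝ) * KK m κ) / (2 * q) := by
      rw [div_le_div_iff₀ (by positivity) (by positivity)]
      have h6 : d / 4 * q ≤ p ω * (Z U p (Dd (T j) (Λ j) ω) ω -
          ((univ.filter fun i : ZMod q => 2 * (q : ℝ) < W U p i).card : ℝ) * KK m κ) := by
        rw [mul_sub]
        linarith
      linarith
    have h7 : p' ω ≤ p ω * Real.exp (-(d / (8 * p ω))) := by
      refine hr.trans (mul_le_mul_of_nonneg_left (Real.exp_le_exp.2 (by linarith)) hpω.le)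
    have h8 : d / (8 * x) ≤ d / (8 * p ω) :=
      div_le_div_of_nonneg_left hd.le (by positivity) (by linarith)
    have h9 : p ω * Real.exp (-(d / (8 * p ω))) ≤ x * Real.exp (-(d / (8 * x))) :=
      mul_le_mul h1 (Real.exp_le_exp.2 (by linarith)) (Real.exp_pos _).le hx.le
    linarith

end Pool.Agent.H24.TC
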