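import Pool.Agent.H24.TC.ItDefs
import Pool.Agent.H24.TC.Step
import Pool.Agent.H24.TC.Rate

/-!
# Module ItB: the last phase

Take `a` from `last`. Each term `nx ω / p ω` is at most `1`. Let `ω ∈ U`. If `ω ∈ H`: at most `|H|` such points. If `x < p ω` or `p ω Z ω < |D| - J ε q`: at most `2B`
such points. Otherwise, as in `ItA` (`pb`), `nx ω / p ω ≤ exp(-d/(8 p ω)) ≤ exp(-d/(8x))`, and there are at most `m q` points.
-/

set_option autoImplicit false

namespace Pool.Agent.H24.TC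

open Finset
open Pool.Agent.H42.TreeCover (L S)

variable {q m : ℕ} [Fact q.Prime]

open Classical in
private lemma itB_point {J : ℕ} {T : ℕ → ZMod q → Finset (ZMod q)}
    {Λ : ℕ → Finset (ZMod q)} {H : Finset (Fin m × ZMod q)} {ε κ B x d : ℝ}
    {U : Finset (Fin m × ZMod q)} {p : Fin m × ZMod q → ℝ} (hκ : 0 < κ) (hκ1 : κ ≤ 1)
    (hd : 0 < d) (hd1 : d ≤ 1) (hε : 0 < ε)
    (hε1 : (J + 1 : ℝ) * ε ≤ d / 2)
    (hBK : B * KK m κ ≤ d / 4 * q) (h : St J T Λ H ε κ B x J U p) {ω : Fin m × ZMod q}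
    (hD : d * q ≤ ((Dd (T J) (Λ J) ω).card : ℝ)) (hpx : p ω ≤ x)
    (hZ : ((Dd (T J) (Λ J) ω).card : ℝ) - J * ε * q ≤ p ω * Z U p (Dd (T J) (Λ J) ω) ω) :
    nx (T J) (Λ J) U p ω / p ω ≤ Real.exp (-(d / (8 * x))) := by
  have hq : (0 : ℝ) < q := by exact_mod_cast (Fact.out : q.Prime).pos
  have hp : 0 < p ω := hκ.trans_le (h.lo ω)
  have hp1 := h.hi ω
  have hr := rate (T J) (Λ J) U hκ hκ1 h.lo ω
  have hJ : (J : ℝ) * ε ≤ d / 2 := by nlinarith
  have hKK : 0 < KK m κ := lt_of_lt_of_le one_pos (one_le_KK hκ hκ1 m)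
  have he : ((univ.filter fun i : ZMod q => 2 * (q : ℝ) < W U p i).card : ℝ) ≤ B := by
    refine le_trans ?_ h.slopes
    have : (univ.filter fun i : ZMod q => 2 * (q : ℝ) < W U p i) ⊆
        univ.filter fun i => (1 + J * ε) * q < W U p i := by
      intro i hi
      rw [mem_filter] at hi ⊢
      refine ⟨hi.1, lt_of_le_of_lt ?_ hi.2⟩
      have : 1 + (J : ℝ) * ε ≤ 2 := by linarith
      exact mul_le_mul_of_nonneg_right this hq.le
    exact_mod_cast card_le_card this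
  have h1 : ((univ.filter fun i : ZMod q => 2 * (q : ℝ) < W U p i).card : ℝ) * KK m κ ≤
      d / 4 * q := (mul_le_mul_of_nonneg_right he hKK.le).trans hBK
  have h2 : d / 2 * q ≤ p ω * Z U p (Dd (T J) (Λ J) ω) ω := by
    have : (J : ℝ) * ε * q ≤ d / 2 * q := mul_le_mul_of_nonneg_right hJ hq.le
    linarith
  have h3 : d / 2 * q / p ω ≤ Z U p (Dd (T J) (Λ J) ω) ω := by
    rw [div_le_iff₀ hp]; linarith
  have h4 : d / 4 * q ≤ d / 4 * q / p ω := by
    rw [le_div_iff₀ hp]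
    have : 0 < d / 4 * q := by positivity
    nlinarith
  have h5 : d / (8 * x) ≤ (Z U p (Dd (T J) (Λ J) ω) ω -
      ((univ.filter fun i : ZMod q => 2 * (q : ℝ) < W U p i).card : ℝ) * KK m κ) / (2 * q) := by
    have h6 : d / (8 * x) ≤ d / (8 * p ω) := by
      apply div_le_div_of_nonneg_left hd.le (by positivity)
      linarith
    refine h6.trans ?_
    rw [le_div_iff₀ (by positivity)]
    have h7 : d / (8 * p ω) * (2 * q) = d / 2 * q / p ω - d / 4 * q / p ω := by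
      field_simp; ring
    rw [h7]
    linarith
  rw [div_le_iff₀ hp, mul_comm]
  refine hr.trans (mul_le_mul_of_nonneg_left (Real.exp_le_exp.2 (neg_le_neg h5)) hp.le)

theorem St.last {J : ℕ} {T : ℕ → ZMod q → Finset (ZMod q)}
    {Λ : ℕ → Finset (ZMod q)} {H : Finset (Fin m × ZMod q)} {ε κ B x d : ℝ}
    {U : Finset (Fin m × ZMod q)} {p : Fin m × ZMod q → ℝ} (hκ : 0 < κ) (hκ1 : κ ≤ 1)
    (hB : 0 ≤ B) (hx : 0 < x) (hd : 0 < d) (hd1 : d ≤ 1) (hε : 0 < ε)
    (hε1 : (J + 1 : ℝ) * ε ≤ d / 2)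
    (hH : ∀ ω ∉ H, d * q ≤ ((Dd (T J) (Λ J) ω).card : ℝ))
    (hBK : B * KK m κ ≤ d / 4 * q) (h : St J T Λ H ε κ B x J U p) :
    ∃ a : ZMod q → Option (ZMod q), (∀ i z, a i = some z → i ∈ Λ J) ∧
      ((Un (T J) a U).card : ℝ) ≤ H.card + 2 * B + m * q * Real.exp (-(d / (8 * x))) := by
  classical
  have hq : (0 : ℝ) < q := by exact_mod_cast (Fact.out : q.Prime).pos
  have hp : ∀ ω, 0 < p ω := fun ω => hκ.trans_le (h.lo ω)
  obtain ⟨a, ha, hc⟩ := _root_.Pool.Agent.H24.TC.last (T J) (Λ J) U hp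
  refine ⟨a, ha, hc.trans ?_⟩
  set e := Real.exp (-(d / (8 * x))) with he
  have he0 : 0 < e := Real.exp_pos _
  have hpt : ∀ ω ∈ U, nx (T J) (Λ J) U p ω / p ω ≤
      (if ω ∈ H then (1 : ℝ) else 0) + (if ω ∉ H ∧ x < p ω then (1 : ℝ) else 0) +
        (if p ω * Z U p (Dd (T J) (Λ J) ω) ω < ((Dd (T J) (Λ J) ω).card : ℝ) - J * ε * q
          then (1 : ℝ) else 0) + e := by
    intro ω _
    have h1 : nx (T J) (Λ J) U p ω / p ω ≤ 1 := by
      rw [div_le_one (hp ω)]; exact nx_le _ _ _ hp ω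
    by_cases c1 : ω ∈ H
    · rw [if_pos c1, if_neg (fun hh => hh.1 c1)]
      have : (0 : ℝ) ≤ if p ω * Z U p (Dd (T J) (Λ J) ω) ω <
        ((Dd (T J) (Λ J) ω).card : ℝ) - J * ε * q then (1 : ℝ) else 0 := by split_ifs <;> norm_num
      linarith
    · rw [if_neg c1]
      by_cases c2 : x < p ω
      · rw [if_pos ⟨c1, c2⟩]
        have : (0 : ℝ) ≤ if p ω * Z U p (Dd (T J) (Λ J) ω) ω <
          ((Dd (T J) (Λ J) ω).card : ℝ) - J * ε * q then (1 : ℝ) else 0 := by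
          split_ifs <;> norm_num
        linarith
      · rw [if_neg (fun hh => c2 hh.2)]
        by_cases c3 : p ω * Z U p (Dd (T J) (Λ J) ω) ω <
          ((Dd (T J) (Λ J) ω).card : ℝ) - J * ε * q
        · rw [if_pos c3]; linarith
        · rw [if_neg c3]
          have := itB_point hκ hκ1 hd hd1 hε hε1 hBK h (hH ω c1) (not_lt.1 c2) (not_lt.1 c3)
          linarith
  refine (sum_le_sum hpt).trans ?_
  rw [sum_add_distrib, sum_add_distrib, sum_add_distrib, sum_const, nsmul_eq_mul,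
    sum_boole, sum_boole, sum_boole]
  have n1 : ((U.filter fun ω => ω ∈ H).card : ℝ) ≤ H.card := by
    have : (U.filter fun ω => ω ∈ H) ⊆ H := fun ω hω => (mem_filter.1 hω).2
    exact_mod_cast card_le_card this
  have n2 := h.pb
  have n3 := h.pts J le_rfl
  have n4 : (U.card : ℝ) ≤ m * q := by
    have h5 : U.card ≤ Fintype.card (Fin m × ZMod q) := card_le_univ U
    rw [Fintype.card_prod, Fintype.card_fin, ZMod.card] at h5
    exact_mod_cast h5
  have n5 : (U.card : ℝ) * e ≤ m * q * e := mul_le_mul_of_nonneg_right n4 he0.le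
  linarith

end Pool.Agent.H24.TC
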