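import Pool.Agent.H24.TC.NDefs

/-!
# The iteration: definitions

`St`: the state before phase `j`; all exceptional sets have at most `B` elements.
-/

set_option autoImplicit false

namespace Pool.Agent.H24.TC

open Finset
open Pool.Agent.H42.TreeCover (L S)

open Classical in
/-- the state before phase `j` -/
structure St {q m : ℕ} [NeZero q] (J : ℕ) (T : ℕ → ZMod q → Finset (ZMod q))
    (Λ : ℕ → Finset (ZMod q)) (H : Finset (Fin m × ZMod q)) (ε κ B x : ℝ) (j : ℕ)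
    (U : Finset (Fin m × ZMod q)) (p : Fin m × ZMod q → ℝ) : Prop where
  lo : ∀ ω, κ ≤ p ω
  hi : ∀ ω, p ω ≤ 1
  slopes : ((univ.filter fun i => (1 + j * ε) * q < W U p i).card : ℝ) ≤ B
  pts : ∀ g ≤ J, ((U.filter fun ω => p ω * Z U p (Dd (T g) (Λ g) ω) ω <
    ((Dd (T g) (Λ g) ω).card : ℝ) - j * ε * q).card : ℝ) ≤ B
  pb : ((U.filter fun ω => ω ∉ H ∧ x < p ω).card : ℝ) ≤ B

/-- lower bounds of `p` -/
noncomputable def ks (m : ℕ) : ℕ → ℝ
  | 0 => 1
  | j + 1 => ks m j * Real.exp (-KK m (ks m j))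

/-- bounds of the exceptional sets -/
noncomputable def bs (m J : ℕ) (ε : ℝ) : ℕ → ℝ
  | 0 => 0
  | j + 1 => 2 * bs m J ε j + (1 + (J + 1 : ℕ) * m) * (20 * m ^ 3 * KK m (ks m (j + 1)) ^ 5) / ε ^ 2

/-- upper bounds of `p` -/
noncomputable def xs (d : ℕ → ℝ) : ℕ → ℝ
  | 0 => 1
  | j + 1 => xs d j * Real.exp (-(d j / (8 * xs d j)))

end Pool.Agent.H24.TC
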