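import Pool.Agent.H24.TC.ItA
import Pool.Agent.H24.TC.ItB

/-!
# Module Iter: all phases

`ε = min over j ≤ J of d j / (2 (J+1))` (any `ε > 0` with `(J+1) ε ≤ d j / 2` for all `j ≤ J`), `κ = ks m`, `B = bs m J ε`, `x = xs d`; these are `> 0` (`B ≥ 0`), `ks m j ≤ 1`,
as `KK ≥ 1 > 0` (`one_le_KK`). `q₀` is at least `m`, `KK m (ks m j)` and `4 (bs m J ε j) KK m (ks m j) / d j` for all `j ≤ J` (finitely many conditions).
By induction on `j ≤ J`: there are `a : ℕ → ZMod q → Option (ZMod q)` with `a j' i = some z → i ∈ Λ j'`, and `p` with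
`St J T Λ H ε (ks m j) (bs m J ε j) (xs d j) j U_j p`, `U_j = univ.filter fun ω => ∀ j' < j, ∀ i, a j' i = some (L q m i ω) → L q m i ω ∈ T j' i`.
Start `j = 0`: `U_0 = univ`, `p = 1`: every `w = 1`, `W i = q`, `Z D = |D|`, exceptional sets empty. Step: `St.next`, and `a` is changed at `j` (`Function.update`);
`U_(j+1) = Un (T j) (a j) U_j`. Last: `St.last` with `j = J`; `2 B` is the constant of the statement (`B := 2 * bs m J ε J`); for `j > J` let `a j = none`.
-/

set_option autoImplicit false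

namespace Pool.Agent.H24.TC

open Finset
open Pool.Agent.H42.TreeCover (L S)

private lemma it_ks (m : ℕ) : ∀ j, 0 < ks m j ∧ ks m j ≤ 1
  | 0 => ⟨one_pos, le_rfl⟩
  | j + 1 => by
    obtain ⟨h1, h2⟩ := it_ks m j
    have h3 : 0 < KK m (ks m j) := lt_of_lt_of_le one_pos (one_le_KK h1 h2 m)
    have h4 : Real.exp (-KK m (ks m j)) ≤ 1 := Real.exp_le_one_iff.2 (by linarith)
    exact ⟨mul_pos h1 (Real.exp_pos _), mul_le_one₀ h2 (Real.exp_pos _).le h4⟩

private lemma it_bs (m J : ℕ) (ε : ℝ) : ∀ j, 0 ≤ bs m J ε j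
  | 0 => le_rfl
  | j + 1 => by
    have h1 := it_bs m J ε j
    have h2 : 0 ≤ KK m (ks m (j + 1)) :=
      zero_le_one.trans (one_le_KK (it_ks m (j + 1)).1 (it_ks m (j + 1)).2 m)
    show 0 ≤ 2 * bs m J ε j +
      (1 + (J + 1 : ℕ) * m) * (20 * m ^ 3 * KK m (ks m (j + 1)) ^ 5) / ε ^ 2
    positivity

private lemma it_xs {d : ℕ → ℝ} : ∀ j, 0 < xs d j
  | 0 => one_pos
  | j + 1 => mul_pos (it_xs j) (Real.exp_pos _)

private lemma it_eps (J : ℕ) (d : ℕ → ℝ) (hd : ∀ j, 0 < d j) :
    ∃ ε : ℝ, 0 < ε ∧ ∀ j ≤ J, (J + 1 : ℝ) * ε ≤ d j / 2 := by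
  obtain ⟨j₀, _, hmin⟩ := Finset.exists_min_image (range (J + 1)) d ⟨0, by simp⟩
  have hJ : (0 : ℝ) < 2 * (J + 1) := by positivity
  refine ⟨d j₀ / (2 * (J + 1)), div_pos (hd j₀) hJ, fun j hj => ?_⟩
  have h1 := hmin j (mem_range.2 (Nat.lt_succ_of_le hj))
  have h2 : (J + 1 : ℝ) * (d j₀ / (2 * (J + 1))) = d j₀ / 2 := by
    field_simp
  rw [h2]
  linarith

private lemma it_q0 (m J : ℕ) (d : ℕ → ℝ) (hd : ∀ j, 0 < d j) (f g : ℕ → ℝ) :
    ∃ q₀ : ℕ, m ≤ q₀ ∧ ∀ j ≤ J, f j ≤ q₀ ∧ g j ≤ d j / 4 * q₀ := by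
  have h : ∀ j, ∃ N : ℕ, f j ≤ N ∧ g j ≤ d j / 4 * N := by
    intro j
    obtain ⟨N, hN⟩ := exists_nat_ge (max (f j) (g j / (d j / 4)))
    refine ⟨N, (le_max_left _ _).trans hN, ?_⟩
    have h1 := (le_max_right _ _).trans hN
    have h2 : 0 < d j / 4 := by have := hd j; positivity
    rw [div_le_iff₀ h2] at h1
    linarith
  choose N hN1 hN2 using h
  refine ⟨m + ∑ j ∈ range (J + 1), N j, Nat.le_add_right _ _, fun j hj => ?_⟩
  have h3 : N j ≤ m + ∑ j ∈ range (J + 1), N j :=
    (Finset.single_le_sum (f := N) (fun _ _ => Nat.zero_le _)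
      (mem_range.2 (Nat.lt_succ_of_le hj))).trans (Nat.le_add_left _ _)
  have h4 : (N j : ℝ) ≤ ((m + ∑ j ∈ range (J + 1), N j : ℕ) : ℝ) := by exact_mod_cast h3
  refine ⟨(hN1 j).trans h4, (hN2 j).trans ?_⟩
  have := hd j
  exact mul_le_mul_of_nonneg_left h4 (by positivity)

private lemma it_w {q m : ℕ} [NeZero q] (i z : ZMod q) :
    w (univ : Finset (Fin m × ZMod q)) (fun _ => 1) i z = 1 := by
  unfold w
  rw [if_pos (subset_univ _)]
  simp

open Classical in
private lemma it_start {q m : ℕ} [Fact q.Prime] (J : ℕ) (d : ℕ → ℝ)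
    (T : ℕ → ZMod q → Finset (ZMod q)) (Λ : ℕ → Finset (ZMod q)) (H : Finset (Fin m × ZMod q))
    (ε : ℝ) :
    St J T Λ H ε (ks m 0) (bs m J ε 0) (xs d 0) 0 univ (fun _ : Fin m × ZMod q => 1) := by
  refine ⟨fun _ => le_rfl, fun _ => le_rfl, ?_, fun g _ => ?_, ?_⟩
  · have h : (univ.filter fun i : ZMod q => (1 + ((0 : ℕ) : ℝ) * ε) * q <
        W (univ : Finset (Fin m × ZMod q)) (fun _ => 1) i) = ∅ := by
      rw [filter_eq_empty_iff]
      intro i _
      have h1 : W (univ : Finset (Fin m × ZMod q)) (fun _ => 1) i = q := by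
        unfold W
        rw [sum_congr rfl fun z _ => it_w i z]
        simp [ZMod.card]
      rw [h1]
      simp
    rw [h]
    simp [bs]
  · have h : (univ.filter fun ω : Fin m × ZMod q =>
        (fun _ : Fin m × ZMod q => (1 : ℝ)) ω *
          Z (univ : Finset (Fin m × ZMod q)) (fun _ => 1) (Dd (T g) (Λ g) ω) ω <
        ((Dd (T g) (Λ g) ω).card : ℝ) - ((0 : ℕ) : ℝ) * ε * q) = ∅ := by
      rw [filter_eq_empty_iff]
      intro ω _
      have h1 : Z (univ : Finset (Fin m × ZMod q)) (fun _ => 1) (Dd (T g) (Λ g) ω) ω =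
          (Dd (T g) (Λ g) ω).card := by
        unfold Z
        rw [sum_congr rfl fun z _ => it_w z _]
        simp
      rw [h1]
      simp
    rw [h]
    simp [bs]
  · have h : (univ.filter fun ω : Fin m × ZMod q => ω ∉ H ∧
        xs d 0 < (fun _ : Fin m × ZMod q => (1 : ℝ)) ω) = ∅ := by
      rw [filter_eq_empty_iff]
      intro ω _ hh
      exact lt_irrefl _ hh.2
    rw [h]
    simp [bs]

open Classical in
theorem iter {m : ℕ} (hm1 : 1 ≤ m) (J : ℕ) (d : ℕ → ℝ) (hd : ∀ j, 0 < d j ∧ d j ≤ 1) :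
    ∃ (q₀ : ℕ) (B : ℝ), 0 ≤ B ∧ ∀ q : ℕ, q₀ ≤ q → ∀ [Fact q.Prime]
      (T : ℕ → ZMod q → Finset (ZMod q)) (Λ : ℕ → Finset (ZMod q))
      (H : Finset (Fin m × ZMod q)),
      (∀ j ≤ J, ∀ ω ∉ H, d j * q ≤ ((Dd (T j) (Λ j) ω).card : ℝ)) →
      ∃ a : ℕ → ZMod q → Option (ZMod q), (∀ j i z, a j i = some z → i ∈ Λ j) ∧
        ((univ.filter fun ω : Fin m × ZMod q => ∀ j ≤ J, ∀ i, a j i = some (L q m i ω) →
          L q m i ω ∈ T j i).card : ℝ) ≤
        H.card + B + m * q * Real.exp (-(d J / (8 * xs d J))) := by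
  obtain ⟨ε, hε, hε1⟩ := it_eps J d fun j => (hd j).1
  obtain ⟨q₀, hq1, hq2⟩ := it_q0 m J d (fun j => (hd j).1) (fun j => KK m (ks m j))
    (fun j => bs m J ε j * KK m (ks m j))
  refine ⟨q₀, 2 * bs m J ε J, mul_nonneg zero_le_two (it_bs m J ε J), ?_⟩
  intro q hq _ T Λ H hH
  have hqr : (q₀ : ℝ) ≤ q := by exact_mod_cast hq
  have hK : ∀ j ≤ J, KK m (ks m j) ≤ q := fun j hj => (hq2 j hj).1.trans hqr
  have hBK : ∀ j ≤ J, bs m J ε j * KK m (ks m j) ≤ d j / 4 * q := fun j hj => by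
    refine (hq2 j hj).2.trans ?_
    have := (hd j).1
    exact mul_le_mul_of_nonneg_left hqr (by positivity)
  have key : ∀ j ≤ J, ∃ a : ℕ → ZMod q → Option (ZMod q), (∀ j i z, a j i = some z → i ∈ Λ j) ∧
      ∃ p, St J T Λ H ε (ks m j) (bs m J ε j) (xs d j) j
        (univ.filter fun ω : Fin m × ZMod q => ∀ j' < j, ∀ i, a j' i = some (L q m i ω) →
          L q m i ω ∈ T j' i) p := by
    intro j
    induction j with
    | zero =>
      intro _
      refine ⟨fun _ _ => none, fun _ _ _ h => by simp at h, fun _ => 1, ?_⟩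
      convert it_start J d T Λ H ε using 1
      ext ω
      simp
    | succ j ih =>
      intro hj
      have hj' : j ≤ J := Nat.le_of_succ_le hj
      obtain ⟨a, ha, p, hp⟩ := ih hj'
      obtain ⟨a', ha', p', hp'⟩ := hp.next hm1 (hq1.trans hq) (it_ks m j).1 (it_ks m j).2
        (it_bs m J ε j) (it_xs j) (hd j).1 (hd j).2 hε (hε1 j hj') hj' (hH j hj') (hK j hj')
        (hBK j hj')
      refine ⟨Function.update a j a', fun k i z h => ?_, p', ?_⟩
      · by_cases hk : k = j
        · subst hk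
          rw [Function.update_self] at h
          exact ha' i z h
        · rw [Function.update_of_ne hk] at h
          exact ha k i z h
      · have h1 : Un (T j) a' (univ.filter fun ω : Fin m × ZMod q => ∀ j' < j, ∀ i,
            a j' i = some (L q m i ω) → L q m i ω ∈ T j' i) =
            (univ.filter fun ω : Fin m × ZMod q => ∀ j' < j + 1, ∀ i,
              Function.update a j a' j' i = some (L q m i ω) → L q m i ω ∈ T j' i) := by
          ext ω
          unfold Un
          simp only [mem_filter, mem_univ, true_and]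
          constructor
          · rintro ⟨h2, h3⟩ k hk
            rcases Nat.lt_succ_iff_lt_or_eq.1 hk with hk | rfl
            · rw [Function.update_of_ne hk.ne]
              exact h2 k hk
            · rw [Function.update_self]
              exact h3
          · intro h2
            refine ⟨fun k hk => ?_, ?_⟩
            · have h4 := h2 k (Nat.lt_succ_of_lt hk)
              rw [Function.update_of_ne hk.ne] at h4
              exact h4
            · have h4 := h2 j (Nat.lt_succ_self j)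
              rw [Function.update_self] at h4
              exact h4
        rw [← h1]
        exact hp'
  obtain ⟨a, ha, p, hp⟩ := key J le_rfl
  obtain ⟨a', ha', hc⟩ := hp.last (it_ks m J).1 (it_ks m J).2 (it_bs m J ε J) (it_xs J)
    (hd J).1 (hd J).2 hε (hε1 J le_rfl) (hH J le_rfl) (hBK J le_rfl)
  refine ⟨Function.update a J a', fun k i z h => ?_, ?_⟩
  · by_cases hk : k = J
    · subst hk
      rw [Function.update_self] at h
      exact ha' i z h
    · rw [Function.update_of_ne hk] at h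
      exact ha k i z h
  · refine le_trans ?_ hc
    have h5 : (univ.filter fun ω : Fin m × ZMod q => ∀ j ≤ J, ∀ i,
        Function.update a J a' j i = some (L q m i ω) → L q m i ω ∈ T j i) ⊆
        Un (T J) a' (univ.filter fun ω : Fin m × ZMod q => ∀ j' < J, ∀ i,
            a j' i = some (L q m i ω) → L q m i ω ∈ T j' i) := by
      intro ω hω
      unfold Un
      simp only [mem_filter, mem_univ, true_and] at hω ⊢
      refine ⟨fun k hk => ?_, ?_⟩
      · have h4 := hω k hk.le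
        rw [Function.update_of_ne hk.ne] at h4
        exact h4
      · have h4 := hω J le_rfl
        rw [Function.update_self] at h4
        exact h4
    exact_mod_cast card_le_card h5

end Pool.Agent.H24.TC
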