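import Pool.Agent.H24.TC.Surv

/-!
# Module MomW: second moment of the total weight of a slope

Notation: `p' = nx T Λ U p ≥ κ'`, `K = KK m κ`, `K' = KK m κ'` (so `K ≤ K'`, `1 ≤ K'`), `C₁ = 5 m³ K²`, `U' = Un T a U`, `w' z = w U' p' i z`,
`w z = w U p i z`. For `S q m i z ⊆ U`, `w' z = (indicator of S ⊆ U') * ∏ (p')⁻¹`, so by `surv` `E w' z = ∏ (p'/p) ∏ (p')⁻¹ + θ = w z + θ`, `|θ| ≤ C₁ K' / q`
(both are `0` if `S` is not a subset of `U`, `Un_sub`). For `z ≠ z'` the two lines are disjoint (`mem_S`), their union has at most `2m` points and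
`E (w' z w' z') ≤ w z w z' + C₁ K'² / q`. `w' z ≤ K'` (`w_le`), so `E (w' z)² ≤ K'²`. Summing over `z`, `z'`, with `W' = ∑ w' z`, `W = ∑ w z ≤ q K`:
`E W'² ≤ W² + q C₁ K'² + q K'²`, `E W' ≥ W - C₁ K'`, `E (W' - W)² ≤ q C₁ K'² + q K'² + 2 W C₁ K' ≤ 4 q C₁ K'² ≤ 20 m³ K'⁴ q` (if `1 ≤ m`).
-/

set_option autoImplicit false

namespace Pool.Agent.H24.TC

open Finset
open Pool.Agent.H42.TreeCover (L S)

variable {q m : ℕ} [Fact q.Prime]

private lemma mw_prod_le {p' : Fin m × ZMod q → ℝ} {κ' : ℝ} (hκ' : 0 < κ') (hκ1 : κ' ≤ 1)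
    (hp' : ∀ ω, κ' ≤ p' ω) (i z : ZMod q) : ∏ ω ∈ S q m i z, (p' ω)⁻¹ ≤ KK m κ' := by
  have h := w_le (univ : Finset (Fin m × ZMod q)) hκ' hκ1 hp' i z
  unfold w at h
  rwa [if_pos (subset_univ _)] at h

private lemma mw_gen (hm : m ≤ q) (T : ZMod q → Finset (ZMod q)) (Λ : Finset (ZMod q))
    (U : Finset (Fin m × ZMod q)) {p : Fin m × ZMod q → ℝ} {κ κ' : ℝ} (hκ : 0 < κ) (hκ1 : κ ≤ 1)
    (hp : ∀ ω, κ ≤ p ω) (hκ' : 0 < κ') (hp' : ∀ ω, κ' ≤ nx T Λ U p ω)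
    {X : Finset (Fin m × ZMod q)} (hX : X ⊆ U) (hXc : X.card ≤ 2 * m) :
    |Ex (law Λ U p) (fun a => if X ⊆ Un T a U then ∏ ω ∈ X, (nx T Λ U p ω)⁻¹ else 0) -
      ∏ ω ∈ X, (p ω)⁻¹| ≤ (∏ ω ∈ X, (nx T Λ U p ω)⁻¹) * (5 * m ^ 3 * KK m κ ^ 2 / q) := by
  have h := surv hm T Λ U hκ hκ1 hp hX hXc
  have hP : 0 ≤ ∏ ω ∈ X, (nx T Λ U p ω)⁻¹ :=
    prod_nonneg fun ω _ => inv_nonneg.2 (hκ'.le.trans (hp' ω))
  have e1 : Ex (law Λ U p) (fun a => if X ⊆ Un T a U then ∏ ω ∈ X, (nx T Λ U p ω)⁻¹ else 0) =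
      (∏ ω ∈ X, (nx T Λ U p ω)⁻¹) *
        Ex (law Λ U p) (fun a => if X ⊆ Un T a U then (1 : ℝ) else 0) := by
    rw [← Ex_mul_left]
    congr 1
    funext a
    split_ifs <;> simp
  have e2 : ∏ ω ∈ X, (p ω)⁻¹ = (∏ ω ∈ X, (nx T Λ U p ω)⁻¹) * ∏ ω ∈ X, (nx T Λ U p ω / p ω) := by
    rw [← prod_mul_distrib]
    refine prod_congr rfl fun ω _ => ?_
    have h1 : nx T Λ U p ω ≠ 0 := (hκ'.trans_le (hp' ω)).ne'
    field_simp
  rw [e1, e2, ← mul_sub, abs_mul, abs_of_nonneg hP]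
  exact mul_le_mul_of_nonneg_left h hP

private lemma mw_one (hm : m ≤ q) (T : ZMod q → Finset (ZMod q)) (Λ : Finset (ZMod q))
    (U : Finset (Fin m × ZMod q)) {p : Fin m × ZMod q → ℝ} {κ κ' : ℝ} (hκ : 0 < κ) (hκ1 : κ ≤ 1)
    (hp : ∀ ω, κ ≤ p ω) (hκ' : 0 < κ') (hκκ' : κ' ≤ κ) (hp' : ∀ ω, κ' ≤ nx T Λ U p ω)
    (i z : ZMod q) :
    w U p i z - KK m κ' * (5 * m ^ 3 * KK m κ ^ 2 / q) ≤
      Ex (law Λ U p) (fun a => w (Un T a U) (nx T Λ U p) i z) := by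
  have hK0 : 0 ≤ KK m κ := zero_le_one.trans (one_le_KK hκ hκ1 m)
  have hθ : 0 ≤ 5 * (m : ℝ) ^ 3 * KK m κ ^ 2 / q := by positivity
  by_cases hS : S q m i z ⊆ U
  · have h := mw_gen hm T Λ U hκ hκ1 hp hκ' hp' hS ((Pool.Agent.H42.TreeCover.S_card_le i z).trans (by omega))
    have h2 := mul_le_mul_of_nonneg_right (mw_prod_le hκ' (hκκ'.trans hκ1) hp' i z) hθ
    have h3 := (abs_le.1 (h.trans h2)).1
    have e1 : w U p i z = ∏ ω ∈ S q m i z, (p ω)⁻¹ := if_pos hS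
    rw [e1]
    unfold w
    linarith
  · have e1 : w U p i z = 0 := if_neg hS
    have h1 : 0 ≤ Ex (law Λ U p) (fun a => w (Un T a U) (nx T Λ U p) i z) := by
      have hP := law_isP Λ U (p := p) (fun ω => hκ.trans_le (hp ω))
      have h2 := Ex_mono hP (f := fun _ => (0 : ℝ))
        (g := fun a => w (Un T a U) (nx T Λ U p) i z)
        (fun a => w_nonneg _ (fun ω => hκ'.trans_le (hp' ω)) _ _)
      rwa [Ex_const hP] at h2
    have h3 : 0 ≤ KK m κ' * (5 * (m : ℝ) ^ 3 * KK m κ ^ 2 / q) :=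
      mul_nonneg (zero_le_one.trans (one_le_KK hκ' (hκκ'.trans hκ1) m)) hθ
    rw [e1]
    linarith

private lemma mw_two (hm : m ≤ q) (T : ZMod q → Finset (ZMod q)) (Λ : Finset (ZMod q))
    (U : Finset (Fin m × ZMod q)) {p : Fin m × ZMod q → ℝ} {κ κ' : ℝ} (hκ : 0 < κ) (hκ1 : κ ≤ 1)
    (hp : ∀ ω, κ ≤ p ω) (hκ' : 0 < κ') (hκκ' : κ' ≤ κ) (hp' : ∀ ω, κ' ≤ nx T Λ U p ω)
    (i : ZMod q) {z z' : ZMod q} (hz : z ≠ z') :
    Ex (law Λ U p) (fun a => w (Un T a U) (nx T Λ U p) i z * w (Un T a U) (nx T Λ U p) i z') ≤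
      w U p i z * w U p i z' + KK m κ' ^ 2 * (5 * m ^ 3 * KK m κ ^ 2 / q) := by
  have hK0 : 0 ≤ KK m κ := zero_le_one.trans (one_le_KK hκ hκ1 m)
  have hK'0 : 0 ≤ KK m κ' := zero_le_one.trans (one_le_KK hκ' (hκκ'.trans hκ1) m)
  have hθ : 0 ≤ 5 * (m : ℝ) ^ 3 * KK m κ ^ 2 / q := by positivity
  have hdis : Disjoint (S q m i z) (S q m i z') := by
    rw [disjoint_left]
    intro ω h1 h2
    rw [Pool.Agent.H42.TreeCover.mem_S] at h1 h2
    exact hz (h1.symm.trans h2)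
  have hpp : ∀ ω, 0 < p ω := fun ω => hκ.trans_le (hp ω)
  have e0 : ∀ a, w (Un T a U) (nx T Λ U p) i z * w (Un T a U) (nx T Λ U p) i z' =
      if S q m i z ∪ S q m i z' ⊆ Un T a U then
        ∏ ω ∈ S q m i z ∪ S q m i z', (nx T Λ U p ω)⁻¹ else 0 := by
    intro a
    unfold w
    by_cases h1 : S q m i z ⊆ Un T a U
    · by_cases h2 : S q m i z' ⊆ Un T a U
      · rw [if_pos h1, if_pos h2, if_pos (union_subset h1 h2), prod_union hdis]
      · rw [if_neg h2, if_neg (fun h => h2 (subset_union_right.trans h)), mul_zero]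
    · rw [if_neg h1, if_neg (fun h => h1 (subset_union_left.trans h)), zero_mul]
  have e1 : (fun a => w (Un T a U) (nx T Λ U p) i z * w (Un T a U) (nx T Λ U p) i z') =
      fun a => if S q m i z ∪ S q m i z' ⊆ Un T a U then
        ∏ ω ∈ S q m i z ∪ S q m i z', (nx T Λ U p ω)⁻¹ else 0 := funext e0
  rw [e1]
  by_cases hS : S q m i z ∪ S q m i z' ⊆ U
  · have hc : (S q m i z ∪ S q m i z').card ≤ 2 * m := by
      refine (card_union_le _ _).trans ?_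
      have h1 := Pool.Agent.H42.TreeCover.S_card_le (m := m) i z
      have h2 := Pool.Agent.H42.TreeCover.S_card_le (m := m) i z'
      omega
    have h := mw_gen hm T Λ U hκ hκ1 hp hκ' hp' hS hc
    have h2 : ∏ ω ∈ S q m i z ∪ S q m i z', (nx T Λ U p ω)⁻¹ ≤ KK m κ' ^ 2 := by
      rw [prod_union hdis, sq]
      exact mul_le_mul (mw_prod_le hκ' (hκκ'.trans hκ1) hp' i z)
        (mw_prod_le hκ' (hκκ'.trans hκ1) hp' i z')
        (prod_nonneg fun ω _ => inv_nonneg.2 (hκ'.le.trans (hp' ω))) hK'0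
    have h3 := (abs_le.1 (h.trans (mul_le_mul_of_nonneg_right h2 hθ))).2
    have e2 : w U p i z * w U p i z' = ∏ ω ∈ S q m i z ∪ S q m i z', (p ω)⁻¹ := by
      unfold w
      rw [if_pos (subset_union_left.trans hS), if_pos (subset_union_right.trans hS), prod_union hdis]
    rw [e2]
    linarith
  · have e2 : (fun a => if S q m i z ∪ S q m i z' ⊆ Un T a U then
        ∏ ω ∈ S q m i z ∪ S q m i z', (nx T Λ U p ω)⁻¹ else 0) =
        fun _ : ZMod q → Option (ZMod q) => (0 : ℝ) := by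
      funext a
      exact if_neg fun h => hS (h.trans (Un_sub T a U))
    rw [e2, Ex_const (law_isP Λ U hpp)]
    have h1 := mul_nonneg (w_nonneg U hpp i z) (w_nonneg U hpp i z')
    have h2 := mul_nonneg (sq_nonneg (KK m κ')) hθ
    linarith

theorem momW (hm1 : 1 ≤ m) (hm : m ≤ q) (T : ZMod q → Finset (ZMod q)) (Λ : Finset (ZMod q))
    (U : Finset (Fin m × ZMod q)) {p : Fin m × ZMod q → ℝ} {κ κ' : ℝ} (hκ : 0 < κ) (hκ1 : κ ≤ 1)
    (hp : ∀ ω, κ ≤ p ω) (hκ' : 0 < κ') (hκκ' : κ' ≤ κ) (hp' : ∀ ω, κ' ≤ nx T Λ U p ω)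
    (i : ZMod q) :
    Ex (law Λ U p) (fun a => (W (Un T a U) (nx T Λ U p) i - W U p i) ^ 2) ≤
      20 * m ^ 3 * KK m κ' ^ 5 * q := by
  have hpp : ∀ ω, 0 < p ω := fun ω => hκ.trans_le (hp ω)
  have hP := law_isP Λ U hpp
  have hκ'1 : κ' ≤ 1 := hκκ'.trans hκ1
  have hK1 : 1 ≤ KK m κ := one_le_KK hκ hκ1 m
  have hK'1 : 1 ≤ KK m κ' := one_le_KK hκ' hκ'1 m
  have hKK : KK m κ ≤ KK m κ' := KK_mono hκ' hκκ' m
  have hq0 : (0 : ℝ) < q := by
    have : 0 < q := by omega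
    exact_mod_cast this
  have hm1' : (1 : ℝ) ≤ m := by exact_mod_cast hm1
  set K : ℝ := KK m κ with hK
  set K' : ℝ := KK m κ' with hK'
  set c : ℝ := 5 * m ^ 3 * K ^ 2 / q with hc
  have hc0 : 0 ≤ c := by positivity
  set w' : (ZMod q → Option (ZMod q)) → ZMod q → ℝ :=
    fun a z => w (Un T a U) (nx T Λ U p) i z with hw'
  have hw'0 : ∀ a z, 0 ≤ w' a z := fun a z => w_nonneg _ (fun ω => hκ'.trans_le (hp' ω)) _ _
  have hw'1 : ∀ a z, w' a z ≤ K' := fun a z => w_le _ hκ' hκ'1 hp' i z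
  have hwn : ∀ z, 0 ≤ w U p i z := fun z => w_nonneg U hpp i z
  have hWn : 0 ≤ W U p i := W_nonneg U hpp i
  have hWle : W U p i ≤ q * K := W_le U hκ hκ1 hp i
  -- the expansion
  have e1 : (fun a => (W (Un T a U) (nx T Λ U p) i - W U p i) ^ 2) =
      fun a => (∑ z, ∑ z', w' a z * w' a z') - (2 * W U p i) * (∑ z, w' a z) + W U p i ^ 2 := by
    funext a
    have h1 : W (Un T a U) (nx T Λ U p) i = ∑ z, w' a z := rfl
    rw [h1, ← sum_mul_sum]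
    ring
  have e2 : Ex (law Λ U p) (fun a => (W (Un T a U) (nx T Λ U p) i - W U p i) ^ 2) =
      (∑ z, ∑ z', Ex (law Λ U p) (fun a => w' a z * w' a z')) -
        (2 * W U p i) * (∑ z, Ex (law Λ U p) (fun a => w' a z)) + W U p i ^ 2 := by
    rw [e1, Ex_add, Ex_sub, Ex_mul_left, Ex_sum, Ex_sum, Ex_const hP]
    simp only [Ex_sum]
  rw [e2]
  have hcard : (univ : Finset (ZMod q)).card = q := by
    rw [card_univ, ZMod.card]
  -- second moment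
  have h2 : ∑ z, ∑ z', Ex (law Λ U p) (fun a => w' a z * w' a z') ≤
      W U p i ^ 2 + q * (q * (K' ^ 2 * c)) + q * K' ^ 2 := by
    have h3 : ∀ z z', Ex (law Λ U p) (fun a => w' a z * w' a z') ≤
        w U p i z * w U p i z' + K' ^ 2 * c + if z = z' then K' ^ 2 else 0 := by
      intro z z'
      by_cases hz : z = z'
      · rw [if_pos hz]
        have h4 := Ex_mono hP (f := fun a => w' a z * w' a z') (g := fun _ => K' ^ 2) (fun a => by
          rw [sq]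
          exact mul_le_mul (hw'1 a z) (hw'1 a z') (hw'0 a z') (by linarith))
        rw [Ex_const hP] at h4
        have h5 := mul_nonneg (hwn z) (hwn z')
        have h6 : 0 ≤ K' ^ 2 * c := by positivity
        linarith
      · rw [if_neg hz, add_zero]
        exact mw_two hm T Λ U hκ hκ1 hp hκ' hκκ' hp' i hz
    calc ∑ z, ∑ z', Ex (law Λ U p) (fun a => w' a z * w' a z')
        ≤ ∑ z, ∑ z', (w U p i z * w U p i z' + K' ^ 2 * c + if z = z' then K' ^ 2 else 0) :=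
          sum_le_sum fun z _ => sum_le_sum fun z' _ => h3 z z'
      _ = (∑ z, w U p i z) * (∑ z', w U p i z') + q * (q * (K' ^ 2 * c)) + q * K' ^ 2 := by
          simp only [sum_add_distrib, sum_const, hcard, nsmul_eq_mul, sum_ite_eq, mem_univ, if_true]
          rw [sum_mul_sum]
      _ = _ := by
          rw [sq (W U p i)]
          rfl
  -- first moment
  have h1 : W U p i - q * (K' * c) ≤ ∑ z, Ex (law Λ U p) (fun a => w' a z) := by
    calc W U p i - q * (K' * c) = ∑ z, (w U p i z - K' * c) := by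
          rw [sum_sub_distrib, sum_const, hcard, nsmul_eq_mul]
          rfl
      _ ≤ _ := sum_le_sum fun z _ => mw_one hm T Λ U hκ hκ1 hp hκ' hκκ' hp' i z
  have hqc : q * c = 5 * m ^ 3 * K ^ 2 := by
    rw [hc]
    field_simp
  have h3 : 2 * W U p i * (W U p i - q * (K' * c)) ≤
      2 * W U p i * (∑ z, Ex (law Λ U p) (fun a => w' a z)) :=
    mul_le_mul_of_nonneg_left h1 (by linarith)
  have h4 : (∑ z, ∑ z', Ex (law Λ U p) (fun a => w' a z * w' a z')) -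
        (2 * W U p i) * (∑ z, Ex (law Λ U p) (fun a => w' a z)) + W U p i ^ 2 ≤
      q * K' ^ 2 * (q * c) + q * K' ^ 2 + 2 * W U p i * K' * (q * c) := by
    nlinarith
  refine h4.trans ?_
  rw [hqc]
  have hm3 : (1 : ℝ) ≤ (m : ℝ) ^ 3 := one_le_pow₀ hm1'
  have hK2 : 1 ≤ K ^ 2 := one_le_pow₀ hK1
  have hC : 1 ≤ 5 * (m : ℝ) ^ 3 * K ^ 2 := by nlinarith
  have h5 : 2 * W U p i * K' * (5 * m ^ 3 * K ^ 2) ≤ 2 * (q * K') * K' * (5 * m ^ 3 * K ^ 2) := by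
    refine mul_le_mul_of_nonneg_right (mul_le_mul_of_nonneg_right ?_ (by linarith)) (by positivity)
    have : W U p i ≤ q * K' := hWle.trans (mul_le_mul_of_nonneg_left hKK hq0.le)
    linarith
  have h6 : q * K' ^ 2 ≤ q * K' ^ 2 * (5 * m ^ 3 * K ^ 2) := le_mul_of_one_le_right (by positivity) hC
  have h7 : K ^ 2 ≤ K' ^ 3 := by
    calc K ^ 2 ≤ K' ^ 2 := pow_le_pow_left₀ (by linarith) hKK 2
      _ ≤ K' ^ 3 := pow_le_pow_right₀ hK'1 (by norm_num)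
  calc q * K' ^ 2 * (5 * m ^ 3 * K ^ 2) + q * K' ^ 2 + 2 * W U p i * K' * (5 * m ^ 3 * K ^ 2)
      ≤ q * K' ^ 2 * (5 * m ^ 3 * K ^ 2) + q * K' ^ 2 * (5 * m ^ 3 * K ^ 2) +
        2 * (q * K') * K' * (5 * m ^ 3 * K ^ 2) := by linarith
    _ = 20 * m ^ 3 * (K' ^ 2 * K ^ 2) * q := by ring
    _ ≤ 20 * m ^ 3 * (K' ^ 2 * K' ^ 3) * q := by gcongr
    _ = 20 * m ^ 3 * K' ^ 5 * q := by ring

end Pool.Agent.H24.TC
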