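import Mathlib

/-!
# Module Prob: expectation for independent choices

`Ex P f = ∑ a, (∏ i, P i (a i)) * f a` for a function `f` of `a : ι → β`, where the `a i` are independent with laws `P i`.

PROOFS. `Ex_const`: `Finset.prod_univ_sum` (with `Fintype.piFinset_univ`) gives `∑ a, ∏ i, P i (a i) = ∏ i, ∑ b, P i b = 1`. `Ex_avoid`: the
indicator is `∏ i, if a i ∉ N i then 1 else 0` (as in `Ex_I` of `Pool/Agent/H42/TreeCoverCore.lean`), so the sum is
`∏ i, ∑ b, P i b * (if b ∉ N i then 1 else 0)`. `Ex_exists_le`: otherwise `f a > Ex P f` for every `a` of positive weight; the other `a` have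
weight `0`; as the weights add up to `1` there is an `a` of positive weight and `Ex P f > Ex P f`.
-/

set_option autoImplicit false

namespace Pool.Agent.H24.TC

open Finset

variable {ι β : Type} [Fintype ι] [DecidableEq ι] [Fintype β] [DecidableEq β]

/-- the expectation of `f` -/
noncomputable def Ex (P : ι → β → ℝ) (f : (ι → β) → ℝ) : ℝ := ∑ a, (∏ i, P i (a i)) * f a

/-- `P i` is a probability for every `i` -/
structure IsP (P : ι → β → ℝ) : Prop where
  nn : ∀ i b, 0 ≤ P i b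
  one : ∀ i, ∑ b, P i b = 1

private theorem weights_sum {P : ι → β → ℝ} (hP : IsP P) : ∑ a : ι → β, ∏ i, P i (a i) = 1 := by
  have h2 := Finset.prod_univ_sum (fun _ : ι => (Finset.univ : Finset β)) (fun i b => P i b)
  rw [Fintype.piFinset_univ] at h2
  rw [← h2]
  exact Finset.prod_eq_one fun i _ => hP.one i

theorem Ex_add (P : ι → β → ℝ) (f g : (ι → β) → ℝ) : Ex P (fun a => f a + g a) = Ex P f + Ex P g := by
  unfold Ex
  rw [← Finset.sum_add_distrib]
  exact Finset.sum_congr rfl fun a _ => by ring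

theorem Ex_sub (P : ι → β → ℝ) (f g : (ι → β) → ℝ) : Ex P (fun a => f a - g a) = Ex P f - Ex P g := by
  unfold Ex
  rw [← Finset.sum_sub_distrib]
  exact Finset.sum_congr rfl fun a _ => by ring

theorem Ex_mul_left (P : ι → β → ℝ) (c : ℝ) (f : (ι → β) → ℝ) :
    Ex P (fun a => c * f a) = c * Ex P f := by
  unfold Ex
  rw [Finset.mul_sum]
  exact Finset.sum_congr rfl fun a _ => by ring

theorem Ex_sum (P : ι → β → ℝ) {γ : Type*} (s : Finset γ) (f : γ → (ι → β) → ℝ) :
    Ex P (fun a => ∑ x ∈ s, f x a) = ∑ x ∈ s, Ex P (f x) := by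
  unfold Ex
  rw [Finset.sum_comm]
  exact Finset.sum_congr rfl fun a _ => by rw [Finset.mul_sum]

theorem Ex_mono {P : ι → β → ℝ} (hP : IsP P) {f g : (ι → β) → ℝ} (h : ∀ a, f a ≤ g a) :
    Ex P f ≤ Ex P g := by
  unfold Ex
  exact Finset.sum_le_sum fun a _ =>
    mul_le_mul_of_nonneg_left (h a) (Finset.prod_nonneg fun i _ => hP.nn i (a i))

theorem Ex_const {P : ι → β → ℝ} (hP : IsP P) (c : ℝ) : Ex P (fun _ => c) = c := by
  unfold Ex
  rw [← Finset.sum_mul, weights_sum hP, one_mul]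

theorem Ex_avoid {P : ι → β → ℝ} (hP : IsP P) (N : ι → Finset β) :
    Ex P (fun a => if ∀ i, a i ∉ N i then (1 : ℝ) else 0) = ∏ i, (1 - ∑ b ∈ N i, P i b) := by
  unfold Ex
  have h1 : ∀ a : ι → β, (∏ i, P i (a i)) * (if ∀ i, a i ∉ N i then (1 : ℝ) else 0) =
      ∏ i, (P i (a i) * (if a i ∉ N i then (1 : ℝ) else 0)) := by
    intro a
    rw [Finset.prod_mul_distrib]
    congr 1
    by_cases h : ∀ i, a i ∉ N i
    · rw [if_pos h]
      exact (Finset.prod_eq_one fun i _ => if_pos (h i)).symm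
    · rw [if_neg h]
      push Not at h
      obtain ⟨i, hi⟩ := h
      exact (Finset.prod_eq_zero (Finset.mem_univ i) (by simp [hi])).symm
  rw [Finset.sum_congr rfl fun a _ => h1 a]
  have h2 := Finset.prod_univ_sum (fun _ : ι => (Finset.univ : Finset β))
    (fun i b => P i b * (if b ∉ N i then (1 : ℝ) else 0))
  rw [Fintype.piFinset_univ] at h2
  rw [← h2]
  refine Finset.prod_congr rfl fun i _ => ?_
  have h3 : ∀ b, P i b * (if b ∉ N i then (1 : ℝ) else 0) = P i b - (if b ∈ N i then P i b else 0) := by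
    intro b
    by_cases hb : b ∈ N i
    · simp [hb]
    · simp [hb]
  rw [Finset.sum_congr rfl fun b _ => h3 b, Finset.sum_sub_distrib, hP.one i, Finset.sum_ite_mem,
    Finset.univ_inter]

theorem Ex_exists_le {P : ι → β → ℝ} (hP : IsP P) (f : (ι → β) → ℝ) :
    ∃ a : ι → β, (∀ i, 0 < P i (a i)) ∧ f a ≤ Ex P f := by
  by_contra hcon
  push Not at hcon
  have hw : ∀ a : ι → β, 0 ≤ ∏ i, P i (a i) := fun a => Finset.prod_nonneg fun i _ => hP.nn i (a i)
  have h0 : ∀ a : ι → β, (∏ i, P i (a i)) * Ex P f ≤ (∏ i, P i (a i)) * f a := by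
    intro a
    by_cases h : ∀ i, 0 < P i (a i)
    · exact mul_le_mul_of_nonneg_left (hcon a h).le (hw a)
    · push Not at h
      obtain ⟨i, hi⟩ := h
      have : ∏ i, P i (a i) = 0 :=
        Finset.prod_eq_zero (Finset.mem_univ i) (le_antisymm hi (hP.nn i (a i)))
      rw [this, zero_mul, zero_mul]
  have h1 : ∃ a : ι → β, 0 < ∏ i, P i (a i) := by
    by_contra hno
    push Not at hno
    have h2 : ∑ a : ι → β, ∏ i, P i (a i) ≤ 0 := Finset.sum_nonpos fun a _ => hno a
    rw [weights_sum hP] at h2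
    linarith
  obtain ⟨a, ha⟩ := h1
  have ha' : ∀ i, 0 < P i (a i) := by
    intro i
    refine lt_of_le_of_ne (hP.nn i (a i)) fun h => ?_
    rw [Finset.prod_eq_zero (Finset.mem_univ i) h.symm] at ha
    exact lt_irrefl _ ha
  have h2 : ∑ a : ι → β, (∏ i, P i (a i)) * Ex P f < ∑ a : ι → β, (∏ i, P i (a i)) * f a :=
    Finset.sum_lt_sum (fun a _ => h0 a)
      ⟨a, Finset.mem_univ a, mul_lt_mul_of_pos_left (hcon a ha') ha⟩
  rw [← Finset.sum_mul, weights_sum hP, one_mul] at h2
  exact lt_irrefl _ h2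

end Pool.Agent.H24.TC
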