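import Pool.Agent.H42.TreeCoverCore2
import Pool.Agent.H24.TC.Prob

/-!
# The nibble: definitions

Points `(k, y)`, `k < m`, `y` in `ZMod q`; `L q m i ω` is the intercept of the line of slope `i` through `ω`, `S q m i z` is the line (see
`H42/TreeCoverCore.lean`). A state is a set `U` of uncovered points with a function `p` (think of `p ω` as the probability that `ω` is uncovered).
In one phase every slope `i` chooses at most one line `a i`, the line `z` with probability `pr Λ U p i z`; the forbidden lines `z ∈ T i` cover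
nothing.
-/

set_option autoImplicit false

namespace Pool.Agent.H24.TC

open Finset
open Pool.Agent.H42.TreeCover (L S)

variable {q m : ℕ} [NeZero q]

/-- the weight of a line: `∏ 1 / p ω` if all its points are uncovered, and `0` otherwise -/
noncomputable def w (U : Finset (Fin m × ZMod q)) (p : Fin m × ZMod q → ℝ) (i z : ZMod q) : ℝ :=
  if S q m i z ⊆ U then ∏ ω ∈ S q m i z, (p ω)⁻¹ else 0

/-- total weight of the lines of slope `i` -/
noncomputable def W (U : Finset (Fin m × ZMod q)) (p : Fin m × ZMod q → ℝ) (i : ZMod q) : ℝ :=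
  ∑ z, w U p i z

/-- total weight of the lines through `ω` with slope in `D` -/
noncomputable def Z (U : Finset (Fin m × ZMod q)) (p : Fin m × ZMod q → ℝ) (D : Finset (ZMod q))
    (ω : Fin m × ZMod q) : ℝ := ∑ i ∈ D, w U p i (L q m i ω)

/-- the probability of the line -/
noncomputable def pr (Λ : Finset (ZMod q)) (U : Finset (Fin m × ZMod q)) (p : Fin m × ZMod q → ℝ)
    (i z : ZMod q) : ℝ := if i ∈ Λ ∧ W U p i ≤ 2 * q then w U p i z / (2 * q) else 0

/-- the law of the choice of slope `i` -/
noncomputable def law (Λ : Finset (ZMod q)) (U : Finset (Fin m × ZMod q))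
    (p : Fin m × ZMod q → ℝ) (i : ZMod q) : Option (ZMod q) → ℝ
  | none => 1 - ∑ z, pr Λ U p i z
  | some z => pr Λ U p i z

/-- the probability that slope `i` covers `ω` -/
noncomputable def pt (T : ZMod q → Finset (ZMod q)) (Λ : Finset (ZMod q))
    (U : Finset (Fin m × ZMod q)) (p : Fin m × ZMod q → ℝ) (i : ZMod q) (ω : Fin m × ZMod q) : ℝ :=
  if L q m i ω ∈ T i then 0 else pr Λ U p i (L q m i ω)

/-- the next `p` -/
noncomputable def nx (T : ZMod q → Finset (ZMod q)) (Λ : Finset (ZMod q))
    (U : Finset (Fin m × ZMod q)) (p : Fin m × ZMod q → ℝ) (ω : Fin m × ZMod q) : ℝ :=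
  p ω * ∏ i, (1 - pt T Λ U p i ω)

/-- the next set of uncovered points -/
def Un (T : ZMod q → Finset (ZMod q)) (a : ZMod q → Option (ZMod q))
    (U : Finset (Fin m × ZMod q)) : Finset (Fin m × ZMod q) :=
  U.filter fun ω => ∀ i, a i = some (L q m i ω) → L q m i ω ∈ T i

/-- the allowed slopes of `ω` in `Λ` -/
def Dd (T : ZMod q → Finset (ZMod q)) (Λ : Finset (ZMod q)) (ω : Fin m × ZMod q) :
    Finset (ZMod q) := Λ.filter fun i => L q m i ω ∉ T i

/-- bound for the weights -/
noncomputable def KK (m : ℕ) (κ : ℝ) : ℝ := κ⁻¹ ^ m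

end Pool.Agent.H24.TC
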