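import Pool.Agent.H24.TC.Red
import Pool.Agent.H24.TC.Blocks

/-!
# Module Num: choice of the parameters

`ℓ = log (1/δ) ≥ 1`, `a = ⌊ℓ/L₁⌋ + 1`, so `a L₁ > ℓ`, `exp(-L₁)^a = exp(-a L₁) < exp(-ℓ) = δ < 1`, and `a ≤ 2 ℓ / min ℓ L₁` (if `ℓ < L₁` then `a = 1`, else
`a ≤ ℓ/L₁ + 1 ≤ 2ℓ/L₁`). `n = (r-1)/(4 a F)` (division in `ℕ`), `q` a prime with `n < q ≤ 2n` (`Nat.exists_prime_lt_and_le_two_mul`), so `2 a F q + 1 ≤ 4 a F n + 1 ≤ r`. With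
`C = 16 F (q₀ + 8)` (as `a ≤ 2ℓ`): `r ≥ C ℓ ≥ 8 a F (q₀ + 8)`, `n + 1 > (r-1)/(4aF)` (real division), so `q ≥ n + 1 ≥ (r-1)/(4aF) ≥ r/(8aF) ≥ q₀ + 8`. `tcr_ge` for the `2a` blocks: `tcr r δ ≥ a (q²/8) + 1` (division in
`ℕ`, `q²/8 ≥ q²/16` as a real number for `q ≥ 8`), `a q²/16 ≥ a (r/(8aF))²/16 = r²/(1024 a F²) ≥ r² min ℓ L₁ / (2048 F² ℓ)`.
-/

set_option autoImplicit false

namespace Pool.Agent.H24.TC

theorem num {F q₀ : ℕ} {L₁ : ℝ} (hF : 1 ≤ F) (hL₁ : 1 ≤ L₁)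
    (hb : ∀ q : ℕ, q₀ ≤ q → q.Prime → Sys (F * q) (q ^ 2 / 8) (Real.exp (-L₁))) :
    ∃ C : ℝ, ∀ (r : ℕ) (δ : ℝ), 0 < δ → 1 ≤ Real.log (1 / δ) → C * Real.log (1 / δ) ≤ r →
      ENNReal.ofReal (1 / (2048 * F ^ 2) * r * (r / Real.log (1 / δ)) *
        min (Real.log (1 / δ)) L₁) ≤ tcr r δ := by
  refine ⟨16 * F * (q₀ + 8), fun r δ hδ hℓ hr => ?_⟩
  set ℓ := Real.log (1 / δ) with hℓdef
  have hℓ0 : 0 < ℓ := by linarith
  have hF' : (1 : ℝ) ≤ F := by exact_mod_cast hF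
  have hq₀' : (0 : ℝ) ≤ q₀ := Nat.cast_nonneg _
  have hexpl : Real.exp (-ℓ) = δ := by
    rw [hℓdef, one_div, Real.log_inv, neg_neg, Real.exp_log hδ]
  have hδ1 : δ < 1 := by
    rw [← hexpl, Real.exp_lt_one_iff]
    linarith
  -- the number of factors
  set a : ℕ := ⌊ℓ / L₁⌋₊ + 1 with ha
  have hL0 : 0 < L₁ := by linarith
  have ha1 : 1 ≤ a := by omega
  have haR : (1 : ℝ) ≤ a := by exact_mod_cast ha1
  have haL : ℓ < a * L₁ := by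
    have := Nat.lt_floor_add_one (ℓ / L₁)
    rw [div_lt_iff₀ hL0] at this
    rw [ha]
    push_cast
    exact this
  have hpow : Real.exp (-L₁) ^ a < δ := by
    rw [← Real.exp_nat_mul, ← hexpl]
    apply Real.exp_lt_exp.2
    linarith
  have hm1 : 1 ≤ min ℓ L₁ := le_min hℓ hL₁
  have hamin : a * min ℓ L₁ ≤ 2 * ℓ := by
    rcases lt_or_ge ℓ L₁ with h | h
    · have hfl : ⌊ℓ / L₁⌋₊ = 0 := by
        rw [Nat.floor_eq_zero, div_lt_one hL0]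
        exact h
      rw [ha, hfl, min_eq_left h.le]
      push_cast
      linarith
    · have h1 : (⌊ℓ / L₁⌋₊ : ℝ) ≤ ℓ / L₁ := Nat.floor_le (by positivity)
      have h2 : (⌊ℓ / L₁⌋₊ : ℝ) * L₁ ≤ ℓ := by rwa [le_div_iff₀ hL0] at h1
      rw [ha, min_eq_right h]
      push_cast
      linarith
  have ha2 : (a : ℝ) ≤ 2 * ℓ := by
    have : (a : ℝ) * 1 ≤ a * min ℓ L₁ := mul_le_mul_of_nonneg_left hm1 (by linarith)
    linarith
  have haF : 1 ≤ a * F := Nat.mul_pos ha1 hF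
  have haFR : (1 : ℝ) ≤ (a : ℝ) * F := by exact_mod_cast haF
  -- `r` is large
  have hrbig : 8 * (a * F) * (q₀ + 8) ≤ r := by
    have h1 : (a : ℝ) * (8 * F * (q₀ + 8)) ≤ 2 * ℓ * (8 * F * (q₀ + 8)) :=
      mul_le_mul_of_nonneg_right ha2 (by positivity)
    have h2 : (8 * ((a : ℝ) * F) * (q₀ + 8)) ≤ r := by nlinarith
    exact_mod_cast h2
  have hr64 : 64 * (a * F) ≤ r := by nlinarith
  set n : ℕ := (r - 1) / (4 * (a * F)) with hn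
  have h4 : 0 < 4 * (a * F) := by omega
  have hnle : 4 * (a * F) * n ≤ r - 1 := Nat.mul_div_le _ _
  have hnlt : r - 1 < 4 * (a * F) * (n + 1) := by
    have := Nat.lt_mul_div_succ (r - 1) h4
    exact this
  have hn0 : n ≠ 0 := by
    intro h0
    rw [h0] at hnlt
    omega
  obtain ⟨q, hqp, hq1, hq2⟩ := Nat.exists_prime_lt_and_le_two_mul n hn0
  have hrq : r ≤ 4 * (a * F) * q := by
    have : 4 * (a * F) * (n + 1) ≤ 4 * (a * F) * q := Nat.mul_le_mul_left _ hq1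
    omega
  have hqbig : 2 * (q₀ + 8) ≤ q := by
    by_contra hcon
    push Not at hcon
    have h1 : 4 * (a * F) * q < 4 * (a * F) * (2 * (q₀ + 8)) :=
      Nat.mul_lt_mul_of_pos_left hcon h4
    have h2 : 4 * (a * F) * (2 * (q₀ + 8)) = 8 * (a * F) * (q₀ + 8) := by ring
    omega
  have hsys := (hb q (by omega) hqp).blocks (Real.exp_pos _).le
    (Real.exp_le_one_iff.2 (by linarith)) ha1
  have hkr : 2 * a * (F * q) + 1 ≤ r := by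
    have h1 : 2 * a * (F * q) ≤ 4 * (a * F) * n := by
      calc 2 * a * (F * q) = 2 * (a * F) * q := by ring
        _ ≤ 2 * (a * F) * (2 * n) := Nat.mul_le_mul_left _ hq2
        _ = 4 * (a * F) * n := by ring
    omega
  have hfin := tcr_ge hsys hkr (by positivity) hpow hδ1
  refine le_trans ?_ hfin
  rw [show ((a * (q ^ 2 / 8) + 1 : ℕ) : ENNReal) = ENNReal.ofReal ((a * (q ^ 2 / 8) + 1 : ℕ) : ℝ) from
    (ENNReal.ofReal_natCast _).symm]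
  apply ENNReal.ofReal_le_ofReal
  -- the final estimate
  have hq16 : (q : ℝ) ^ 2 / 16 ≤ ((q ^ 2 / 8 : ℕ) : ℝ) := by
    have h1 : q ^ 2 ≤ 16 * (q ^ 2 / 8) := by
      have h3 : 16 ≤ q ^ 2 := by nlinarith
      omega
    have h2 : ((q : ℝ)) ^ 2 ≤ 16 * ((q ^ 2 / 8 : ℕ) : ℝ) := by exact_mod_cast h1
    linarith
  have hrqR : (r : ℝ) ≤ 4 * (a * F) * q := by exact_mod_cast hrq
  have hr0 : (0 : ℝ) ≤ r := Nat.cast_nonneg _
  have hrsq : (r : ℝ) ^ 2 ≤ (4 * (a * F) * q) ^ 2 := pow_le_pow_left₀ hr0 hrqR 2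
  have hgoal : 1 / (2048 * (F : ℝ) ^ 2) * r * (r / ℓ) * min ℓ L₁ ≤ a * ((q : ℝ) ^ 2 / 16) := by
    have e1 : 1 / (2048 * (F : ℝ) ^ 2) * r * (r / ℓ) * min ℓ L₁ =
        (r ^ 2 * min ℓ L₁) / (2048 * F ^ 2 * ℓ) := by
      field_simp
    rw [e1, div_le_iff₀ (by positivity)]
    calc (r : ℝ) ^ 2 * min ℓ L₁ ≤ (4 * (a * F) * q) ^ 2 * min ℓ L₁ :=
          mul_le_mul_of_nonneg_right hrsq (by linarith)
      _ = 16 * a * F ^ 2 * q ^ 2 * (a * min ℓ L₁) := by ring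
      _ ≤ 16 * a * F ^ 2 * q ^ 2 * (2 * ℓ) := mul_le_mul_of_nonneg_left hamin (by positivity)
      _ ≤ a * ((q : ℝ) ^ 2 / 16) * (2048 * F ^ 2 * ℓ) := by
          have : 0 ≤ (a : ℝ) * F ^ 2 * q ^ 2 * ℓ := by positivity
          nlinarith
  have hcast : ((a * (q ^ 2 / 8) + 1 : ℕ) : ℝ) = a * ((q ^ 2 / 8 : ℕ) : ℝ) + 1 := by
    push_cast
    ring
  rw [hcast]
  have hlast : (a : ℝ) * ((q : ℝ) ^ 2 / 16) ≤ a * ((q ^ 2 / 8 : ℕ) : ℝ) :=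
    mul_le_mul_of_nonneg_left hq16 (by linarith)
  linarith

end Pool.Agent.H24.TC
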