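import Pool.Agent.H24.TC.Defs

/-!
# Module Red: from a set system to a coloured graph

The construction and the proof of `Pool/Agent/Results/MP_3e3c2c_co/TreeCoverDisproof.lean` (helper42) for an abstract set system. Special vertices:
`Sp = {v : C → Option A | at most η |Ω| points are uncovered}`; typical vertices: `Ω × Fin N`. Colours `Option C` injected in `Fin r`. The minimum degree is at least
`(1 - δ) n`, `n = |Ω| N + |Sp|`, for all large `N`. Every monochromatic tree has a pair `(c, z)` with `v c = some z` for all its special vertices `v`; so a cover by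
at most `t` trees gives a set `T` of at most `t` pairs, and a selection avoiding `T` (a special vertex) is not covered.
-/

set_option autoImplicit false

namespace Pool.Agent.H24.TC

open Finset

/-- The minimum in the definition of `tc` is attained. -/
lemma exists_cover {V : Type*} [Finite V] (G : SimpleGraph V) {r : ℕ} (hr : 0 < r)
    (χ : G.edgeSet → Fin r) : ∃ F : Finset G.Subgraph, IsTreeCover G χ F ∧ F.card = tc G χ := by
  classical
  have := Fintype.ofFinite V
  have hne : {k : ℕ | ∃ F : Finset G.Subgraph, IsTreeCover G χ F ∧ F.card = k}.Nonempty := by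
    refine ⟨_, Finset.univ.image (fun v => G.singletonSubgraph v), ⟨?_, ?_⟩, rfl⟩
    · intro H hH
      rw [mem_image] at hH
      obtain ⟨v, _, rfl⟩ := hH
      refine ⟨SimpleGraph.IsTree.coe_singletonSubgraph G v, ⟨0, hr⟩, ?_⟩
      intro e he
      exfalso
      simp at he
    · intro v
      exact ⟨G.singletonSubgraph v, mem_image_of_mem _ (mem_univ v), by simp⟩
  exact Nat.sInf_mem hne


/-! ### The graph built from a set system -/

section construction

variable {Ω C A Sp V : Type*} (val : C → Ω → A) (sel : Sp → C → Option A) (lab : V → Ω ⊕ Sp)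

/-- the value of colour `c` at the vertex `x` -/
def vl (c : C) (x : V) : Option A :=
  match lab x with
  | Sum.inl ω => some (val c ω)
  | Sum.inr v => sel v c

/-- typical vertices -/
def Typ (x : V) : Prop := ∃ ω, lab x = Sum.inl ω

/-- the graph -/
def gr : SimpleGraph V where
  Adj x y := x ≠ y ∧ ((Typ lab x ∧ Typ lab y) ∨
    (((Typ lab x ∧ ¬ Typ lab y) ∨ (¬ Typ lab x ∧ Typ lab y)) ∧
      ∃ c, vl val sel lab c x = vl val sel lab c y))
  symm := ⟨by
    rintro x y ⟨h1, h2 | ⟨h2, c, hc⟩⟩
    · exact ⟨h1.symm, Or.inl h2.symm⟩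
    · refine ⟨h1.symm, Or.inr ⟨?_, c, hc.symm⟩⟩
      rcases h2 with h2 | h2
      · exact Or.inr h2.symm
      · exact Or.inl h2.symm⟩
  loopless := ⟨fun x h => h.1 rfl⟩

open Classical in
/-- the colour of a pair; `none` is the extra colour -/
noncomputable def col (e : Sym2 V) : Option C :=
  if h : ∃ c, ∃ x y, e = s(x, y) ∧ ¬ (Typ lab x ∧ Typ lab y) ∧
    vl val sel lab c x = vl val sel lab c y then some h.choose else none

lemma col_some {x y : V} {c : C} (h : col val sel lab s(x, y) = some c) :
    vl val sel lab c x = vl val sel lab c y := by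
  unfold col at h
  split_ifs at h with h1
  obtain ⟨x', y', h2, _, h3⟩ := h1.choose_spec
  have h4 : h1.choose = c := Option.some.inj h
  rw [h4] at h3
  rcases Sym2.eq_iff.1 h2 with ⟨rfl, rfl⟩ | ⟨rfl, rfl⟩
  · exact h3
  · exact h3.symm

lemma col_none {x y : V} (hadj : (gr val sel lab).Adj x y)
    (h : col val sel lab s(x, y) = none) : Typ lab x ∧ Typ lab y := by
  unfold col at h
  split_ifs at h with h1
  by_contra h2
  apply h1
  rcases hadj.2 with h3 | ⟨_, c, hc⟩
  · exact absurd h3 h2
  · exact ⟨c, x, y, rfl, h2, hc⟩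

lemma exists_pick [Nonempty C] [Nonempty A] (H : (gr val sel lab).Subgraph)
    (hH : H.coe.Connected) (c₀ : Option C) (hcol : ∀ e ∈ H.edgeSet, col val sel lab e = c₀)
    (hcov : ∀ v : Sp, ∃ c z, sel v c = some z) :
    ∃ p : C × A, ∀ x ∈ H.verts, ∀ v, lab x = Sum.inr v → sel v p.1 = some p.2 := by
  by_cases hsp : ∃ x₀ ∈ H.verts, ∃ v₀, lab x₀ = Sum.inr v₀
  · obtain ⟨x₀, hx₀, v₀, hv₀⟩ := hsp
    have hnt : ¬ Typ lab x₀ := by
      rintro ⟨ω, hω⟩; rw [hv₀] at hω; exact absurd hω (by simp)
    by_cases hone : ∀ y ∈ H.verts, y = x₀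
    · obtain ⟨c, z, hcz⟩ := hcov v₀
      refine ⟨(c, z), fun x hx v hv => ?_⟩
      rw [hone x hx, hv₀] at hv
      rw [← Sum.inr.inj hv]; exact hcz
    · push Not at hone
      obtain ⟨y, hy, hyx⟩ := hone
      -- a first edge
      obtain ⟨y', hy'⟩ : ∃ y', H.Adj x₀ y' := by
        have hr := hH.preconnected ⟨x₀, hx₀⟩ ⟨y, hy⟩
        obtain ⟨w⟩ := hr
        cases w with
        | nil => exact absurd rfl hyx
        | cons h _ => exact ⟨_, h⟩
      have hc := hcol s(x₀, y') (by simpa using hy')
      have hadj : (gr val sel lab).Adj x₀ y' := H.adj_sub hy'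
      cases hc₀ : c₀ with
      | none =>
        rw [hc₀] at hc
        exact absurd (col_none val sel lab hadj hc).1 hnt
      | some c =>
        rw [hc₀] at hc
        have h1 := col_some val sel lab hc
        have hty : Typ lab y' := by
          rcases hadj.2 with h | ⟨h | h, _⟩
          · exact absurd h.1 hnt
          · exact absurd h.1 hnt
          · exact h.2
        obtain ⟨ω, hω⟩ := hty
        have h2 : vl val sel lab c y' = some (val c ω) := by simp only [vl, hω]
        have h3 : ∀ x (hx : x ∈ H.verts), vl val sel lab c x = some (val c ω) := by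
          intro x hx
          rw [← h2, ← h1]
          have hr := hH.preconnected ⟨x, hx⟩ ⟨x₀, hx₀⟩
          obtain ⟨w⟩ := hr
          have key : ∀ (a b : H.verts) (w : H.coe.Walk a b),
              vl val sel lab c a = vl val sel lab c b := by
            intro a b w
            induction w with
            | nil => rfl
            | @cons a b' d h _ ih =>
              rw [← ih]
              have h4 := hcol s((a : V), (b' : V)) (by simpa using h)
              rw [hc₀] at h4
              exact col_some val sel lab h4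
          exact key _ _ w
        refine ⟨(c, val c ω), fun x hx v hv => ?_⟩
        have h5 := h3 x hx
        simpa only [vl, hv] using h5
  · push Not at hsp
    obtain ⟨c⟩ := ‹Nonempty C›
    obtain ⟨z⟩ := ‹Nonempty A›
    exact ⟨(c, z), fun x hx v hv => absurd hv (hsp x hx v)⟩

end construction



/-! ### The lower bound -/

/-- The lower bound for the cover number. -/
lemma tc_gt {Ω C A : Type} [Nonempty C] [Nonempty A] {V : Type*} [Finite V] (val : C → Ω → A)
    {t r : ℕ} {P : (C → Option A) → Prop} (hcov : ∀ v : {v // P v}, ∃ c z, v.1 c = some z)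
    (hT : ∀ T : Finset (C × A), T.card ≤ t → ∃ v : {v // P v}, ∀ c z, v.1 c = some z → (c, z) ∉ T)
    (lab : V → Ω ⊕ {v // P v}) (hlab : ∀ v, ∃ x, lab x = Sum.inr v)
    (e : Option C ↪ Fin r) (hr : 0 < r) :
    t < tc (gr val (fun v : {v // P v} => v.1) lab)
      (fun ed => e (col val (fun v : {v // P v} => v.1) lab ed.1)) := by
  classical
  set G := gr val (fun v : {v // P v} => v.1) lab with hG
  set χ : G.edgeSet → Fin r :=
    fun ed => e (col val (fun v : {v // P v} => v.1) lab ed.1) with hχ
  obtain ⟨F, ⟨hF1, hF2⟩, hF3⟩ := exists_cover G hr χ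
  rw [← hF3]
  by_contra hcon
  push Not at hcon
  obtain ⟨c1⟩ := ‹Nonempty C›
  obtain ⟨z1⟩ := ‹Nonempty A›
  have : Nonempty C := ⟨c1⟩
  have : Nonempty A := ⟨z1⟩
  have hpick : ∀ H : G.Subgraph, ∃ p : C × A,
      H ∈ F → ∀ x ∈ H.verts, ∀ v, lab x = Sum.inr v → v.1 p.1 = some p.2 := by
    intro H
    by_cases hH : H ∈ F
    · obtain ⟨htree, c, hc⟩ := hF1 H hH
      have hc0 : ∃ c₀ : Option C, ∀ ed ∈ H.edgeSet,
          col val (fun v : {v // P v} => v.1) lab ed = c₀ := by
        by_cases hex : ∃ c₀, e c₀ = c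
        · obtain ⟨c₀, hc₀⟩ := hex
          refine ⟨c₀, fun ed hed => ?_⟩
          have h1 := hc ed hed
          simp only [hχ] at h1
          exact e.injective (h1.trans hc₀.symm)
        · refine ⟨none, fun ed hed => ?_⟩
          have h1 := hc ed hed
          simp only [hχ] at h1
          exact absurd ⟨_, h1⟩ hex
      obtain ⟨c₀, hc₀⟩ := hc0
      obtain ⟨p, hp⟩ := exists_pick val (fun v : {v // P v} => v.1) lab H
        htree.connected c₀ hc₀ hcov
      exact ⟨p, fun _ => hp⟩
    · exact ⟨(c1, z1), fun h => absurd h hH⟩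
  choose pick hpick using hpick
  obtain ⟨v, hv⟩ := hT (F.image pick) (by
    have := Finset.card_image_le (s := F) (f := pick)
    omega)
  obtain ⟨x, hx⟩ := hlab v
  obtain ⟨H, hHF, hxH⟩ := hF2 x
  have h1 := hpick H hHF x hxH v hx
  exact hv _ _ h1 (mem_image_of_mem pick hHF)

open Classical in
/-- uncovered points -/
noncomputable def Unc {Ω C A : Type} [Fintype Ω] (val : C → Ω → A) (v : C → Option A) : Finset Ω :=
  univ.filter fun ω : Ω => ∀ c, v c ≠ some (val c ω)

lemma mem_Unc {Ω C A : Type} [Fintype Ω] (val : C → Ω → A) (v : C → Option A) (ω : Ω) :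
    ω ∈ Unc val v ↔ ∀ c, v c ≠ some (val c ω) := by
  classical
  unfold Unc
  simp only [mem_filter, mem_univ, true_and]

/-- The good selections. -/
abbrev GSel {Ω C A : Type} [Fintype Ω] (val : C → Ω → A) (η : ℝ) : Type :=
  {v : C → Option A // ((Unc val v).card : ℝ) ≤ η * (Fintype.card Ω : ℝ)}

/-- Blow-up: on infinitely many numbers of vertices there is a dense coloured graph with large
tree cover number. -/
lemma exists_graph {Ω C A : Type} [Fintype Ω] [Nonempty Ω] [Fintype C] [Fintype A]
    [Nonempty C] [Nonempty A] (val : C → Ω → A) {t r : ℕ} {η δ : ℝ}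
    (hη : 0 ≤ η) (hη1 : η < 1) (hηδ : η < δ) (hδ : δ < 1) (hk : Fintype.card C + 1 ≤ r)
    (hT : ∀ T : Finset (C × A), T.card ≤ t → ∃ v : GSel val η, ∀ c z, v.1 c = some z → (c, z) ∉ T)
    (N : ℕ) (hN : 1 + (Nat.card (GSel val η) : ℝ) ≤ (δ - η) * (Fintype.card Ω * N)) :
    ∃ (G : SimpleGraph (Fin (Fintype.card Ω * N + Nat.card (GSel val η))))
      (χ : G.edgeSet → Fin r),
      (∀ v, (1 - δ) * ((Fintype.card Ω * N + Nat.card (GSel val η) : ℕ) : ℝ) ≤
        ((G.neighborSet v).ncard : ℝ)) ∧ t < tc G χ := by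
  classical
  have hΩ : (0 : ℝ) < Fintype.card Ω := by exact_mod_cast Fintype.card_pos
  set n := Fintype.card Ω * N + Nat.card (GSel val η) with hn
  have hfin : Fintype (GSel val η) := Fintype.ofFinite _
  have hcard : Fintype.card ((Ω × Fin N) ⊕ GSel val η) = n := by
    rw [Fintype.card_sum, Fintype.card_prod, Fintype.card_fin, hn, Nat.card_eq_fintype_card]
  set e0 : Fin n ≃ ((Ω × Fin N) ⊕ GSel val η) :=
    (Fintype.equivFinOfCardEq hcard).symm with he0
  set lab : Fin n → Ω ⊕ GSel val η := fun x => (e0 x).map Prod.fst id with hlabdef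
  have hlabl : ∀ (ω : Ω) (k : Fin N), lab (e0.symm (Sum.inl (ω, k))) = Sum.inl ω := by
    intro ω k; simp [hlabdef]
  have hlabr : ∀ v : GSel val η, lab (e0.symm (Sum.inr v)) = Sum.inr v := by
    intro v; simp [hlabdef]
  have hcardC : Fintype.card (Option C) ≤ Fintype.card (Fin r) := by
    rw [Fintype.card_option, Fintype.card_fin]; exact hk
  obtain ⟨e⟩ : Nonempty (Option C ↪ Fin r) := Function.Embedding.nonempty_of_card_le hcardC
  set G := gr val (fun v : GSel val η => v.1) lab with hG
  have hnr : (n : ℝ) = Fintype.card Ω * N + Nat.card (GSel val η) := by rw [hn]; push_cast; ring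
  have hMN : (0 : ℝ) ≤ Fintype.card Ω * N := by positivity
  have hSel : (0 : ℝ) ≤ Nat.card (GSel val η) := by positivity
  have hinj : Function.Injective (fun p : Ω × Fin N => e0.symm (Sum.inl p)) := by
    intro p p' h
    exact Sum.inl.inj (e0.symm.injective h)
  refine ⟨G, fun ed => e (col val (fun v : GSel val η => v.1) lab ed.1), ?_, ?_⟩
  · intro x
    rw [hnr]
    rcases hx : lab x with ω | v
    · set B : Finset (Fin n) := (Finset.univ.image
        (fun p : Ω × Fin N => e0.symm (Sum.inl p))).erase x with hB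
      have hBc : (Fintype.card Ω * N : ℝ) - 1 ≤ B.card := by
        have h1 : Fintype.card Ω * N - 1 ≤ B.card := by
          rw [hB]
          refine le_trans ?_ Finset.pred_card_le_card_erase
          rw [Finset.card_image_of_injective _ hinj, card_univ, Fintype.card_prod,
            Fintype.card_fin]
        have h2 : Fintype.card Ω * N ≤ B.card + 1 := by omega
        have h3 : (Fintype.card Ω * N : ℝ) ≤ B.card + 1 := by exact_mod_cast h2
        linarith
      have hsub : (B : Set (Fin n)) ⊆ G.neighborSet x := by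
        intro y hy
        rw [Finset.mem_coe, hB, Finset.mem_erase, mem_image] at hy
        obtain ⟨hyx, ⟨⟨ω', k⟩, _, rfl⟩⟩ := hy
        exact ⟨Ne.symm hyx, Or.inl ⟨⟨ω, hx⟩, ⟨ω', hlabl ω' k⟩⟩⟩
      have hle : B.card ≤ (G.neighborSet x).ncard := by
        rw [← Set.ncard_coe_finset B]
        exact Set.ncard_le_ncard hsub (Set.toFinite _)
      have hle' : (B.card : ℝ) ≤ ((G.neighborSet x).ncard : ℝ) := by exact_mod_cast hle
      have h5 : 0 ≤ η * (Fintype.card Ω * N : ℝ) := mul_nonneg hη hMN
      have h6 : 0 ≤ δ * (Nat.card (GSel val η) : ℝ) := mul_nonneg (by linarith) hSel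
      nlinarith
    · set B : Finset (Fin n) := ((Finset.univ \ Unc val v.1) ×ˢ (Finset.univ : Finset (Fin N))).image
        (fun p : Ω × Fin N => e0.symm (Sum.inl p)) with hB
      have hc1 : ((Finset.univ \ Unc val v.1).card : ℝ) = Fintype.card Ω - (Unc val v.1).card := by
        have h1 := Finset.card_sdiff_add_card_eq_card (Finset.subset_univ (Unc val v.1))
        rw [card_univ] at h1
        have h2 : ((Finset.univ \ Unc val v.1).card : ℝ) + (Unc val v.1).card = Fintype.card Ω := by
          exact_mod_cast h1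
        linarith
      have hBc : (B.card : ℝ) = (Fintype.card Ω - (Unc val v.1).card) * N := by
        rw [hB, Finset.card_image_of_injective _ hinj, card_product, card_univ, Fintype.card_fin]
        push_cast
        rw [hc1]
      have hsub : (B : Set (Fin n)) ⊆ G.neighborSet x := by
        intro y hy
        rw [Finset.mem_coe, hB, mem_image] at hy
        obtain ⟨⟨ω', k⟩, hmem, rfl⟩ := hy
        rw [mem_product, mem_sdiff] at hmem
        have hcv := hmem.1.2
        rw [mem_Unc] at hcv
        push Not at hcv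
        obtain ⟨c, hc⟩ := hcv
        have hnt : ¬ Typ lab x := by
          rintro ⟨ω, hω⟩; rw [hx] at hω; exact absurd hω (by simp)
        refine ⟨?_, Or.inr ⟨Or.inr ⟨hnt, ⟨ω', hlabl ω' k⟩⟩, c, ?_⟩⟩
        · intro hxy
          apply hnt
          rw [hxy]
          exact ⟨ω', hlabl ω' k⟩
        · simp only [vl, hx, hlabl]
          exact hc
      have hle : B.card ≤ (G.neighborSet x).ncard := by
        rw [← Set.ncard_coe_finset B]
        exact Set.ncard_le_ncard hsub (Set.toFinite _)
      have hle' : (B.card : ℝ) ≤ ((G.neighborSet x).ncard : ℝ) := by exact_mod_cast hle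
      have hv := v.2
      have hN0 : (0 : ℝ) ≤ N := by positivity
      have h4 : (Unc val v.1).card * (N : ℝ) ≤ η * (Fintype.card Ω : ℝ) * N :=
        mul_le_mul_of_nonneg_right hv hN0
      rw [hBc] at hle'
      have h6 : 0 ≤ δ * (Nat.card (GSel val η) : ℝ) := mul_nonneg (by linarith) hSel
      nlinarith
  · apply tc_gt val ?_ hT lab (fun v => ⟨_, hlabr v⟩) e (by omega)
    intro v
    by_contra h
    push Not at h
    have h1 : Unc val v.1 = univ := by
      rw [Finset.eq_univ_iff_forall]
      intro ω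
      rw [mem_Unc]
      intro c hc
      exact h c _ hc
    have h2 := v.2
    rw [h1, card_univ] at h2
    nlinarith

theorem tcr_ge {k t r : ℕ} {η δ : ℝ} (h : Sys k t η) (hk : k + 1 ≤ r) (hη : 0 ≤ η) (hηδ : η < δ)
    (hδ : δ < 1) : ((t + 1 : ℕ) : ENNReal) ≤ tcr r δ := by
  classical
  obtain ⟨Ω, C, A, _, _, _, _, val, hC, hT⟩ := h
  have hΩ : (0 : ℝ) < Fintype.card Ω := by exact_mod_cast Fintype.card_pos
  have hT' : ∀ T : Finset (C × A), T.card ≤ t →
      ∃ v : GSel val η, ∀ c z, v.1 c = some z → (c, z) ∉ T := by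
    intro T hTc
    obtain ⟨v, hv1, hv2⟩ := hT T hTc
    refine ⟨⟨v, ?_⟩, hv1⟩
    unfold Unc
    convert hv2
  obtain ⟨v0, _, hv0⟩ := hT ∅ (by simp)
  obtain ⟨c0, z0, hcz⟩ : ∃ c z, v0 c = some z := by
    by_contra hcon
    push Not at hcon
    have h1 : (univ.filter fun ω : Ω => ∀ c, v0 c ≠ some (val c ω)) = univ := by
      rw [Finset.filter_eq_self]
      intro ω _ c hc
      exact hcon c _ hc
    rw [h1, card_univ] at hv0
    nlinarith
  have : Nonempty C := ⟨c0⟩
  have : Nonempty A := ⟨z0⟩
  unfold tcr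
  apply Filter.le_limsup_of_frequently_le
  · rw [Filter.frequently_atTop]
    intro n₀
    have hδη : 0 < δ - η := by linarith
    obtain ⟨N, hN⟩ := exists_nat_ge
      (max (n₀ : ℝ) ((1 + (Nat.card (GSel val η) : ℝ)) / ((δ - η) * Fintype.card Ω)))
    have hN1 : (n₀ : ℝ) ≤ N := (le_max_left _ _).trans hN
    have hN2 : (1 + (Nat.card (GSel val η) : ℝ)) / ((δ - η) * Fintype.card Ω) ≤ N :=
      (le_max_right _ _).trans hN
    have hN2' : 1 + (Nat.card (GSel val η) : ℝ) ≤ (δ - η) * (Fintype.card Ω * N) := by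
      rw [div_le_iff₀ (by positivity)] at hN2
      linarith
    obtain ⟨G, χ, hdeg, htc⟩ := exists_graph val (r := r) hη (by linarith) hηδ hδ
      (by rw [hC]; exact hk) hT' N hN2'
    refine ⟨Fintype.card Ω * N + Nat.card (GSel val η), ?_, ?_⟩
    · have h1 : n₀ ≤ N := by exact_mod_cast hN1
      have h2 : 1 ≤ Fintype.card Ω := Fintype.card_pos
      have h3 : N ≤ Fintype.card Ω * N := Nat.le_mul_of_pos_left N h2
      omega
    · unfold maxTc
      refine le_trans ?_ (le_iSup_of_le G (le_iSup_of_le χ (le_iSup_of_le hdeg le_rfl)))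
      exact_mod_cast htc
  · isBoundedDefault

end Pool.Agent.H24.TC
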