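import Pool.Agent.H24.TC.Bas

/-!
# Module Surv: survival probabilities

PROOF. For `X ⊆ U` the event `X ⊆ Un T a U` is `∀ i, a i ∉ N i`, `N i = ((X.image (L q m i)) \ T i).image some`, so by `Ex_avoid` its probability is
`∏ i, A i`, `A i = 1 - ∑ z ∈ (X.image (L q m i)) \ T i, pr i z`. On the other side (as `p ω ≠ 0`) `∏ ω ∈ X, nx ω / p ω = ∏ ω ∈ X, ∏ i, (1 - pt i ω)
= ∏ i, B i`, `B i = ∏ ω ∈ X, (1 - pt i ω)`. All `A i`, `B i` are in `[0, 1]` (`sum_pr`, `pt_le_one`), so `|∏ A - ∏ B| ≤ ∑ i |A i - B i|`.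
With `x = K / (2q)`, `K = KK m κ ≥ 1`, `|X| ≤ 2m`:
(a) if `L q m i` is injective on `X`: `A i = 1 - ∑ ω ∈ X, pt i ω`, and `1 - ∑ y ≤ ∏ (1 - y) ≤ 1 - ∑ y + (∑ y)²` for `y ω` in `[0, 1]`
(induction on the set), so `|A i - B i| ≤ (2m x)² = m² K² / q²`; at most `q` such slopes;
(b) otherwise both are in `[1 - 2m x, 1]`, `|A i - B i| ≤ m K / q`; there are at most `|X|² ≤ 4m²` such slopes: choose for each of them a pair
`ω ≠ ω'` in `X` with `L q m i ω = L q m i ω'`; by `codeg_le_one` (two different points share at most one slope) the pair determines `i`.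
Total `m² K² / q + 4 m³ K / q ≤ 5 m³ K² / q` (`m ≥ 1`, else `X = ∅` and both sides are `1`).
`surv_one`: `X = {ω}`: `A i = B i` exactly.
-/

set_option autoImplicit false

namespace Pool.Agent.H24.TC

open Finset
open Pool.Agent.H42.TreeCover (L S)

variable {q m : ℕ} [Fact q.Prime]

private theorem prod_le_one' {ι : Type*} (s : Finset ι) {y : ι → ℝ} (h0 : ∀ i ∈ s, 0 ≤ y i)
    (h1 : ∀ i ∈ s, y i ≤ 1) : 0 ≤ ∏ i ∈ s, (1 - y i) ∧ ∏ i ∈ s, (1 - y i) ≤ 1 := by
  refine ⟨Finset.prod_nonneg fun i hi => by linarith [h1 i hi], Finset.prod_le_one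
    (fun i hi => by linarith [h1 i hi]) fun i hi => by linarith [h0 i hi]⟩

private theorem prod_bounds {ι : Type*} [DecidableEq ι] (s : Finset ι) {y : ι → ℝ}
    (h0 : ∀ i ∈ s, 0 ≤ y i) (h1 : ∀ i ∈ s, y i ≤ 1) :
    1 - ∑ i ∈ s, y i ≤ ∏ i ∈ s, (1 - y i) ∧
      ∏ i ∈ s, (1 - y i) ≤ 1 - ∑ i ∈ s, y i + (∑ i ∈ s, y i) ^ 2 := by
  induction s using Finset.induction_on with
  | empty => simp
  | insert a s ha ih =>
    have ih' := ih (fun i hi => h0 i (mem_insert_of_mem hi)) (fun i hi => h1 i (mem_insert_of_mem hi))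
    obtain ⟨p0, p1⟩ := prod_le_one' s (fun i hi => h0 i (mem_insert_of_mem hi))
      (fun i hi => h1 i (mem_insert_of_mem hi))
    have s0 : 0 ≤ ∑ i ∈ s, y i := Finset.sum_nonneg fun i hi => h0 i (mem_insert_of_mem hi)
    have a0 := h0 a (mem_insert_self a s)
    have a1 := h1 a (mem_insert_self a s)
    rw [Finset.prod_insert ha, Finset.sum_insert ha]
    obtain ⟨i1, i2⟩ := ih'
    constructor
    · nlinarith
    · nlinarith [mul_nonneg a0 s0, mul_nonneg a0 (sq_nonneg (∑ i ∈ s, y i)), mul_nonneg (sub_nonneg.2 a1) (sub_nonneg.2 i2)]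

private theorem prod_diff {ι : Type*} [DecidableEq ι] (s : Finset ι) {A B : ι → ℝ}
    (hA0 : ∀ i ∈ s, 0 ≤ A i) (hA1 : ∀ i ∈ s, A i ≤ 1) (hB0 : ∀ i ∈ s, 0 ≤ B i)
    (hB1 : ∀ i ∈ s, B i ≤ 1) :
    |∏ i ∈ s, A i - ∏ i ∈ s, B i| ≤ ∑ i ∈ s, |A i - B i| := by
  induction s using Finset.induction_on with
  | empty => simp
  | insert a s ha ih =>
    have ih' := ih (fun i hi => hA0 i (mem_insert_of_mem hi)) (fun i hi => hA1 i (mem_insert_of_mem hi))
      (fun i hi => hB0 i (mem_insert_of_mem hi)) (fun i hi => hB1 i (mem_insert_of_mem hi))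
    rw [Finset.prod_insert ha, Finset.prod_insert ha, Finset.sum_insert ha]
    have e : A a * ∏ i ∈ s, A i - B a * ∏ i ∈ s, B i =
        (A a - B a) * ∏ i ∈ s, A i + B a * (∏ i ∈ s, A i - ∏ i ∈ s, B i) := by ring
    rw [e]
    refine (abs_add_le _ _).trans (add_le_add ?_ ?_)
    · rw [abs_mul]
      have p0 : 0 ≤ ∏ i ∈ s, A i := Finset.prod_nonneg fun i hi => hA0 i (mem_insert_of_mem hi)
      have p1 : ∏ i ∈ s, A i ≤ 1 := Finset.prod_le_one (fun i hi => hA0 i (mem_insert_of_mem hi))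
        fun i hi => hA1 i (mem_insert_of_mem hi)
      rw [abs_of_nonneg p0]
      nlinarith [abs_nonneg (A a - B a)]
    · rw [abs_mul, abs_of_nonneg (hB0 a (mem_insert_self a s))]
      have := hB1 a (mem_insert_self a s)
      nlinarith [abs_nonneg (∏ i ∈ s, A i - ∏ i ∈ s, B i)]

private theorem ex_eq (T : ZMod q → Finset (ZMod q)) (Λ : Finset (ZMod q))
    (U : Finset (Fin m × ZMod q)) {p : Fin m × ZMod q → ℝ} (hp : ∀ ω, 0 < p ω)
    {X : Finset (Fin m × ZMod q)} (hX : X ⊆ U) :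
    Ex (law Λ U p) (fun a => if X ⊆ Un T a U then (1 : ℝ) else 0) =
      ∏ i, (1 - ∑ z ∈ (X.image (L q m i)) \ T i, pr Λ U p i z) := by
  have h1 : (fun a : ZMod q → Option (ZMod q) => if X ⊆ Un T a U then (1 : ℝ) else 0) =
      fun a => if ∀ i, a i ∉ ((X.image (L q m i)) \ T i).image some then (1 : ℝ) else 0 := by
    funext a
    have h2 : X ⊆ Un T a U ↔ ∀ i, a i ∉ ((X.image (L q m i)) \ T i).image some := by
      constructor
      · intro h i hi
        rw [mem_image] at hi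
        obtain ⟨z, hz, hza⟩ := hi
        rw [mem_sdiff, mem_image] at hz
        obtain ⟨⟨ω, hω, hωz⟩, hzT⟩ := hz
        have h3 := h hω
        unfold Un at h3
        rw [mem_filter] at h3
        have h4 := h3.2 i (by rw [← hza, hωz])
        rw [hωz] at h4
        exact hzT h4
      · intro h ω hω
        unfold Un
        rw [mem_filter]
        refine ⟨hX hω, fun i hi => ?_⟩
        by_contra hc
        apply h i
        rw [mem_image]
        exact ⟨L q m i ω, mem_sdiff.2 ⟨mem_image_of_mem _ hω, hc⟩, hi.symm⟩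
    by_cases hb : X ⊆ Un T a U
    · rw [if_pos hb, if_pos (h2.1 hb)]
    · rw [if_neg hb, if_neg (fun h => hb (h2.2 h))]
  rw [h1, Ex_avoid (law_isP Λ U hp)]
  refine Finset.prod_congr rfl fun i _ => ?_
  rw [Finset.sum_image (fun x _ y _ h => Option.some_injective _ h)]
  rfl

private theorem sum_sdiff_eq (T : ZMod q → Finset (ZMod q)) (Λ : Finset (ZMod q))
    (U : Finset (Fin m × ZMod q)) (p : Fin m × ZMod q → ℝ) (X : Finset (Fin m × ZMod q))
    (i : ZMod q) : ∑ z ∈ (X.image (L q m i)) \ T i, pr Λ U p i z =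
      ∑ z ∈ X.image (L q m i), (if z ∈ T i then 0 else pr Λ U p i z) := by
  rw [← Finset.sum_filter_add_sum_filter_not (X.image (L q m i)) (fun z => z ∈ T i)]
  have h1 : ∑ z ∈ (X.image (L q m i)).filter (fun z => z ∈ T i), (if z ∈ T i then (0 : ℝ) else pr Λ U p i z) = 0 := by
    refine Finset.sum_eq_zero fun z hz => ?_
    rw [if_pos (mem_filter.1 hz).2]
  have h2 : (X.image (L q m i)) \ T i = (X.image (L q m i)).filter (fun z => ¬ z ∈ T i) := by
    ext z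
    simp [mem_sdiff]
  rw [h1, zero_add, h2]
  refine Finset.sum_congr rfl fun z hz => ?_
  rw [if_neg (mem_filter.1 hz).2]

private theorem nx_div (T : ZMod q → Finset (ZMod q)) (Λ : Finset (ZMod q))
    (U : Finset (Fin m × ZMod q)) {p : Fin m × ZMod q → ℝ} (hp : ∀ ω, 0 < p ω)
    (ω : Fin m × ZMod q) : nx T Λ U p ω / p ω = ∏ i, (1 - pt T Λ U p i ω) := by
  unfold nx
  rw [mul_div_assoc, mul_comm, div_mul_cancel₀ _ (hp ω).ne']

theorem surv (hm : m ≤ q) (T : ZMod q → Finset (ZMod q)) (Λ : Finset (ZMod q))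
    (U : Finset (Fin m × ZMod q)) {p : Fin m × ZMod q → ℝ} {κ : ℝ} (hκ : 0 < κ) (hκ1 : κ ≤ 1)
    (hp : ∀ ω, κ ≤ p ω) {X : Finset (Fin m × ZMod q)} (hX : X ⊆ U) (hXc : X.card ≤ 2 * m) :
    |Ex (law Λ U p) (fun a => if X ⊆ Un T a U then (1 : ℝ) else 0) -
      ∏ ω ∈ X, (nx T Λ U p ω / p ω)| ≤ 5 * m ^ 3 * KK m κ ^ 2 / q := by
  classical
  have hpos : ∀ ω, 0 < p ω := fun ω => hκ.trans_le (hp ω)
  have hq : 0 < q := (Fact.out : q.Prime).pos
  have hqR : (0 : ℝ) < q := by exact_mod_cast hq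
  have hK := one_le_KK hκ hκ1 m
  rw [ex_eq T Λ U hpos hX]
  have e1 : ∏ ω ∈ X, (nx T Λ U p ω / p ω) = ∏ i, ∏ ω ∈ X, (1 - pt T Λ U p i ω) := by
    rw [Finset.prod_comm]
    exact Finset.prod_congr rfl fun ω _ => nx_div T Λ U hpos ω
  rw [e1]
  set A : ZMod q → ℝ := fun i => 1 - ∑ z ∈ (X.image (L q m i)) \ T i, pr Λ U p i z with hA
  set B : ZMod q → ℝ := fun i => ∏ ω ∈ X, (1 - pt T Λ U p i ω) with hB
  have y0 : ∀ i, ∀ ω ∈ X, 0 ≤ pt T Λ U p i ω := fun i ω _ => pt_nonneg T Λ U hpos i ω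
  have y1 : ∀ i, ∀ ω ∈ X, pt T Λ U p i ω ≤ 1 := fun i ω _ => pt_le_one T Λ U hpos i ω
  have hs0 : ∀ i, 0 ≤ ∑ z ∈ (X.image (L q m i)) \ T i, pr Λ U p i z := fun i =>
    Finset.sum_nonneg fun z _ => pr_nonneg Λ U hpos i z
  have hs1 : ∀ i, ∑ z ∈ (X.image (L q m i)) \ T i, pr Λ U p i z ≤ 1 := fun i =>
    (Finset.sum_le_sum_of_subset_of_nonneg (Finset.subset_univ _)
      (fun z _ _ => pr_nonneg Λ U hpos i z)).trans (sum_pr Λ U hpos i)
  have hA0 : ∀ i, 0 ≤ A i := fun i => by simp only [hA]; linarith [hs1 i]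
  have hA1 : ∀ i, A i ≤ 1 := fun i => by simp only [hA]; linarith [hs0 i]
  have hBb : ∀ i, 0 ≤ B i ∧ B i ≤ 1 := fun i => prod_le_one' X (y0 i) (y1 i)
  have hsum : ∀ i, ∑ ω ∈ X, pt T Λ U p i ω ≤ m * KK m κ / q := by
    intro i
    have h1 : ∑ ω ∈ X, pt T Λ U p i ω ≤ X.card • (KK m κ / (2 * q)) :=
      Finset.sum_le_card_nsmul _ _ _ fun ω _ => pt_le T Λ U hκ hκ1 hp i ω
    rw [nsmul_eq_mul] at h1
    have h2 : (X.card : ℝ) ≤ 2 * m := by exact_mod_cast hXc
    have h3 : 0 ≤ KK m κ / (2 * q) := by positivity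
    calc ∑ ω ∈ X, pt T Λ U p i ω ≤ X.card * (KK m κ / (2 * q)) := h1
      _ ≤ (2 * m) * (KK m κ / (2 * q)) := mul_le_mul_of_nonneg_right h2 h3
      _ = m * KK m κ / q := by field_simp
  have hg0 : ∀ i z, (0 : ℝ) ≤ (if z ∈ T i then 0 else pr Λ U p i z) := by
    intro i z
    split_ifs
    · exact le_rfl
    · exact pr_nonneg Λ U hpos i z
  have hsle : ∀ i, ∑ z ∈ (X.image (L q m i)) \ T i, pr Λ U p i z ≤ ∑ ω ∈ X, pt T Λ U p i ω := by
    intro i
    rw [sum_sdiff_eq, ← Finset.sum_fiberwise_of_maps_to (s := X) (t := X.image (L q m i))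
      (g := L q m i) (fun ω hω => mem_image_of_mem _ hω)]
    refine Finset.sum_le_sum fun z hz => ?_
    obtain ⟨ω, hω, rfl⟩ := mem_image.1 hz
    have h1 := Finset.single_le_sum (s := X.filter fun ω' => L q m i ω' = L q m i ω)
      (f := fun ω' => pt T Λ U p i ω') (fun ω' _ => pt_nonneg T Λ U hpos i ω')
      (mem_filter.2 ⟨hω, rfl⟩)
    exact h1
  have hbad : ∀ i, |A i - B i| ≤ m * KK m κ / q := by
    intro i
    have h1 := (prod_bounds X (y0 i) (y1 i)).1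
    have h2 := hsle i
    have h3 := hsum i
    have h4 := hA1 i
    have h5 := (hBb i).2
    have h6 : 1 - m * KK m κ / q ≤ A i := by simp only [hA]; linarith
    have h7 : 1 - m * KK m κ / q ≤ B i := by simp only [hB]; linarith
    rw [abs_le]
    constructor <;> linarith
  have hgood : ∀ i, Set.InjOn (L q m i) (X : Set (Fin m × ZMod q)) →
      |A i - B i| ≤ (m * KK m κ / q) ^ 2 := by
    intro i hi
    have h1 : A i = 1 - ∑ ω ∈ X, pt T Λ U p i ω := by
      simp only [hA]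
      rw [sum_sdiff_eq, Finset.sum_image hi]
      rfl
    obtain ⟨h2, h3⟩ := prod_bounds X (y0 i) (y1 i)
    have h4 : 0 ≤ ∑ ω ∈ X, pt T Λ U p i ω := Finset.sum_nonneg (y0 i)
    have h5 : (∑ ω ∈ X, pt T Λ U p i ω) ^ 2 ≤ (m * KK m κ / q) ^ 2 :=
      pow_le_pow_left₀ h4 (hsum i) 2
    rw [h1]
    have h6 : B i = ∏ ω ∈ X, (1 - pt T Λ U p i ω) := rfl
    rw [abs_le]
    constructor <;> linarith
  set D : Finset (ZMod q) := univ.filter fun i => ¬ Set.InjOn (L q m i) (X : Set (Fin m × ZMod q))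
    with hD
  have hDc : D.card ≤ 4 * m ^ 2 := by
    have h1 : D ⊆ X.offDiag.biUnion fun x =>
        univ.filter fun i : ZMod q => L q m i x.1 = L q m i x.2 := by
      intro i hi
      rw [hD, mem_filter] at hi
      have h2 := hi.2
      unfold Set.InjOn at h2
      push Not at h2
      obtain ⟨x, hx, y, hy, hxy, hne⟩ := h2
      rw [mem_biUnion]
      exact ⟨(x, y), mem_offDiag.2 ⟨hx, hy, hne⟩, mem_filter.2 ⟨mem_univ _, hxy⟩⟩
    have h3 : D.card ≤ X.offDiag.card * 1 := by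
      refine (card_le_card h1).trans (Finset.card_biUnion_le_card_mul _ _ _ fun x hx => ?_)
      exact Pool.Agent.H42.TreeCover.codeg_le_one hm (mem_offDiag.1 hx).2.2
    have h4 : X.offDiag.card ≤ X.card * X.card := by
      rw [offDiag_card]
      exact Nat.sub_le _ _
    calc D.card ≤ X.offDiag.card * 1 := h3
      _ ≤ X.card * X.card := by rw [mul_one]; exact h4
      _ ≤ (2 * m) * (2 * m) := Nat.mul_le_mul hXc hXc
      _ = 4 * m ^ 2 := by ring
  refine (prod_diff univ (fun i _ => hA0 i) (fun i _ => hA1 i) (fun i _ => (hBb i).1)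
    fun i _ => (hBb i).2).trans ?_
  set x : ℝ := m * KK m κ / q with hx
  have hx0 : 0 ≤ x := by positivity
  have h1 : ∑ i, |A i - B i| ≤ ∑ i : ZMod q, (x ^ 2 + if i ∈ D then x else 0) := by
    refine Finset.sum_le_sum fun i _ => ?_
    by_cases hi : i ∈ D
    · rw [if_pos hi]
      have := hbad i
      nlinarith
    · rw [if_neg hi, add_zero]
      rw [hD, mem_filter, not_and, not_not] at hi
      exact hgood i (hi (mem_univ i))
  refine h1.trans ?_
  rw [Finset.sum_add_distrib, Finset.sum_const, Finset.sum_ite_mem, Finset.univ_inter,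
    Finset.sum_const, card_univ, ZMod.card, nsmul_eq_mul, nsmul_eq_mul]
  have hDr : (D.card : ℝ) ≤ 4 * m ^ 2 := by exact_mod_cast hDc
  have h2 : (D.card : ℝ) * x ≤ 4 * m ^ 2 * x := mul_le_mul_of_nonneg_right hDr hx0
  have h3 : (q : ℝ) * x ^ 2 = m ^ 2 * KK m κ ^ 2 / q := by
    rw [hx]
    field_simp
  have h4 : (m : ℝ) ^ 2 ≤ m ^ 3 := by
    have : m ^ 2 ≤ m ^ 3 := by
      rcases Nat.eq_zero_or_pos m with h | h
      · simp [h]
      · exact Nat.pow_le_pow_right h (by norm_num)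
    exact_mod_cast this
  have hm0 : (0 : ℝ) ≤ m := Nat.cast_nonneg m
  have h5 : (m : ℝ) ^ 2 * KK m κ ^ 2 ≤ m ^ 3 * KK m κ ^ 2 :=
    mul_le_mul_of_nonneg_right h4 (by positivity)
  have h6 : 4 * (m : ℝ) ^ 2 * (m * KK m κ) ≤ 4 * m ^ 3 * KK m κ ^ 2 := by
    have : KK m κ ≤ KK m κ ^ 2 := by nlinarith
    calc 4 * (m : ℝ) ^ 2 * (m * KK m κ) = 4 * m ^ 3 * KK m κ := by ring
      _ ≤ 4 * m ^ 3 * KK m κ ^ 2 := mul_le_mul_of_nonneg_left this (by positivity)
  calc (q : ℝ) * x ^ 2 + D.card * x ≤ m ^ 2 * KK m κ ^ 2 / q + 4 * m ^ 2 * x := by linarith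
    _ = (m ^ 2 * KK m κ ^ 2 + 4 * m ^ 2 * (m * KK m κ)) / q := by
        rw [hx]
        ring
    _ ≤ 5 * m ^ 3 * KK m κ ^ 2 / q := by
        apply div_le_div_of_nonneg_right _ hqR.le
        linarith

theorem surv_one (T : ZMod q → Finset (ZMod q)) (Λ : Finset (ZMod q))
    (U : Finset (Fin m × ZMod q)) {p : Fin m × ZMod q → ℝ} (hp : ∀ ω, 0 < p ω)
    {ω : Fin m × ZMod q} (hω : ω ∈ U) :
    Ex (law Λ U p) (fun a => if ω ∈ Un T a U then (1 : ℝ) else 0) = nx T Λ U p ω / p ω := by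
  have h1 := ex_eq T Λ U hp (X := {ω}) (Finset.singleton_subset_iff.2 hω)
  have h2 : (fun a : ZMod q → Option (ZMod q) => if ω ∈ Un T a U then (1 : ℝ) else 0) =
      fun a => if {ω} ⊆ Un T a U then (1 : ℝ) else 0 := by
    funext a
    simp only [Finset.singleton_subset_iff]
  rw [h2, h1, nx_div T Λ U hp]
  refine Finset.prod_congr rfl fun i _ => ?_
  rw [sum_sdiff_eq, Finset.image_singleton, Finset.sum_singleton]
  rfl

end Pool.Agent.H24.TC
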